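import Mathlib

/-!
# Fisk's conjecture (MP_675d17_an, S03369): definitions and basic lemmas
-/

set_option autoImplicit false

open scoped BigOperators
open Finset

namespace Pool.Agent.H576.FK

/-- The weights `mu c j = j! / (c (c+1) ... (c+j-1))`. -/
noncomputable def mu (c : ℝ) : ℕ → ℝ
  | 0 => 1
  | (j + 1) => mu c j * (((j : ℝ) + 1) / (c + j))

/-- The linear functional on polynomials in `S = X 0`, `T = X 1` with
`S ^ a * T ^ b ↦ mu c a` if `a = b` and `0` otherwise. -/
noncomputable def L (K : Type) [Field K] [Algebra ℝ K] (c : ℝ) :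
    MvPolynomial (Fin 2) K →ₗ[K] K :=
  (MvPolynomial.basisMonomials (Fin 2) K).constr K
    (fun m => if m 0 = m 1 then algebraMap ℝ K (mu c (m 0)) else 0)

/-- The factor `x x' S + (x y' + y x') + y y' T` of a pair of vectors `(x, y)`, `(x', y')`. -/
noncomputable def site {K : Type} [Field K] (x y x' y' : K) : MvPolynomial (Fin 2) K :=
  MvPolynomial.C (x * x') * MvPolynomial.X 0 + MvPolynomial.C (x * y' + y * x')
    + MvPolynomial.C (y * y') * MvPolynomial.X 1

/-- `E2 c U x y x' y' a b` is the value of the functional `L` at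
`S ^ a * T ^ b * ∏_{i ∈ U} (x x' S + (x y' + y x') + y y' T)`. -/
noncomputable def E2 {K : Type} [Field K] [Algebra ℝ K] (c : ℝ) (U : Finset ℕ)
    (x y x' y' : ℕ → K) (a b : ℕ) : K :=
  L K c (MvPolynomial.X 0 ^ a * MvPolynomial.X 1 ^ b *
    ∏ i ∈ U, site (x i) (y i) (x' i) (y' i))

/-- The diagonal case: `E c U x y a b` is the value of `L` at
`S ^ a * T ^ b * ∏_{i ∈ U} (x ^ 2 S + 2 x y + y ^ 2 T)`. -/
noncomputable def E {K : Type} [Field K] [Algebra ℝ K] (c : ℝ) (U : Finset ℕ)
    (x y : ℕ → K) (a b : ℕ) : K := E2 c U x y x y a b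

variable {K : Type} [Field K] [Algebra ℝ K]

theorem L_monomial (c : ℝ) (a b : ℕ) :
    L K c (MvPolynomial.X 0 ^ a * MvPolynomial.X 1 ^ b) =
      if a = b then algebraMap ℝ K (mu c a) else 0 := by
  have h : (MvPolynomial.X 0 ^ a * MvPolynomial.X 1 ^ b : MvPolynomial (Fin 2) K) =
      MvPolynomial.basisMonomials (Fin 2) K
        (Finsupp.single 0 a + Finsupp.single 1 b) := by
    rw [MvPolynomial.coe_basisMonomials]
    simp only [MvPolynomial.X_pow_eq_monomial, MvPolynomial.monomial_mul, mul_one]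
  rw [h, L, Module.Basis.constr_basis]
  simp

theorem E2_empty (c : ℝ) (x y x' y' : ℕ → K) (a b : ℕ) :
    E2 c ∅ x y x' y' a b = if a = b then algebraMap ℝ K (mu c a) else 0 := by
  simp only [E2, Finset.prod_empty, mul_one]
  exact L_monomial c a b

theorem E2_insert (c : ℝ) (U : Finset ℕ) (x y x' y' : ℕ → K) (a b : ℕ) (i : ℕ) (hi : i ∉ U) :
    E2 c (insert i U) x y x' y' a b =
      x i * x' i * E2 c U x y x' y' (a + 1) b
      + (x i * y' i + y i * x' i) * E2 c U x y x' y' a b
      + y i * y' i * E2 c U x y x' y' a (b + 1) := by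
  unfold E2
  rw [Finset.prod_insert hi]
  set P := ∏ i ∈ U, site (x i) (y i) (x' i) (y' i) with hP
  have h : ∀ S T C1 C2 C3 : MvPolynomial (Fin 2) K, S ^ a * T ^ b *
      ((C1 * S + C2 + C3 * T) * P) =
      C1 * (S ^ (a + 1) * T ^ b * P) + C2 * (S ^ a * T ^ b * P)
      + C3 * (S ^ a * T ^ (b + 1) * P) := by
    intro S T C1 C2 C3
    ring
  have hs : ∀ (r : K) (p : MvPolynomial (Fin 2) K),
      L K c (MvPolynomial.C r * p) = r * L K c p := by
    intro r p
    rw [← MvPolynomial.smul_eq_C_mul, map_smul, smul_eq_mul]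
  rw [site, h, map_add, map_add, hs, hs, hs]

theorem E2_erase (c : ℝ) (U : Finset ℕ) (x y x' y' : ℕ → K) (a b : ℕ) (i : ℕ) (hi : i ∈ U) :
    E2 c U x y x' y' a b =
      x i * x' i * E2 c (U.erase i) x y x' y' (a + 1) b
      + (x i * y' i + y i * x' i) * E2 c (U.erase i) x y x' y' a b
      + y i * y' i * E2 c (U.erase i) x y x' y' a (b + 1) := by
  conv_lhs => rw [← Finset.insert_erase hi]
  exact E2_insert c (U.erase i) x y x' y' a b i (Finset.notMem_erase i U)

theorem E2_congr (c : ℝ) (U : Finset ℕ) (x y x' y' z w z' w' : ℕ → K) (a b : ℕ)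
    (h : ∀ i ∈ U, x i = z i ∧ y i = w i ∧ x' i = z' i ∧ y' i = w' i) :
    E2 c U x y x' y' a b = E2 c U z w z' w' a b := by
  have hP : (∏ i ∈ U, site (x i) (y i) (x' i) (y' i)) =
      ∏ i ∈ U, site (z i) (w i) (z' i) (w' i) := by
    apply Finset.prod_congr rfl
    intro i hi
    obtain ⟨h1, h2, h3, h4⟩ := h i hi
    rw [h1, h2, h3, h4]
  rw [E2, E2, hP]

theorem E_empty (c : ℝ) (x y : ℕ → K) (a b : ℕ) :
    E c ∅ x y a b = if a = b then algebraMap ℝ K (mu c a) else 0 := E2_empty c x y x y a b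

theorem E_insert (c : ℝ) (U : Finset ℕ) (x y : ℕ → K) (a b : ℕ) (i : ℕ) (hi : i ∉ U) :
    E c (insert i U) x y a b =
      (x i) ^ 2 * E c U x y (a + 1) b
      + 2 * x i * y i * E c U x y a b
      + (y i) ^ 2 * E c U x y a (b + 1) := by
  unfold E
  rw [E2_insert c U x y x y a b i hi]
  ring

theorem E_erase (c : ℝ) (U : Finset ℕ) (x y : ℕ → K) (a b : ℕ) (i : ℕ) (hi : i ∈ U) :
    E c U x y a b =
      (x i) ^ 2 * E c (U.erase i) x y (a + 1) b
      + 2 * x i * y i * E c (U.erase i) x y a b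
      + (y i) ^ 2 * E c (U.erase i) x y a (b + 1) := by
  unfold E
  rw [E2_erase c U x y x y a b i hi]
  ring

theorem E_congr (c : ℝ) (U : Finset ℕ) (x y z w : ℕ → K) (a b : ℕ)
    (h : ∀ i ∈ U, x i = z i ∧ y i = w i) :
    E c U x y a b = E c U z w a b :=
  E2_congr c U x y x y z w z w a b (fun i hi => ⟨(h i hi).1, (h i hi).2, (h i hi).1, (h i hi).2⟩)

/-- swapping the roles of `x`, `y` -/
theorem E_swap (c : ℝ) (U : Finset ℕ) (x y : ℕ → K) (a b : ℕ) :
    E c U x y a b = E c U y x b a := by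
  induction U using Finset.induction_on generalizing a b with
  | empty =>
    rw [E_empty, E_empty]
    by_cases h : a = b
    · subst h; rfl
    · rw [if_neg h, if_neg (fun h' => h h'.symm)]
  | insert i U hi ih =>
    rw [E_insert c U x y a b i hi, E_insert c U y x b a i hi, ih (a + 1) b, ih a b, ih a (b + 1)]
    ring

/-- real arguments -/
theorem E_ofReal (c : ℝ) (U : Finset ℕ) (x y : ℕ → ℝ) (a b : ℕ) :
    E c U (fun i => (x i : ℂ)) (fun i => (y i : ℂ)) a b = ((E c U x y a b : ℝ) : ℂ) := by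
  induction U using Finset.induction_on generalizing a b with
  | empty =>
    rw [E_empty, E_empty]
    split_ifs <;> simp
  | insert i U hi ih =>
    rw [E_insert _ _ _ _ _ _ i hi, E_insert _ _ _ _ _ _ i hi, ih, ih, ih]
    push_cast
    ring

/-- rescaling each vector `(x i, y i)` by `s i` -/
theorem E_smul (c : ℝ) (U : Finset ℕ) (s x y : ℕ → K) (a b : ℕ) :
    E c U (fun i => s i * x i) (fun i => s i * y i) a b = (∏ i ∈ U, (s i) ^ 2) * E c U x y a b := by
  induction U using Finset.induction_on generalizing a b with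
  | empty => rw [E_empty, E_empty]; simp
  | insert i U hi ih =>
    rw [E_insert _ _ _ _ _ _ i hi, E_insert _ _ _ _ _ _ i hi, ih, ih, ih,
      Finset.prod_insert hi]
    ring

/-- the dilation symmetry -/
theorem E_dil_aux (c : ℝ) (U : Finset ℕ) (t : K) (ht : t ≠ 0) (x y : ℕ → K) (a b : ℕ) :
    t ^ (2 * a) * E c U (fun i => t * x i) (fun i => t⁻¹ * y i) a b =
      t ^ (2 * b) * E c U x y a b := by
  induction U using Finset.induction_on generalizing a b with
  | empty =>
    rw [E_empty, E_empty]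
    by_cases h : a = b
    · subst h; rfl
    · simp [h]
  | insert i U hi ih =>
    rw [E_insert _ _ _ _ _ _ i hi, E_insert _ _ _ _ _ _ i hi]
    have h1 := ih (a + 1) b
    have h2 := ih a b
    have h3 := ih a (b + 1)
    have e1 : t ^ (2 * (a + 1)) = t ^ (2 * a) * t ^ 2 := by ring
    have e3 : t ^ (2 * (b + 1)) = t ^ (2 * b) * t ^ 2 := by ring
    rw [e1] at h1
    rw [e3] at h3
    have ht' : t * t⁻¹ = 1 := mul_inv_cancel₀ ht
    generalize E c U (fun i => t * x i) (fun i => t⁻¹ * y i) (a + 1) b = F1 at *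
    generalize E c U (fun i => t * x i) (fun i => t⁻¹ * y i) a b = F2 at *
    generalize E c U (fun i => t * x i) (fun i => t⁻¹ * y i) a (b + 1) = F3 at *
    have hh : t⁻¹ * (t⁻¹ * t ^ 2) = 1 := by
      field_simp
    linear_combination (x i) ^ 2 * h1 + 2 * (x i) * (y i) * h2
      + (y i) ^ 2 * t⁻¹ ^ 2 * h3 + (2 * t ^ (2 * a) * x i * y i * F2) * ht'
      + (t ^ (2 * b) * (y i) ^ 2 * E c U x y a (b + 1)) * hh

theorem E_dil (c : ℝ) (U : Finset ℕ) (t : K) (ht : t ≠ 0) (x y : ℕ → K) :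
    E c U (fun i => t * x i) (fun i => t⁻¹ * y i) 0 0 = E c U x y 0 0 := by
  have h := E_dil_aux c U t ht x y 0 0
  simpa using h

theorem mu_pos (c : ℝ) (hc : 0 < c) (j : ℕ) : 0 < mu c j := by
  induction j with
  | zero => simp [mu]
  | succ j ih =>
    rw [mu]
    positivity

/-- positivity of `E` for positive real arguments -/
theorem E_nonneg (c : ℝ) (hc : 0 < c) (U : Finset ℕ) (x y : ℕ → ℝ)
    (hx : ∀ i ∈ U, 0 ≤ x i) (hy : ∀ i ∈ U, 0 ≤ y i) (a b : ℕ) : 0 ≤ E c U x y a b := by
  induction U using Finset.induction_on generalizing a b with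
  | empty =>
    rw [E_empty]
    split_ifs
    · exact (mu_pos c hc a).le
    · exact le_rfl
  | insert i U hi ih =>
    rw [E_insert _ _ _ _ _ _ i hi]
    have hxi := hx i (Finset.mem_insert_self i U)
    have hyi := hy i (Finset.mem_insert_self i U)
    have hx' : ∀ j ∈ U, 0 ≤ x j := fun j hj => hx j (Finset.mem_insert_of_mem hj)
    have hy' : ∀ j ∈ U, 0 ≤ y j := fun j hj => hy j (Finset.mem_insert_of_mem hj)
    have h1 := ih hx' hy' (a + 1) b
    have h2 := ih hx' hy' a b
    have h3 := ih hx' hy' a (b + 1)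
    positivity

theorem E_pos (c : ℝ) (hc : 0 < c) (U : Finset ℕ) (x y : ℕ → ℝ)
    (hx : ∀ i ∈ U, 0 < x i) (hy : ∀ i ∈ U, 0 < y i) (a : ℕ) : 0 < E c U x y a a := by
  induction U using Finset.induction_on with
  | empty =>
    rw [E_empty, if_pos rfl]
    exact mu_pos c hc a
  | insert i U hi ih =>
    rw [E_insert _ _ _ _ _ _ i hi]
    have hxi := hx i (Finset.mem_insert_self i U)
    have hyi := hy i (Finset.mem_insert_self i U)
    have hx' : ∀ j ∈ U, 0 < x j := fun j hj => hx j (Finset.mem_insert_of_mem hj)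
    have hy' : ∀ j ∈ U, 0 < y j := fun j hj => hy j (Finset.mem_insert_of_mem hj)
    have h2 := ih hx' hy'
    have h1 := E_nonneg c hc U x y (fun j hj => (hx' j hj).le) (fun j hj => (hy' j hj).le) (a + 1) a
    have h3 := E_nonneg c hc U x y (fun j hj => (hx' j hj).le) (fun j hj => (hy' j hj).le) a (a + 1)
    positivity

end Pool.Agent.H576.FK
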