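import Mathlib
import Pool.Agent.H576.FK.Defs

/-!
# Fisk's conjecture (MP_675d17_an, S03369): statements of the steps
-/

set_option autoImplicit false

open scoped BigOperators
open Finset

namespace Pool.Agent.H576.FK

/-! ## Block A: the slice theorem -/

/-- open cone: `Im (x i * conj (y i)) > 0` on `U` -/
def Cone (U : Finset ℕ) (x y : ℕ → ℂ) : Prop :=
  ∀ i ∈ U, 0 < (x i * (starRingEnd ℂ) (y i)).im

/-- closed cone without the origin -/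
def CCone (U : Finset ℕ) (x y : ℕ → ℂ) : Prop :=
  ∀ i ∈ U, (x i ≠ 0 ∨ y i ≠ 0) ∧ 0 ≤ (x i * (starRingEnd ℂ) (y i)).im

/-- stability of the slice polynomial on the sites `U` -/
def Stab (c : ℝ) (U : Finset ℕ) : Prop :=
  ∀ x y : ℕ → ℂ, Cone U x y → E c U x y 0 0 ≠ 0

/-- derivative of `E` when the vector `(x i, y i)` moves in direction `(y i, - x i)` -/
noncomputable def Dr (c : ℝ) (U : Finset ℕ) (x y : ℕ → ℝ) (i : ℕ) : ℝ :=
  2 * x i * y i * (E c (U.erase i) x y 1 0 - E c (U.erase i) x y 0 1)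
    + 2 * ((y i) ^ 2 - (x i) ^ 2) * E c (U.erase i) x y 0 0

/-- second derivative (divided by 2) in direction `(y i, - x i)` -/
noncomputable def S2 (c : ℝ) (U : Finset ℕ) (x y : ℕ → ℝ) (i : ℕ) : ℝ :=
  (y i) ^ 2 * E c (U.erase i) x y 1 0 - 2 * x i * y i * E c (U.erase i) x y 0 0
    + (x i) ^ 2 * E c (U.erase i) x y 0 1

/-- mixed second derivative in directions `(y i, - x i)`, `(y j, - x j)` -/
noncomputable def M11 (c : ℝ) (U : Finset ℕ) (x y : ℕ → ℝ) (i j : ℕ) : ℝ :=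
  4 * ((y i) ^ 2 - (x i) ^ 2) * ((y j) ^ 2 - (x j) ^ 2) * E c ((U.erase i).erase j) x y 0 0
  + 4 * (((y i) ^ 2 - (x i) ^ 2) * (x j * y j) + ((y j) ^ 2 - (x j) ^ 2) * (x i * y i))
      * (E c ((U.erase i).erase j) x y 1 0 - E c ((U.erase i).erase j) x y 0 1)
  + 4 * (x i * y i) * (x j * y j) * (E c ((U.erase i).erase j) x y 2 0
      - 2 * E c ((U.erase i).erase j) x y 1 1 + E c ((U.erase i).erase j) x y 0 2)

/-- balanced real configuration -/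
def Bal (U : Finset ℕ) (x y : ℕ → ℝ) : Prop :=
  (∀ i ∈ U, x i ≠ 0 ∨ y i ≠ 0) ∧ 2 * (U.filter (fun i => x i = 0)).card ≤ U.card ∧
    2 * (U.filter (fun i => y i = 0)).card ≤ U.card

/-- strictness: at a balanced real zero all derivatives are nonzero with the same sign -/
def Strict (c : ℝ) (U : Finset ℕ) : Prop :=
  ∀ x y : ℕ → ℝ, Bal U x y → E c U x y 0 0 = 0 →
    (∀ i ∈ U, 0 < Dr c U x y i) ∨ (∀ i ∈ U, Dr c U x y i < 0)

/-- A03: the recurrence (integration by parts). -/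
def A03_rec : Prop := ∀ (c : ℝ), 1 ≤ c → ∀ (U : Finset ℕ) (x y : ℕ → ℝ) (a b : ℕ),
  (2 * c - 1 + U.card + a + b) * E c U x y (a + 1) b =
    2 * b * E c U x y a (b - 1) +
      ∑ i ∈ U, (2 * x i * y i * E c (U.erase i) x y (a + 1) b
        + 2 * (y i) ^ 2 * E c (U.erase i) x y a b)

/-- A04: the edge case of balance. -/
def A04_edge : Prop := ∀ (c : ℝ), 1 ≤ c → ∀ (U : Finset ℕ) (x y : ℕ → ℝ),
  (∀ i ∈ U, x i ≠ 0 ∨ y i ≠ 0) → 2 * (U.filter (fun i => x i = 0)).card = U.card →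
    E c U x y 0 0 ≠ 0

/-- A05: sum of the derivatives. -/
def A05_sum : Prop := ∀ (c : ℝ), 1 ≤ c → ∀ (U : Finset ℕ) (x y : ℕ → ℝ),
  ∑ i ∈ U, Dr c U x y i = (2 * c - 1 + U.card) * (E c U x y 1 0 - E c U x y 0 1)

/-- A06: base case of the homotopy. -/
def A06_base : Prop := ∀ U : Finset ℕ, Stab 1 U

/-- A07: one variable Harnack inequality for quadratics. -/
def A07_quad : Prop := ∀ A B C : ℂ, (∀ t : ℂ, 0 < t.im → A + B * t + C * t ^ 2 ≠ 0) →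
  ∀ s z : ℂ, 0 < z.im →
    ‖A + B * s + C * s ^ 2‖ ≤ (1 + ‖s - z‖ / z.im) ^ 2 * ‖A + B * z + C * z ^ 2‖

/-- the quadratic form of site `j` -/
noncomputable def Qf (c : ℝ) (U : Finset ℕ) (x y : ℕ → ℂ) (j : ℕ) (X Y : ℂ) : ℂ :=
  X ^ 2 * E c (U.erase j) x y 1 0 + 2 * X * Y * E c (U.erase j) x y 0 0
    + Y ^ 2 * E c (U.erase j) x y 0 1

/-- A08: Harnack inequality in one site, the other sites being in the closed cone. -/
def A08_H1 : Prop := ∀ (c : ℝ) (U : Finset ℕ), Stab c U → ∀ j ∈ U, ∀ x y : ℕ → ℂ,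
  CCone (U.erase j) x y → ∀ p q : ℝ, (p ≠ 0 ∨ q ≠ 0) → ∀ s z : ℂ, 0 < z.im →
    ‖Qf c U x y j (p + s * q) (q - s * p)‖ ≤
      (1 + ‖s - z‖ / z.im) ^ 2 * ‖Qf c U x y j (p + z * q) (q - z * p)‖

/-- the real biquadratic polynomial without constant term -/
noncomputable def Bq (f10 f01 f20 f11 f02 f21 f12 f22 : ℝ) (a b : ℂ) : ℂ :=
  f10 * a + f01 * b + f20 * a ^ 2 + f11 * (a * b) + f02 * b ^ 2 + f21 * (a ^ 2 * b)
    + f12 * (a * b ^ 2) + f22 * (a ^ 2 * b ^ 2)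

/-- A09a: sign information at a zero of a two variable polynomial with the Harnack property. -/
def A09a_two : Prop := ∀ f10 f01 f20 f11 f02 f21 f12 f22 : ℝ,
  (∀ s1 s2 z1 z2 : ℂ, 0 < s1.im → 0 < s2.im → 0 < z1.im → 0 < z2.im →
    ‖Bq f10 f01 f20 f11 f02 f21 f12 f22 s1 s2‖ ≤
      (1 + ‖s1 - z1‖ / z1.im) ^ 2 * (1 + ‖s2 - z2‖ / z2.im) ^ 2
        * ‖Bq f10 f01 f20 f11 f02 f21 f12 f22 z1 z2‖) →
  0 ≤ f10 * f01 ∧ (f10 = 0 → f01 ≠ 0 → f20 = 0) ∧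
    (f10 = 0 → f01 = 0 → 0 ≤ f20 * f11 ∧ 0 ≤ f20 * f02)

/-- A09b: sign information at a real zero. -/
def A09b_pair : Prop := ∀ (c : ℝ), 1 ≤ c → ∀ (U : Finset ℕ), Stab c U → ∀ x y : ℕ → ℝ,
  (∀ i ∈ U, x i ≠ 0 ∨ y i ≠ 0) → E c U x y 0 0 = 0 → ∀ i ∈ U, ∀ j ∈ U, i ≠ j →
    0 ≤ Dr c U x y i * Dr c U x y j ∧
    (Dr c U x y i = 0 → Dr c U x y j ≠ 0 →
      E c (U.erase i) x y 1 0 = 0 ∧ E c (U.erase i) x y 0 0 = 0 ∧ E c (U.erase i) x y 0 1 = 0) ∧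
    (Dr c U x y i = 0 → Dr c U x y j = 0 →
      0 ≤ S2 c U x y i * M11 c U x y i j ∧ 0 ≤ S2 c U x y i * S2 c U x y j)

/-- A10: there is no node. -/
def A10_node : Prop := ∀ (c : ℝ), 1 ≤ c → ∀ (U : Finset ℕ) (x y : ℕ → ℝ),
  (∀ i ∈ U, x i ≠ 0 ∨ y i ≠ 0) → E c U x y 0 0 = 0 → (∀ j ∈ U, Dr c U x y j = 0) →
  ∀ i ∈ U, x i ≠ 0 → y i ≠ 0 →
  (∀ j ∈ U, i ≠ j → 0 ≤ S2 c U x y i * M11 c U x y i j ∧ 0 ≤ S2 c U x y i * S2 c U x y j) →
    E c (U.erase i) x y 1 0 = 0 ∧ E c (U.erase i) x y 0 0 = 0 ∧ E c (U.erase i) x y 0 1 = 0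

/-- A11: stability and strictness for fewer sites imply strictness. -/
def A11_strict : Prop := ∀ (c : ℝ), 1 ≤ c → ∀ (U : Finset ℕ), Stab c U →
  (∀ i ∈ U, Strict c (U.erase i)) → Strict c U

/-- A12: no zeros at non-real balanced points of the closed cone. -/
def A12_closed : Prop := ∀ (c : ℝ), 1 ≤ c → ∀ (U : Finset ℕ), Stab c U → Strict c U →
  ∀ x y : ℕ → ℂ, CCone U x y → 2 * (U.filter (fun i => x i = 0)).card ≤ U.card →
    2 * (U.filter (fun i => y i = 0)).card ≤ U.card →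
    (∃ j ∈ U, 0 < (x j * (starRingEnd ℂ) (y j)).im) → E c U x y 0 0 ≠ 0

/-- A13a: continuity. -/
def A13a_cont : Prop := ∀ (U : Finset ℕ) (a b : ℕ),
  ContinuousOn (fun p : ℝ × (ℕ → ℂ) × (ℕ → ℂ) => E p.1 U p.2.1 p.2.2 a b)
    {p : ℝ × (ℕ → ℂ) × (ℕ → ℂ) | 0 < p.1}

/-- A13b: no zeros close to a real point with all derivatives of the same sign. -/
def A13b_local : Prop := ∀ (c : ℝ), 1 ≤ c → ∀ (U : Finset ℕ), U.Nonempty → ∀ x y : ℕ → ℝ,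
  ((∀ i ∈ U, 0 < Dr c U x y i) ∨ (∀ i ∈ U, Dr c U x y i < 0)) →
  ∃ δ > 0, ∀ c' : ℝ, |c' - c| < δ → ∀ t : ℕ → ℂ, (∀ i ∈ U, ‖t i‖ < δ ∧ 0 < (t i).im) →
    E c' U (fun i => (x i : ℂ) + t i * y i) (fun i => (y i : ℂ) - t i * x i) 0 0 ≠ 0

/-- A13c: normalisation by a dilation. -/
def A13c_norm : Prop := ∀ (U : Finset ℕ), U.Nonempty → ∀ x y : ℕ → ℂ, Cone U x y →
  ∃ t : ℝ, 0 < t ∧
    ∑ i ∈ U, ‖t * x i‖ ^ 2 / (‖t * x i‖ ^ 2 + ‖(t : ℂ)⁻¹ * y i‖ ^ 2) = (U.card : ℝ) / 2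

/-- A13: openness of the set of good parameters. -/
def A13_open : Prop := ∀ (c : ℝ), 1 ≤ c → ∀ (U : Finset ℕ), U.Nonempty → Stab c U → Strict c U →
  ∃ δ > 0, ∀ c' : ℝ, |c' - c| < δ → 1 ≤ c' → Stab c' U

/-- A14: closedness of the set of good parameters. -/
def A14_closed : Prop := ∀ (c : ℝ), 1 ≤ c → ∀ (U : Finset ℕ),
  (∀ δ > 0, ∃ c' : ℝ, 1 ≤ c' ∧ |c' - c| < δ ∧ Stab c' U) → Stab c U

/-- A15: the slice theorem. -/
def A15_slice : Prop := ∀ (c : ℝ), 1 ≤ c → ∀ (U : Finset ℕ), Stab c U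

/-! ## Block B: the operators preserve stability -/

/-- the kernel `1 / binom (s + m) s` -/
noncomputable def Kc (s m : ℕ) : ℝ := ((Nat.choose (s + m) s : ℕ) : ℝ)⁻¹

/-- B00: the kernel is `mu (s + 1)`. -/
def B00_mu : Prop := ∀ s m : ℕ, mu ((s : ℝ) + 1) m = Kc s m

/-- B01: Grace-Walsh-Szegő for quadratics. -/
def B01_gws : Prop := ∀ α β γ : ℂ, (∀ ζ : ℂ, 0 < ζ.im → α * ζ ^ 2 + 2 * β * ζ + γ ≠ 0) →
  ∀ z w : ℂ, 0 < z.im → 0 < w.im → α * (z * w) + β * (z + w) + γ ≠ 0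

/-- B02: the symbol is stable. -/
def B02_sym : Prop := ∀ (c : ℝ), 1 ≤ c → ∀ (U : Finset ℕ) (z w : ℕ → ℂ),
  (∀ i ∈ U, 0 < (z i).im ∧ 0 < (w i).im) →
    E2 c U z (fun _ => 1) w (fun _ => 1) 0 0 ≠ 0

/-- B03: expansion of the symbol. -/
def B03_expand : Prop := ∀ (c : ℝ) (U : Finset ℕ) (z w : ℕ → ℂ),
  E2 c U z (fun _ => 1) w (fun _ => 1) 0 0 =
    ∑ S ∈ U.powerset, ∑ S' ∈ U.powerset,
      if S.card = S'.card then
        ((mu c (S' \ S).card : ℝ) : ℂ) * (∏ i ∈ S', z i) * (∏ i ∈ U \ S, w i) else 0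

/-- B04: Asano contraction, one site. -/
def B04_one : Prop := ∀ (A B C D : ℂ) (R : ℝ), 1 < R →
  (∀ w x y : ℂ, 0 < w.im → ‖x - Complex.I * y‖ < R * ‖x + Complex.I * y‖ →
    (A + B * w) * y + (C + D * w) * x ≠ 0) → B + C ≠ 0

/-- B05: Asano contraction, all sites. -/
def B05_asano : Prop := ∀ (U : Finset ℕ) (p f : Finset ℕ → ℂ) (R : ℝ), 1 < R →
  (∀ w x y : ℕ → ℂ, (∀ i ∈ U, 0 < (w i).im) →
    (∀ i ∈ U, ‖x i - Complex.I * y i‖ < R * ‖x i + Complex.I * y i‖) →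
    (∑ S ∈ U.powerset, p S * ∏ i ∈ U \ S, w i) *
      (∑ S ∈ U.powerset, f S * (∏ i ∈ S, x i) * ∏ i ∈ U \ S, y i) ≠ 0) →
  ∑ S ∈ U.powerset, p S * f S ≠ 0

/-- a multi-affine polynomial given by its coefficients -/
noncomputable def MA (U : Finset ℕ) (f : Finset ℕ → ℂ) (z : ℕ → ℂ) : ℂ :=
  ∑ S ∈ U.powerset, f S * ∏ i ∈ S, z i

/-- B06: Harnack inequality for multi-affine polynomials. -/
def B06_harnack : Prop := ∀ (U : Finset ℕ) (f : Finset ℕ → ℂ),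
  (∀ z : ℕ → ℂ, (∀ i ∈ U, 0 < (z i).im) → MA U f z ≠ 0) →
  ∀ s z : ℕ → ℂ, (∀ i ∈ U, 0 < (s i).im) → (∀ i ∈ U, 0 < (z i).im) →
    ‖MA U f s‖ ≤ (∏ i ∈ U, (1 + ‖s i - z i‖ / (z i).im)) * ‖MA U f z‖

/-- the perturbed coefficients -/
noncomputable def pert (U : Finset ℕ) (f : Finset ℕ → ℂ) (ε : ℝ) (S : Finset ℕ) : ℂ :=
  ∑ B ∈ U.powerset, f B * (Complex.I * ε) ^ (B \ S).card * (-(Complex.I * ε)) ^ (S \ B).card

/-- B07: perturbation making the stability strict. -/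
def B07_pert : Prop := ∀ (U : Finset ℕ) (f : Finset ℕ → ℂ),
  (∀ z : ℕ → ℂ, (∀ i ∈ U, 0 < (z i).im) → MA U f z ≠ 0) →
  (∀ ε : ℝ, 0 < ε → ε < 1 → ∀ x y : ℕ → ℂ,
    (∀ i ∈ U, ‖x i - Complex.I * y i‖ < (1 + ε) / (1 - ε) * ‖x i + Complex.I * y i‖) →
    ∑ S ∈ U.powerset, pert U f ε S * (∏ i ∈ S, x i) * ∏ i ∈ U \ S, y i ≠ 0) ∧
  ∀ S ∈ U.powerset, pert U f 0 S = f S

/-- B08: the operator with kernel `1 / binom (s + m) s` preserves stability. -/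
def B08_op : Prop := ∀ (s : ℕ), 1 ≤ s → ∀ (U : Finset ℕ) (f : Finset ℕ → ℝ),
  0 < f ∅ →
  (∀ z : ℕ → ℂ, (∀ i ∈ U, 0 < (z i).im) → MA U (fun S => (f S : ℂ)) z ≠ 0) →
  ∀ z : ℕ → ℂ, (∀ i ∈ U, 0 < (z i).im) →
    MA U (fun S' => ((∑ S ∈ U.powersetCard S'.card, Kc s (S \ S').card * f S : ℝ) : ℂ)) z ≠ 0

/-- the chain -/
noncomputable def gg (V : Finset ℕ) (θ : ℕ → ℝ) : ℕ → Finset ℕ → ℝ
  | 0 => fun _ => 1
  | (n + 1) => fun S => ∑ S' ∈ V.powersetCard S.card,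
      Kc (n + 1) (S' \ S).card * ((∏ i ∈ S', θ i) * gg V θ n S')

/-- B09: stability along the chain. -/
def B09_chain : Prop := ∀ (V : Finset ℕ) (θ : ℕ → ℝ), (∀ i ∈ V, 0 < θ i) → ∀ n : ℕ,
  ∀ z : ℕ → ℂ, (∀ i ∈ V, 0 < (z i).im) → MA V (fun S => (gg V θ n S : ℂ)) z ≠ 0

/-! ## Block C: the chain computes the Toeplitz minors -/

open MvPolynomial in
/-- the chain as polynomials: `tt V n S = θ_S * gg V θ n S` -/
noncomputable def tt (V : Finset ℕ) : ℕ → Finset ℕ → MvPolynomial ℕ ℝ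
  | 0 => fun S => ∏ i ∈ S, X i
  | (n + 1) => fun S => (∏ i ∈ S, X i) * ∑ S' ∈ V.powersetCard S.card,
      C (Kc (n + 1) (S' \ S).card) * tt V n S'

open MvPolynomial in
/-- C01: first order differential equations along the chain. -/
def C01_first : Prop := ∀ (V : Finset ℕ) (n : ℕ),
  ∃ q : ℕ → ℕ → Finset ℕ → MvPolynomial ℕ ℝ,
    (∀ S ∈ V.powerset, ∀ i ∈ S, ∀ j ∈ V \ S,
      (X i - X j) * q i j S = X j * tt V n S - X i * tt V n (insert j (S.erase i))) ∧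
    (∀ S ∈ V.powerset, ∀ j ∈ V \ S, X j * pderiv j (tt V n S) = ∑ i ∈ S, q i j S) ∧
    (∀ S ∈ V.powerset, ∀ i ∈ S, X i * pderiv i (tt V n S) =
      C ((n : ℝ) + 1) * tt V n S - ∑ j ∈ V \ S, q i j S)

/-- the sum of the chain over all `k`-subsets -/
noncomputable def TT (V : Finset ℕ) (n k : ℕ) : MvPolynomial ℕ ℝ :=
  ∑ S ∈ V.powersetCard k, tt V n S

open MvPolynomial in
/-- Muirhead's differential equation in the variable `l` -/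
def Muir (V : Finset ℕ) (l r k : ℕ) (P : MvPolynomial ℕ ℝ) : Prop :=
  ∃ s : ℕ → MvPolynomial ℕ ℝ,
    (∀ j ∈ V.erase l, (X l - X j) * s j = X j * pderiv j P - X l * pderiv l P) ∧
    pderiv l P + X l * pderiv l (pderiv l P) =
      C ((r : ℝ) + V.card - k) * pderiv l P + ∑ j ∈ V.erase l, s j

/-- C02: Muirhead's equation for the chain. -/
def C02_muirT : Prop := ∀ (V : Finset ℕ) (l n k : ℕ), l ∈ V → Muir V l (n + 1) k (TT V n k)

/-- C03: the determinant identity. -/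
def C03_det : Prop := ∀ (A : Type) [CommRing A] (r : ℕ) (k : ℤ) (ε : ℤ → A),
  let M : Matrix (Fin r) (Fin r) (Polynomial A) := Matrix.of fun i j =>
    Polynomial.C (ε (k - ((i : ℕ) : ℤ) + ((j : ℕ) : ℤ))) +
      Polynomial.X * Polynomial.C (ε (k - ((i : ℕ) : ℤ) + ((j : ℕ) : ℤ) - 1))
  Polynomial.X * Polynomial.derivative (Polynomial.derivative M.det) =
    Polynomial.C ((r : A) - (k : A)) * Polynomial.derivative M.det +
      ∑ j : Fin r, (M.updateCol j (fun i =>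
        Polynomial.C (((k - ((i : ℕ) : ℤ) + ((j : ℕ) : ℤ) - 1 : ℤ) : A) *
          ε (k - ((i : ℕ) : ℤ) + ((j : ℕ) : ℤ) - 1)))).det

open MvPolynomial in
/-- elementary symmetric polynomials in the variables `V` -/
noncomputable def es (V : Finset ℕ) (p : ℤ) : MvPolynomial ℕ ℝ :=
  if 0 ≤ p then ∑ A ∈ V.powersetCard p.toNat, ∏ i ∈ A, X i else 0

open MvPolynomial in
/-- C04: facts on elementary symmetric polynomials. -/
def C04_es : Prop := ∀ (V : Finset ℕ) (l : ℕ), l ∈ V → ∀ p : ℤ,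
  es V p = es (V.erase l) p + X l * es (V.erase l) (p - 1) ∧
  pderiv l (es V p) = es (V.erase l) (p - 1) ∧
  pderiv l (es (V.erase l) p) = 0 ∧
  (∀ j ∈ V.erase l, es (V.erase l) (p - 1) - es (V.erase j) (p - 1) =
    (X j - X l) * es ((V.erase l).erase j) (p - 2)) ∧
  ∑ j ∈ V.erase l, X j * es ((V.erase l).erase j) (p - 2) =
    C ((p : ℝ) - 1) * es (V.erase l) (p - 1)

/-- the Toeplitz minors of the elementary symmetric polynomials -/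
noncomputable def DD (V : Finset ℕ) (r k : ℕ) : MvPolynomial ℕ ℝ :=
  (Matrix.of fun i j : Fin r => es V ((k : ℤ) - ((i : ℕ) : ℤ) + ((j : ℕ) : ℤ))).det

/-- C05: Muirhead's equation for the minors. -/
def C05_muirD : Prop := ∀ (V : Finset ℕ) (l r k : ℕ), l ∈ V → Muir V l r k (DD V r k)

open MvPolynomial in
/-- C06: uniqueness. -/
def C06_uniq : Prop := ∀ (V : Finset ℕ) (l r k : ℕ) (P : MvPolynomial ℕ ℝ), l ∈ V → k < V.card →
  Muir V l r k P → degreeOf l P ≤ r → X l ∣ P → P = 0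

open MvPolynomial in
/-- C07: restriction to `X l = 0`, and degrees. -/
def C07_restr : Prop := ∀ (V : Finset ℕ) (l : ℕ), l ∈ V →
  (∀ n k : ℕ, aeval (fun i => if i = l then (0 : MvPolynomial ℕ ℝ) else X i) (TT V n k) =
    TT (V.erase l) n k) ∧
  (∀ r k : ℕ, aeval (fun i => if i = l then (0 : MvPolynomial ℕ ℝ) else X i) (DD V r k) =
    DD (V.erase l) r k) ∧
  (∀ n k : ℕ, degreeOf l (TT V n k) ≤ n + 1) ∧
  (∀ r k : ℕ, degreeOf l (DD V r k) ≤ r) ∧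
  (∀ P : MvPolynomial ℕ ℝ, aeval (fun i => if i = l then (0 : MvPolynomial ℕ ℝ) else X i) P = 0 →
    X l ∣ P)

/-- C08: the case `k ≥ |V|`. -/
def C08_edge : Prop := ∀ (V : Finset ℕ) (n k : ℕ), V.card ≤ k → TT V n k = DD V (n + 1) k

/-- C09: the chain computes the minors. -/
def C09_eq : Prop := ∀ (V : Finset ℕ) (n k : ℕ), TT V n k = DD V (n + 1) k

/-- C10: the same with numbers. -/
def C10_num : Prop := ∀ (V : Finset ℕ) (θ : ℕ → ℝ) (n k : ℕ),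
  ∑ S ∈ V.powersetCard k, (∏ i ∈ S, θ i) * gg V θ n S =
    (Matrix.of fun i j : Fin (n + 1) =>
      if 0 ≤ (k : ℤ) - ((i : ℕ) : ℤ) + ((j : ℕ) : ℤ) then
        ∑ A ∈ V.powersetCard ((k : ℤ) - ((i : ℕ) : ℤ) + ((j : ℕ) : ℤ)).toNat, ∏ i ∈ A, θ i
      else 0).det

/-! ## Block D: the polynomial -/

/-- D01: a real-rooted polynomial with positive coefficients. -/
def D01_factor : Prop := ∀ p : Polynomial ℝ, (∀ k ≤ p.natDegree, 0 < p.coeff k) →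
  p.roots.card = p.natDegree → ∃ θ : ℕ → ℝ, (∀ i, 0 < θ i) ∧
    ∀ m : ℕ, p.coeff m = p.coeff 0 * ∑ A ∈ (range p.natDegree).powersetCard m, ∏ i ∈ A, θ i

/-- D02: real roots from the absence of zeros in the upper half-plane. -/
def D02_real : Prop := ∀ q : Polynomial ℝ, q ≠ 0 → (∀ k ≤ q.natDegree, 0 < q.coeff k) →
  (∀ z : ℂ, 0 < z.im → Polynomial.aeval z q ≠ 0) →
    q.roots.card = q.natDegree ∧ ∀ x ∈ q.roots, x < 0

end Pool.Agent.H576.FK
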