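import Pool.Agent.H576.FK.Stmts

/-! Task A03 (helper61): the recurrence. -/

set_option autoImplicit false

open scoped BigOperators
open Finset

namespace Pool.Agent.H576.FK

theorem A03 : A03_rec := by
  intro c hc U x y
  induction U using Finset.induction_on with
  | empty =>
    intro a b
    rw [Finset.sum_empty, Finset.card_empty, E_empty, E_empty, add_zero]
    have hca : c + a ≠ 0 := by
      have : (0 : ℝ) ≤ a := Nat.cast_nonneg a
      linarith
    by_cases h : a + 1 = b
    · subst h
      rw [if_pos rfl, if_pos (by omega)]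
      simp only [mu, Algebra.algebraMap_self, RingHom.id_apply]
      push_cast
      field_simp
      ring
    · rw [if_neg h]
      rcases Nat.eq_zero_or_pos b with hb | hb
      · subst hb
        simp
      · rw [if_neg (by omega)]
        simp
  | insert i U hi ih =>
    intro a b
    have hsum : ∑ j ∈ insert i U, (2 * x j * y j * E c ((insert i U).erase j) x y (a + 1) b
        + 2 * (y j) ^ 2 * E c ((insert i U).erase j) x y a b) =
        (2 * x i * y i * E c U x y (a + 1) b + 2 * (y i) ^ 2 * E c U x y a b) +
        ((x i) ^ 2 * (∑ j ∈ U, (2 * x j * y j * E c (U.erase j) x y (a + 1 + 1) b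
            + 2 * (y j) ^ 2 * E c (U.erase j) x y (a + 1) b)) +
          2 * x i * y i * (∑ j ∈ U, (2 * x j * y j * E c (U.erase j) x y (a + 1) b
            + 2 * (y j) ^ 2 * E c (U.erase j) x y a b)) +
          (y i) ^ 2 * (∑ j ∈ U, (2 * x j * y j * E c (U.erase j) x y (a + 1) (b + 1)
            + 2 * (y j) ^ 2 * E c (U.erase j) x y a (b + 1)))) := by
      rw [Finset.sum_insert hi, Finset.erase_insert hi]
      congr 1
      rw [Finset.mul_sum, Finset.mul_sum, Finset.mul_sum, ← Finset.sum_add_distrib,
        ← Finset.sum_add_distrib]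
      refine Finset.sum_congr rfl fun j hj => ?_
      have hij : i ≠ j := by
        rintro rfl
        exact hi hj
      have hij' : i ∉ U.erase j := fun h => hi (Finset.mem_of_mem_erase h)
      rw [Finset.erase_insert_of_ne hij, E_insert c (U.erase j) x y (a + 1) b i hij',
        E_insert c (U.erase j) x y a b i hij']
      ring
    rw [hsum, E_insert c U x y (a + 1) b i hi, Finset.card_insert_of_notMem hi]
    have h1 := ih (a + 1) b
    have h2 := ih a b
    have h3 := ih a (b + 1)
    rw [Nat.add_sub_cancel] at h3
    push_cast at h1 h2 h3 ⊢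
    rcases Nat.eq_zero_or_pos b with hb | hb
    · subst hb
      push_cast at h1 h2 h3 ⊢
      linear_combination (x i) ^ 2 * h1 + 2 * x i * y i * h2 + (y i) ^ 2 * h3
    · obtain ⟨b', rfl⟩ := Nat.exists_eq_succ_of_ne_zero hb.ne'
      rw [Nat.succ_eq_add_one] at h1 h2 h3 ⊢
      rw [Nat.add_sub_cancel] at h1 h2 ⊢
      rw [E_insert c U x y a b' i hi]
      push_cast at h1 h2 h3 ⊢
      linear_combination (x i) ^ 2 * h1 + 2 * x i * y i * h2 + (y i) ^ 2 * h3

end Pool.Agent.H576.FK
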