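import Pool.Agent.H576.FK.Stmts

/-!
# Fisk's conjecture: the edge case of balance (A04)
-/

set_option autoImplicit false

open scoped BigOperators
open Finset

namespace Pool.Agent.H576.FK

namespace TA04

theorem edge_zero (c : ℝ) (U : Finset ℕ) (x y : ℕ → ℝ) (a b : ℕ) (h : a + U.card < b) :
    E c U x y a b = 0 := by
  induction U using Finset.induction_on generalizing a b with
  | empty =>
    rw [E_empty, if_neg]
    simp only [Finset.card_empty, add_zero] at h
    omega
  | insert i U hi ih =>
    rw [Finset.card_insert_of_notMem hi] at h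
    rw [E_insert _ _ _ _ _ _ i hi, ih (a + 1) b (by omega), ih a b (by omega),
      ih a (b + 1) (by omega)]
    ring

theorem edge_top (c : ℝ) (U : Finset ℕ) (x y : ℕ → ℝ) (a b : ℕ) (h : b = a + U.card) :
    E c U x y a b = mu c b * ∏ i ∈ U, (x i) ^ 2 := by
  induction U using Finset.induction_on generalizing a b with
  | empty =>
    rw [E_empty, if_pos]
    · simp only [Finset.card_empty, add_zero] at h
      subst h
      simp
    · simp only [Finset.card_empty, add_zero] at h
      exact h.symm
  | insert i U hi ih =>
    rw [Finset.card_insert_of_notMem hi] at h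
    rw [E_insert _ _ _ _ _ _ i hi, ih (a + 1) b (by omega), edge_zero c U x y a b (by omega),
      edge_zero c U x y a (b + 1) (by omega), Finset.prod_insert hi]
    ring

theorem edge_strip (c : ℝ) (W Z : Finset ℕ) (x y : ℕ → ℝ) (a b : ℕ)
    (hd : Disjoint Z W) (hx : ∀ i ∈ Z, x i = 0) :
    E c (Z ∪ W) x y a b = (∏ i ∈ Z, (y i) ^ 2) * E c W x y a (b + Z.card) := by
  induction Z using Finset.induction_on generalizing b with
  | empty => simp
  | insert i Z hi ih =>
    have hd' := Finset.disjoint_insert_left.1 hd
    have hni : i ∉ Z ∪ W := by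
      rw [Finset.mem_union]
      rintro (h | h)
      · exact hi h
      · exact hd'.1 h
    have hx0 : x i = 0 := hx i (Finset.mem_insert_self i Z)
    have hx' : ∀ j ∈ Z, x j = 0 := fun j hj => hx j (Finset.mem_insert_of_mem hj)
    rw [Finset.insert_union, E_insert _ _ _ _ _ _ i hni, hx0, ih (b + 1) hd'.2 hx',
      Finset.prod_insert hi, Finset.card_insert_of_notMem hi]
    have e : b + 1 + Z.card = b + (Z.card + 1) := by ring
    rw [e]
    ring

end TA04

theorem A04 : A04_edge := by
  intro c hc U x y hxy hcard
  set Z := U.filter (fun i => x i = 0) with hZ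
  set W := U.filter (fun i => ¬ x i = 0) with hW
  have hU : Z ∪ W = U := Finset.filter_union_filter_not_eq (fun i => x i = 0) U
  have hd : Disjoint Z W := Finset.disjoint_filter_filter_not U U (fun i => x i = 0)
  have hsum : Z.card + W.card = U.card := by
    rw [← hU, Finset.card_union_of_disjoint hd]
  have hWZ : W.card = Z.card := by omega
  rw [← hU, TA04.edge_strip c W Z x y 0 0 hd (fun i hi => (Finset.mem_filter.1 hi).2),
    TA04.edge_top c W x y 0 (0 + Z.card) (by omega)]
  apply mul_ne_zero
  · apply Finset.prod_ne_zero_iff.2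
    intro i hi
    have h1 := Finset.mem_filter.1 hi
    rcases hxy i h1.1 with h2 | h2
    · exact absurd h1.2 h2
    · exact pow_ne_zero 2 h2
  · apply mul_ne_zero
    · exact (mu_pos c (by linarith) _).ne'
    · apply Finset.prod_ne_zero_iff.2
      intro i hi
      exact pow_ne_zero 2 (Finset.mem_filter.1 hi).2

end Pool.Agent.H576.FK
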