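import Pool.Agent.H576.FK.Stmts

/-!
# Fisk's conjecture: task A05, sum of the derivatives
-/

set_option autoImplicit false

open scoped BigOperators
open Finset

namespace Pool.Agent.H576.FK

theorem A05 (h : A03_rec) : A05_sum := by
  intro c hc U x y
  have h1 := h c hc U x y 0 0
  have h2 := h c hc U y x 0 0
  simp only [Nat.cast_zero, mul_zero, zero_mul, zero_add, add_zero] at h1 h2
  rw [E_swap c U y x 1 0] at h2
  have h3 : ∑ i ∈ U, (2 * y i * x i * E c (U.erase i) y x 1 0
        + 2 * (x i) ^ 2 * E c (U.erase i) y x 0 0) =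
      ∑ i ∈ U, (2 * x i * y i * E c (U.erase i) x y 0 1
        + 2 * (x i) ^ 2 * E c (U.erase i) x y 0 0) := by
    refine Finset.sum_congr rfl fun i _ => ?_
    rw [E_swap c (U.erase i) y x 1 0, E_swap c (U.erase i) y x 0 0]
    ring
  rw [h3] at h2
  rw [mul_sub, h1, h2, ← Finset.sum_sub_distrib]
  refine Finset.sum_congr rfl fun i _ => ?_
  unfold Dr
  ring

end Pool.Agent.H576.FK
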