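import Mathlib
import Pool.Agent.H576.FK.Stmts

/-!
# Task A06: base case of the homotopy (`c = 1`), by the theorem of Gauss and Lucas
-/

set_option autoImplicit false

open scoped BigOperators
open Finset

namespace Pool.Agent.H576.FK

namespace TA06

open Polynomial

theorem mu_one (j : ℕ) : mu 1 j = 1 := by
  induction j with
  | zero => rfl
  | succ j ih =>
    rw [mu, ih, one_mul, add_comm (1:ℝ) j]
    have : (j : ℝ) + 1 ≠ 0 := by positivity
    exact div_self this

/-- the polynomial `∏ (x_i t + y_i)^2` -/
noncomputable def PP (U : Finset ℕ) (x y : ℕ → ℂ) : ℂ[X] := ∏ i ∈ U, (C (x i) * X + C (y i)) ^ 2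

theorem E_coeff (U : Finset ℕ) (x y : ℕ → ℂ) (a b : ℕ) :
    E 1 U x y a b = (X ^ a * PP U x y).coeff (U.card + b) := by
  induction U using Finset.induction_on generalizing a b with
  | empty =>
    rw [E_empty]
    simp only [PP, Finset.prod_empty, mul_one, Finset.card_empty, zero_add, coeff_X_pow, mu_one,
      map_one]
    by_cases h : a = b
    · simp [h]
    · rw [if_neg h, if_neg (fun h' => h h'.symm)]
  | insert i U hi ih =>
    rw [E_insert _ _ _ _ _ _ i hi, ih, ih, ih, Finset.card_insert_of_notMem hi]
    have e : (X ^ a * PP (insert i U) x y : ℂ[X]) =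
        C ((x i) ^ 2) * (X * (X ^ (a + 1) * PP U x y)) + C (2 * x i * y i) * (X * (X ^ a * PP U x y))
          + C ((y i) ^ 2) * (X ^ a * PP U x y) := by
      unfold PP
      rw [Finset.prod_insert hi]
      simp only [map_mul, map_pow, map_ofNat]
      ring
    rw [e]
    have e2 : U.card + 1 + b = (U.card + b) + 1 := by ring
    rw [e2]
    simp only [coeff_add, coeff_C_mul, coeff_X_mul]
    rw [show U.card + b + 1 = U.card + (b + 1) by ring]

theorem iter_roots (P : ℂ[X]) (hP : ∀ z, P.eval z = 0 → 0 < z.im) (hP0 : P ≠ 0) (k : ℕ)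
    (hk : k ≤ P.natDegree) :
    (derivative^[k] P) ≠ 0 ∧ (derivative^[k] P).natDegree = P.natDegree - k ∧
      ∀ z, (derivative^[k] P).eval z = 0 → 0 < z.im := by
  induction k with
  | zero => exact ⟨hP0, by simp, hP⟩
  | succ k ih =>
    obtain ⟨h1, h2, h3⟩ := ih (by omega)
    rw [Function.iterate_succ_apply']
    set Q := derivative^[k] P with hQ
    have hd : 0 < Q.natDegree := by omega
    have hdeg : 0 < Q.degree := natDegree_pos_iff_degree_pos.mp hd
    have hne : derivative Q ≠ 0 := by
      intro h
      have := derivative_eq_zero.mp h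
      omega
    refine ⟨hne, ?_, ?_⟩
    · rw [natDegree_derivative, h2]; omega
    · intro z hz
      have hz' : z ∈ (derivative Q).rootSet ℂ := by
        rw [mem_rootSet]
        exact ⟨hne, by simpa using hz⟩
      have h4 := rootSet_derivative_subset_convexHull_rootSet hdeg hz'
      have h5 : convexHull ℝ (Q.rootSet ℂ) ⊆ {w : ℂ | 0 < w.im} := by
        apply convexHull_min _ (convex_halfSpace_im_gt 0)
        intro w hw
        rw [mem_rootSet] at hw
        exact h3 w (by simpa using hw.2)
      exact h5 h4

end TA06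

open TA06 Polynomial in
theorem A06 : A06_base := by
  intro U x y hc
  have hx : ∀ i ∈ U, x i ≠ 0 := by
    intro i hi h
    have := hc i hi
    rw [h] at this
    simp at this
  have hfac : ∀ i ∈ U, (C (x i) * X + C (y i) : ℂ[X]) ≠ 0 := by
    intro i hi h
    have := natDegree_linear (b := y i) (hx i hi)
    rw [h] at this
    simp at this
  have hP0 : PP U x y ≠ 0 := by
    unfold PP
    rw [Finset.prod_ne_zero_iff]
    exact fun i hi => pow_ne_zero 2 (hfac i hi)
  have hdeg : (PP U x y).natDegree = 2 * U.card := by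
    unfold PP
    rw [natDegree_prod _ _ (fun i hi => pow_ne_zero 2 (hfac i hi))]
    rw [Finset.sum_congr rfl (g := fun _ => 2)]
    · simp [mul_comm]
    · intro i hi
      rw [natDegree_pow, natDegree_linear (hx i hi)]
  have hroots : ∀ z, (PP U x y).eval z = 0 → 0 < z.im := by
    intro z hz
    unfold PP at hz
    rw [eval_prod, Finset.prod_eq_zero_iff] at hz
    obtain ⟨i, hi, hz⟩ := hz
    simp only [eval_pow, eval_add, eval_mul, eval_C, eval_X, pow_eq_zero_iff, ne_eq,
      OfNat.ofNat_ne_zero, not_false_eq_true] at hz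
    have h1 := hc i hi
    have hy : y i = -(x i * z) := by linear_combination hz
    rw [hy] at h1
    have h2 : (x i * (starRingEnd ℂ) (-(x i * z))).im = Complex.normSq (x i) * z.im := by
      simp [Complex.mul_im, Complex.mul_re, Complex.normSq_apply]
      ring
    rw [h2] at h1
    have h3 : 0 < Complex.normSq (x i) := Complex.normSq_pos.mpr (hx i hi)
    exact (pos_iff_pos_of_mul_pos h1).mp h3
  obtain ⟨_, _, h3⟩ := iter_roots (PP U x y) hroots hP0 U.card (by omega)
  rw [E_coeff]
  simp only [pow_zero, one_mul, add_zero]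
  intro h0
  have h4 : (derivative^[U.card] (PP U x y)).eval 0 = 0 := by
    rw [← coeff_zero_eq_eval_zero, coeff_iterate_derivative, zero_add, h0, smul_zero]
  have := h3 0 h4
  simp at this

end Pool.Agent.H576.FK
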