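import Pool.Agent.H576.FK.Stmts

set_option autoImplicit false

namespace Pool.Agent.H576.FK

namespace TA07

theorem fac (s z r : ℂ) (hz : 0 < z.im) (hr : r.im ≤ 0) :
    ‖s - r‖ ≤ (1 + ‖s - z‖ / z.im) * ‖z - r‖ := by
  have h1 : ‖s - r‖ ≤ ‖s - z‖ + ‖z - r‖ := by
    have := norm_add_le (s - z) (z - r)
    rwa [sub_add_sub_cancel] at this
  have h2 : z.im ≤ ‖z - r‖ := by
    have h3 := Complex.abs_im_le_norm (z - r)
    have h4 := le_abs_self (z - r).im
    rw [Complex.sub_im] at h3 h4
    linarith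
  have h3 : ‖s - z‖ ≤ ‖s - z‖ / z.im * ‖z - r‖ := by
    rw [div_mul_eq_mul_div, le_div_iff₀ hz]
    exact mul_le_mul_of_nonneg_left h2 (norm_nonneg _)
  linarith

end TA07

open TA07 in
/-- A07: one variable Harnack inequality for quadratics. -/
theorem A07 : A07_quad := by
  intro A B C h s z hz
  set K : ℝ := 1 + ‖s - z‖ / z.im with hK
  have hK1 : 1 ≤ K := by
    have : 0 ≤ ‖s - z‖ / z.im := by positivity
    linarith
  have hK2 : K ≤ K ^ 2 := by nlinarith
  by_cases hC : C = 0
  · subst hC
    by_cases hB : B = 0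
    · subst hB
      simp only [zero_mul, add_zero]
      nlinarith [norm_nonneg A]
    · have e : ∀ t : ℂ, A + B * t + 0 * t ^ 2 = B * (t - (-A / B)) := by
        intro t
        field_simp
        ring
      have hr : (-A / B).im ≤ 0 := by
        by_contra hcon
        push Not at hcon
        apply h _ hcon
        rw [e]
        ring
      rw [e, e, norm_mul, norm_mul]
      have h1 := fac s z _ hz hr
      have h2 : (0:ℝ) ≤ ‖z - -A / B‖ := norm_nonneg _
      calc ‖B‖ * ‖s - -A / B‖ ≤ ‖B‖ * (K * ‖z - -A / B‖) :=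
            mul_le_mul_of_nonneg_left h1 (norm_nonneg _)
        _ ≤ ‖B‖ * (K ^ 2 * ‖z - -A / B‖) :=
            mul_le_mul_of_nonneg_left (mul_le_mul_of_nonneg_right hK2 h2) (norm_nonneg _)
        _ = _ := by ring
  · obtain ⟨w, hw⟩ := IsAlgClosed.exists_pow_nat_eq (B ^ 2 - 4 * A * C) (n := 2) (by norm_num)
    have e : ∀ t : ℂ, A + B * t + C * t ^ 2 =
        C * ((t - (-B + w) / (2 * C)) * (t - (-B - w) / (2 * C))) := by
      intro t
      field_simp
      linear_combination hw
    have hr1 : ((-B + w) / (2 * C)).im ≤ 0 := by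
      by_contra hcon
      push Not at hcon
      apply h _ hcon
      rw [e]
      ring
    have hr2 : ((-B - w) / (2 * C)).im ≤ 0 := by
      by_contra hcon
      push Not at hcon
      apply h _ hcon
      rw [e]
      ring
    rw [e, e, norm_mul, norm_mul, norm_mul, norm_mul]
    have h1 := fac s z _ hz hr1
    have h2 := fac s z _ hz hr2
    calc ‖C‖ * (‖s - (-B + w) / (2 * C)‖ * ‖s - (-B - w) / (2 * C)‖)
        ≤ ‖C‖ * ((K * ‖z - (-B + w) / (2 * C)‖) * (K * ‖z - (-B - w) / (2 * C)‖)) := by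
          apply mul_le_mul_of_nonneg_left _ (norm_nonneg _)
          exact mul_le_mul h1 h2 (norm_nonneg _) (by positivity)
      _ = _ := by ring

end Pool.Agent.H576.FK
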