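import Pool.Agent.H576.FK.Stmts

/-!
# A08: Harnack inequality in one site, the other sites being in the closed cone
-/

set_option autoImplicit false

open scoped BigOperators
open Finset

namespace Pool.Agent.H576.FK

namespace TA08

theorem Qf_expand (c : ℝ) (U : Finset ℕ) (x y : ℕ → ℂ) (j : ℕ) (p q t : ℂ) :
    Qf c U x y j (p + t * q) (q - t * p) =
      (p ^ 2 * E c (U.erase j) x y 1 0 + 2 * p * q * E c (U.erase j) x y 0 0
        + q ^ 2 * E c (U.erase j) x y 0 1)
      + (2 * p * q * E c (U.erase j) x y 1 0 + 2 * (q ^ 2 - p ^ 2) * E c (U.erase j) x y 0 0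
        - 2 * p * q * E c (U.erase j) x y 0 1) * t
      + (q ^ 2 * E c (U.erase j) x y 1 0 - 2 * p * q * E c (U.erase j) x y 0 0
        + p ^ 2 * E c (U.erase j) x y 0 1) * t ^ 2 := by
  unfold Qf
  ring

theorem Qf_eq_E (c : ℝ) (U : Finset ℕ) (x y : ℕ → ℂ) (j : ℕ) (hj : j ∈ U) (X Y : ℂ) :
    Qf c U x y j X Y = E c U (Function.update x j X) (Function.update y j Y) 0 0 := by
  have hcongr : ∀ a b : ℕ, E c (U.erase j) (Function.update x j X) (Function.update y j Y) a b =
      E c (U.erase j) x y a b := by
    intro a b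
    apply E_congr
    intro i hi
    have hij : i ≠ j := Finset.ne_of_mem_erase hi
    rw [Function.update_of_ne hij, Function.update_of_ne hij]
    exact ⟨rfl, rfl⟩
  rw [E_erase c U _ _ 0 0 j hj, hcongr, hcongr, hcongr, Function.update_self, Function.update_self]
  rfl

theorem im_real (p q : ℝ) (t : ℂ) :
    (((p : ℂ) + t * q) * (starRingEnd ℂ) ((q : ℂ) - t * p)).im = t.im * (p ^ 2 + q ^ 2) := by
  simp [Complex.mul_im, Complex.add_re, Complex.add_im, Complex.sub_re, Complex.sub_im,
    Complex.mul_re]
  ring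

theorem open_case (h7 : A07_quad) (c : ℝ) (U : Finset ℕ) (hS : Stab c U) (j : ℕ) (hj : j ∈ U)
    (x y : ℕ → ℂ) (hc : Cone (U.erase j) x y) (p q : ℝ) (hpq : p ≠ 0 ∨ q ≠ 0) (s z : ℂ)
    (hz : 0 < z.im) :
    ‖Qf c U x y j (p + s * q) (q - s * p)‖ ≤
      (1 + ‖s - z‖ / z.im) ^ 2 * ‖Qf c U x y j (p + z * q) (q - z * p)‖ := by
  rw [Qf_expand, Qf_expand]
  apply h7 _ _ _ _ s z hz
  intro t ht
  rw [← Qf_expand, Qf_eq_E c U x y j hj]
  apply hS
  intro i hi
  by_cases hij : i = j
  · subst hij
    rw [Function.update_self, Function.update_self, im_real]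
    have : 0 < p ^ 2 + q ^ 2 := by
      rcases hpq with h | h
      · have := pow_pos (abs_pos.2 h) 2
        rw [sq_abs] at this
        positivity
      · have := pow_pos (abs_pos.2 h) 2
        rw [sq_abs] at this
        positivity
    positivity
  · rw [Function.update_of_ne hij, Function.update_of_ne hij]
    exact hc i (Finset.mem_erase.2 ⟨hij, hi⟩)

theorem im_pert (x y : ℂ) (e : ℝ) :
    ((x + Complex.I * e * y) * (starRingEnd ℂ) (y - Complex.I * e * x)).im =
      (1 + e ^ 2) * (x * (starRingEnd ℂ) y).im + e * (Complex.normSq x + Complex.normSq y) := by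
  simp [Complex.mul_im, Complex.add_re, Complex.add_im, Complex.mul_re, Complex.normSq_apply]
  ring

theorem E_cont (c : ℝ) (W : Finset ℕ) (x y : ℕ → ℂ) (a b : ℕ) :
    Continuous (fun e : ℝ => E c W (fun i => x i + Complex.I * e * y i)
      (fun i => y i - Complex.I * e * x i) a b) := by
  induction W using Finset.induction_on generalizing a b with
  | empty => simp only [E_empty]; exact continuous_const
  | insert i W hi ih =>
    have : (fun e : ℝ => E c (insert i W) (fun i => x i + Complex.I * e * y i)
        (fun i => y i - Complex.I * e * x i) a b) = fun e : ℝ =>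
          (x i + Complex.I * e * y i) ^ 2 * E c W (fun i => x i + Complex.I * e * y i)
            (fun i => y i - Complex.I * e * x i) (a + 1) b
          + 2 * (x i + Complex.I * e * y i) * (y i - Complex.I * e * x i) *
            E c W (fun i => x i + Complex.I * e * y i) (fun i => y i - Complex.I * e * x i) a b
          + (y i - Complex.I * e * x i) ^ 2 * E c W (fun i => x i + Complex.I * e * y i)
            (fun i => y i - Complex.I * e * x i) a (b + 1) := by
      funext e
      rw [E_insert _ _ _ _ _ _ i hi]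
    rw [this]
    have h1 := ih (a + 1) b
    have h2 := ih a b
    have h3 := ih a (b + 1)
    have hX : Continuous (fun e : ℝ => x i + Complex.I * (e : ℂ) * y i) := by fun_prop
    have hY : Continuous (fun e : ℝ => y i - Complex.I * (e : ℂ) * x i) := by fun_prop
    exact (((hX.pow 2).mul h1).add (((continuous_const.mul hX).mul hY).mul h2)).add
      ((hY.pow 2).mul h3)

theorem Qf_cont (c : ℝ) (U : Finset ℕ) (x y : ℕ → ℂ) (j : ℕ) (X Y : ℂ) :
    Continuous (fun e : ℝ => Qf c U (fun i => x i + Complex.I * e * y i)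
      (fun i => y i - Complex.I * e * x i) j X Y) := by
  unfold Qf
  have h1 := E_cont c (U.erase j) x y 1 0
  have h2 := E_cont c (U.erase j) x y 0 0
  have h3 := E_cont c (U.erase j) x y 0 1
  exact ((continuous_const.mul h1).add (continuous_const.mul h2)).add (continuous_const.mul h3)

end TA08

theorem A08 (h7 : A07_quad) : A08_H1 := by
  intro c U hS j hj x y hc p q hpq s z hz
  have h1 : Filter.Tendsto (fun e : ℝ => ‖Qf c U (fun i => x i + Complex.I * e * y i)
      (fun i => y i - Complex.I * e * x i) j (p + s * q) (q - s * p)‖)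
      (nhdsWithin 0 (Set.Ioi 0)) (nhds ‖Qf c U x y j (p + s * q) (q - s * p)‖) := by
    have h := ((TA08.Qf_cont c U x y j (p + s * q) (q - s * p)).norm.tendsto 0)
    have e0 : ‖Qf c U (fun i => x i + Complex.I * ((0 : ℝ) : ℂ) * y i)
      (fun i => y i - Complex.I * ((0 : ℝ) : ℂ) * x i) j (p + s * q) (q - s * p)‖ =
      ‖Qf c U x y j (p + s * q) (q - s * p)‖ := by
      simp
    rw [e0] at h
    exact h.mono_left nhdsWithin_le_nhds
  have h2 : Filter.Tendsto (fun e : ℝ => (1 + ‖s - z‖ / z.im) ^ 2 *
      ‖Qf c U (fun i => x i + Complex.I * e * y i)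
      (fun i => y i - Complex.I * e * x i) j (p + z * q) (q - z * p)‖)
      (nhdsWithin 0 (Set.Ioi 0)) (nhds ((1 + ‖s - z‖ / z.im) ^ 2 *
        ‖Qf c U x y j (p + z * q) (q - z * p)‖)) := by
    have h := ((TA08.Qf_cont c U x y j (p + z * q) (q - z * p)).norm.tendsto 0)
    have e0 : ‖Qf c U (fun i => x i + Complex.I * ((0 : ℝ) : ℂ) * y i)
      (fun i => y i - Complex.I * ((0 : ℝ) : ℂ) * x i) j (p + z * q) (q - z * p)‖ =
      ‖Qf c U x y j (p + z * q) (q - z * p)‖ := by
      simp
    rw [e0] at h
    exact (h.mono_left nhdsWithin_le_nhds).const_mul _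
  apply le_of_tendsto_of_tendsto h1 h2
  filter_upwards [self_mem_nhdsWithin] with e he
  have he' : 0 < e := he
  apply TA08.open_case h7 c U hS j hj _ _ _ p q hpq s z hz
  intro i hi
  rw [TA08.im_pert]
  obtain ⟨hne, him⟩ := hc i hi
  have h3 : 0 < Complex.normSq (x i) + Complex.normSq (y i) := by
    rcases hne with h | h
    · have := Complex.normSq_pos.2 h
      have := Complex.normSq_nonneg (y i)
      linarith
    · have := Complex.normSq_pos.2 h
      have := Complex.normSq_nonneg (x i)
      linarith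
  positivity

end Pool.Agent.H576.FK
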