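import Mathlib
import Pool.Agent.H576.FK.Stmts

/-! Task A09a (helper218): the two variable sign lemma. -/

set_option autoImplicit false

open scoped BigOperators
open Finset

namespace Pool.Agent.H576.FK

namespace TA09a

/-- the constant -/
noncomputable def K (s1 s2 z1 z2 : ℂ) : ℝ :=
  (1 + ‖s1 - z1‖ / z1.im) ^ 2 * (1 + ‖s2 - z2‖ / z2.im) ^ 2

theorem scale {e : ℝ} (he : 0 < e) (s z : ℂ) :
    ‖(e : ℂ) * s - (e : ℂ) * z‖ / ((e : ℂ) * z).im = ‖s - z‖ / z.im := by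
  rw [← mul_sub, norm_mul, Complex.norm_real, Real.norm_of_nonneg he.le, Complex.im_ofReal_mul]
  exact mul_div_mul_left _ _ he.ne'

theorem K_scale {e d : ℝ} (he : 0 < e) (hd : 0 < d) (s1 s2 z1 z2 : ℂ) :
    K (e * s1) (d * s2) (e * z1) (d * z2) = K s1 s2 z1 z2 := by
  unfold K
  rw [scale he, scale hd]

/-- passing to the leading form under scaling -/
theorem lim {F : ℂ → ℂ → ℂ} (H : ∀ s1 s2 z1 z2 : ℂ, 0 < s1.im → 0 < s2.im → 0 < z1.im → 0 < z2.im →
    ‖F s1 s2‖ ≤ K s1 s2 z1 z2 * ‖F z1 z2‖) (i j k : ℕ) (R : ℝ → ℂ → ℂ → ℂ)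
    (hR : ∀ s1 s2 : ℂ, Continuous fun e : ℝ => R e s1 s2)
    (hF : ∀ (e : ℝ) (s1 s2 : ℂ), F ((e ^ i : ℝ) * s1) ((e ^ j : ℝ) * s2) = (e ^ k : ℝ) * R e s1 s2) :
    ∀ s1 s2 z1 z2 : ℂ, 0 < s1.im → 0 < s2.im → 0 < z1.im → 0 < z2.im →
    ‖R 0 s1 s2‖ ≤ K s1 s2 z1 z2 * ‖R 0 z1 z2‖ := by
  intro s1 s2 z1 z2 h1 h2 h3 h4
  have hev : ∀ e : ℝ, 0 < e → ‖R e s1 s2‖ ≤ K s1 s2 z1 z2 * ‖R e z1 z2‖ := by
    intro e he
    have hi : 0 < e ^ i := pow_pos he i
    have hj : 0 < e ^ j := pow_pos he j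
    have hk : 0 < e ^ k := pow_pos he k
    have h := H ((e ^ i : ℝ) * s1) ((e ^ j : ℝ) * s2) ((e ^ i : ℝ) * z1) ((e ^ j : ℝ) * z2)
      (by rw [Complex.im_ofReal_mul]; positivity) (by rw [Complex.im_ofReal_mul]; positivity)
      (by rw [Complex.im_ofReal_mul]; positivity) (by rw [Complex.im_ofReal_mul]; positivity)
    rw [K_scale hi hj, hF, hF, norm_mul, norm_mul, Complex.norm_real, Real.norm_of_nonneg hk.le] at h
    have h5 : e ^ k * ‖R e s1 s2‖ ≤ e ^ k * (K s1 s2 z1 z2 * ‖R e z1 z2‖) := by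
      calc e ^ k * ‖R e s1 s2‖ ≤ K s1 s2 z1 z2 * (e ^ k * ‖R e z1 z2‖) := h
        _ = e ^ k * (K s1 s2 z1 z2 * ‖R e z1 z2‖) := by ring
    exact le_of_mul_le_mul_left h5 hk
  have t1 : Filter.Tendsto (fun e : ℝ => ‖R e s1 s2‖) (nhdsWithin 0 (Set.Ioi 0))
      (nhds ‖R 0 s1 s2‖) := ((hR s1 s2).norm.tendsto 0).mono_left nhdsWithin_le_nhds
  have t2 : Filter.Tendsto (fun e : ℝ => K s1 s2 z1 z2 * ‖R e z1 z2‖) (nhdsWithin 0 (Set.Ioi 0))
      (nhds (K s1 s2 z1 z2 * ‖R 0 z1 z2‖)) :=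
    ((continuous_const.mul (hR z1 z2).norm).tendsto 0).mono_left nhdsWithin_le_nhds
  refine le_of_tendsto_of_tendsto t1 t2 ?_
  filter_upwards [self_mem_nhdsWithin] with e he
  exact hev e he

theorem zero_of {G : ℂ → ℂ → ℂ} (H : ∀ s1 s2 z1 z2 : ℂ, 0 < s1.im → 0 < s2.im → 0 < z1.im →
    0 < z2.im → ‖G s1 s2‖ ≤ K s1 s2 z1 z2 * ‖G z1 z2‖) {z1 z2 : ℂ} (h1 : 0 < z1.im)
    (h2 : 0 < z2.im) (h : G z1 z2 = 0) : ∀ s1 s2 : ℂ, 0 < s1.im → 0 < s2.im → G s1 s2 = 0 := by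
  intro s1 s2 h3 h4
  have h5 := H s1 s2 z1 z2 h3 h4 h1 h2
  rw [h, norm_zero, mul_zero] at h5
  exact norm_le_zero_iff.1 h5

/-- a root with positive real part -/
theorem root (p t : ℝ) (h : p < 0 ∨ t < 0) : ∃ r : ℂ, r ^ 2 + p * r + t = 0 ∧ 0 < r.re := by
  by_cases hD : 0 ≤ p ^ 2 - 4 * t
  · have hs := Real.sq_sqrt hD
    have hs0 := Real.sqrt_nonneg (p ^ 2 - 4 * t)
    refine ⟨(((-p + Real.sqrt (p ^ 2 - 4 * t)) / 2 : ℝ) : ℂ), ?_, ?_⟩
    · have h1 : ((-p + Real.sqrt (p ^ 2 - 4 * t)) / 2) ^ 2 +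
          p * ((-p + Real.sqrt (p ^ 2 - 4 * t)) / 2) + t = 0 := by
        linear_combination hs / 4
      exact_mod_cast h1
    · rw [Complex.ofReal_re]
      rcases h with h | h
      · linarith
      · have : p < Real.sqrt (p ^ 2 - 4 * t) := by
          by_contra hc
          push Not at hc
          nlinarith
        linarith
  · push Not at hD
    obtain ⟨s, hs⟩ : ∃ s : ℝ, s ^ 2 = 4 * t - p ^ 2 := ⟨_, Real.sq_sqrt (by linarith)⟩
    refine ⟨⟨-p / 2, s / 2⟩, ?_, ?_⟩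
    · apply Complex.ext
      · simp [pow_two]
        linear_combination -hs / 4
      · simp [pow_two]
        ring
    · show 0 < -p / 2
      rcases h with h | h
      · linarith
      · nlinarith [sq_nonneg p]

end TA09a

open TA09a in
theorem A09a : A09a_two := by
  intro f10 f01 f20 f11 f02 f21 f12 f22 H
  have H' : ∀ s1 s2 z1 z2 : ℂ, 0 < s1.im → 0 < s2.im → 0 < z1.im → 0 < z2.im →
    ‖Bq f10 f01 f20 f11 f02 f21 f12 f22 s1 s2‖ ≤
      K s1 s2 z1 z2 * ‖Bq f10 f01 f20 f11 f02 f21 f12 f22 z1 z2‖ := H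
  clear H
  have hI : 0 < Complex.I.im := by simp
  have h2I : 0 < (2 * Complex.I).im := by simp
  refine ⟨?_, ?_, ?_⟩
  · by_contra hc
    push Not at hc
    have H1 := lim H' 1 1 1 (fun e s1 s2 => f10 * s1 + f01 * s2 + (e : ℂ) * (f20 * s1 ^ 2 +
        f11 * (s1 * s2) + f02 * s2 ^ 2) + (e : ℂ) ^ 2 * (f21 * (s1 ^ 2 * s2) + f12 * (s1 * s2 ^ 2)) +
        (e : ℂ) ^ 3 * (f22 * (s1 ^ 2 * s2 ^ 2)))
      (fun s1 s2 => by fun_prop)
      (fun e s1 s2 => by unfold Bq; push_cast; ring)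
    have h0 := zero_of (G := fun s1 s2 => f10 * s1 + f01 * s2) (by
      intro s1 s2 z1 z2 h1 h2 h3 h4
      have := H1 s1 s2 z1 z2 h1 h2 h3 h4
      simpa using this) (z1 := |f01| * Complex.I) (z2 := |f10| * Complex.I)
      (by
        have : f01 ≠ 0 := by rintro rfl; simp at hc
        rw [Complex.im_ofReal_mul]; simpa using this)
      (by
        have : f10 ≠ 0 := by rintro rfl; simp at hc
        rw [Complex.im_ofReal_mul]; simpa using this)
      (by
        have h1 : f10 * |f01| + f01 * |f10| = 0 := by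
          rcases lt_or_ge f10 0 with h | h
          · have h2 : 0 < f01 := by
              by_contra h3; push Not at h3; nlinarith
            rw [abs_of_pos h2, abs_of_neg h]; ring
          · have h2 : f01 < 0 := by
              by_contra h3; push Not at h3; nlinarith
            rw [abs_of_neg h2, abs_of_nonneg h]; ring
        have h2 : (f10 : ℂ) * (|f01| : ℝ) + f01 * (|f10| : ℝ) = 0 := by exact_mod_cast h1
        linear_combination Complex.I * h2)
    have e1 := congrArg Complex.im (h0 _ _ hI hI)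
    have e2 := congrArg Complex.im (h0 _ _ hI h2I)
    simp at e1 e2
    have : f01 = 0 := by linarith
    rw [this] at hc
    simp at hc
  · intro h10 h01
    by_contra hc
    subst h10
    have H1 := lim H' 1 2 2 (fun e s1 s2 => f01 * s2 + f20 * s1 ^ 2 + (e : ℂ) * (f11 * (s1 * s2))
        + (e : ℂ) ^ 2 * (f02 * s2 ^ 2 + f21 * (s1 ^ 2 * s2)) + (e : ℂ) ^ 3 * (f12 * (s1 * s2 ^ 2)) +
        (e : ℂ) ^ 4 * (f22 * (s1 ^ 2 * s2 ^ 2)))
      (fun s1 s2 => by fun_prop)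
      (fun e s1 s2 => by unfold Bq; push_cast; ring)
    have H2 : ∀ s1 s2 z1 z2 : ℂ, 0 < s1.im → 0 < s2.im → 0 < z1.im →
      0 < z2.im → ‖(fun s1 s2 : ℂ => f01 * s2 + f20 * s1 ^ 2) s1 s2‖ ≤ K s1 s2 z1 z2 *
        ‖(fun s1 s2 : ℂ => f01 * s2 + f20 * s1 ^ 2) z1 z2‖ := by
      intro s1 s2 z1 z2 h1 h2 h3 h4
      have := H1 s1 s2 z1 z2 h1 h2 h3 h4
      simpa using this
    have h01c : (f01 : ℂ) ≠ 0 := by exact_mod_cast h01
    have h0 : ∀ s1 s2 : ℂ, 0 < s1.im → 0 < s2.im →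
        (fun s1 s2 : ℂ => f01 * s2 + f20 * s1 ^ 2) s1 s2 = 0 := by
      rcases lt_trichotomy 0 (f20 / f01) with h | h | h
      · refine zero_of H2 (z1 := -1 + Complex.I) (z2 := ((2 * (f20 / f01) : ℝ) : ℂ) * Complex.I)
          (by simp) (by rw [Complex.im_ofReal_mul]; simpa using h) ?_
        have h3 : (-1 + Complex.I) ^ 2 = -2 * Complex.I := by
          linear_combination Complex.I_sq
        rw [h3]
        push_cast
        field_simp
        ring
      · exfalso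
        rcases div_eq_zero_iff.1 h.symm with h | h
        · exact hc h
        · exact h01 h
      · refine zero_of H2 (z1 := 1 + Complex.I) (z2 := ((-2 * (f20 / f01) : ℝ) : ℂ) * Complex.I)
          (by simp) (by rw [Complex.im_ofReal_mul]; simp; linarith) ?_
        have h3 : (1 + Complex.I) ^ 2 = 2 * Complex.I := by
          linear_combination Complex.I_sq
        rw [h3]
        push_cast
        field_simp
        ring
    have e1 := congrArg Complex.im (h0 _ _ hI hI)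
    simp at e1
    exact h01 e1
  · intro h10 h01
    subst h10
    subst h01
    by_contra hc
    have hc' : f20 * f11 < 0 ∨ f20 * f02 < 0 := by
      by_contra h
      push Not at h
      exact hc h
    have h20 : f20 ≠ 0 := by
      rintro rfl
      simp at hc'
    have H1 := lim H' 1 1 2 (fun e s1 s2 => (f20 * s1 ^ 2 +
        f11 * (s1 * s2) + f02 * s2 ^ 2) + (e : ℂ) * (f21 * (s1 ^ 2 * s2) + f12 * (s1 * s2 ^ 2)) +
        (e : ℂ) ^ 2 * (f22 * (s1 ^ 2 * s2 ^ 2)))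
      (fun s1 s2 => by fun_prop)
      (fun e s1 s2 => by unfold Bq; push_cast; ring)
    have H2 : ∀ s1 s2 z1 z2 : ℂ, 0 < s1.im → 0 < s2.im → 0 < z1.im →
      0 < z2.im → ‖(fun s1 s2 : ℂ => f20 * s1 ^ 2 + f11 * (s1 * s2) + f02 * s2 ^ 2) s1 s2‖ ≤
        K s1 s2 z1 z2 * ‖(fun s1 s2 : ℂ => f20 * s1 ^ 2 + f11 * (s1 * s2) + f02 * s2 ^ 2) z1 z2‖ := by
      intro s1 s2 z1 z2 h1 h2 h3 h4
      have := H1 s1 s2 z1 z2 h1 h2 h3 h4
      simpa using this
    obtain ⟨r, hr, hre⟩ := root (f11 / f20) (f02 / f20) (by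
      have hp : 0 < f20 ^ 2 := by positivity
      rcases hc' with h | h
      · left
        have : f11 / f20 = f20 * f11 / f20 ^ 2 := by field_simp
        rw [this]; exact div_neg_of_neg_of_pos h hp
      · right
        have : f02 / f20 = f20 * f02 / f20 ^ 2 := by field_simp
        rw [this]; exact div_neg_of_neg_of_pos h hp)
    have h20c : (f20 : ℂ) ≠ 0 := by exact_mod_cast h20
    have hr2 : (f20 : ℂ) * r ^ 2 + f11 * r + f02 = 0 := by
      push_cast at hr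
      field_simp at hr
      linear_combination hr
    have hrn : 0 < ‖r‖ := norm_pos_iff.2 (by rintro rfl; simp at hre)
    have hz2 : 0 < (Complex.I * ((starRingEnd ℂ) r + ‖r‖)).im := by
      simp; linarith
    have hz1 : 0 < (r * (Complex.I * ((starRingEnd ℂ) r + ‖r‖))).im := by
      have e : r * (Complex.I * ((starRingEnd ℂ) r + ‖r‖)) =
          Complex.I * (r * (starRingEnd ℂ) r + r * ‖r‖) := by ring
      rw [e, Complex.mul_conj]
      simp
      have := Complex.normSq_nonneg r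
      nlinarith
    have h0 := zero_of H2 hz1 hz2 (by
      linear_combination (Complex.I * ((starRingEnd ℂ) r + ‖r‖)) ^ 2 * hr2)
    have e1 := congrArg Complex.re (h0 _ _ hI hI)
    have e2 := congrArg Complex.re (h0 _ _ hI h2I)
    have e3 := congrArg Complex.re (h0 _ _ h2I hI)
    simp [pow_two] at e1 e2 e3
    exact h20 (by linarith)

end Pool.Agent.H576.FK
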