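import Mathlib
import Pool.Agent.H576.FK.Stmts

/-!
# Fisk's conjecture (MP_675d17_an, S03369): step A09b, sign information at a real zero
-/

set_option autoImplicit false

open scoped BigOperators
open Finset

namespace Pool.Agent.H576.FK.TA09b

/-- the bilinear form of two sites, in terms of the values on the remaining sites -/
noncomputable def Bl {K : Type} [Field K] (e20 e11 e02 e10 e01 e00 X Y X' Y' : K) : K :=
  X ^ 2 * (X' ^ 2 * e20 + 2 * X' * Y' * e10 + Y' ^ 2 * e11)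
    + 2 * X * Y * (X' ^ 2 * e10 + 2 * X' * Y' * e00 + Y' ^ 2 * e01)
    + Y ^ 2 * (X' ^ 2 * e11 + 2 * X' * Y' * e01 + Y' ^ 2 * e02)

theorem Bl_swap {K : Type} [Field K] (e20 e11 e02 e10 e01 e00 X Y X' Y' : K) :
    Bl e20 e11 e02 e10 e01 e00 X Y X' Y' = Bl e20 e11 e02 e10 e01 e00 X' Y' X Y := by
  unfold Bl
  ring

/-- values with one site replaced -/
theorem E_upd (c : ℝ) (U : Finset ℕ) (x y : ℕ → ℝ) (i j : ℕ) (hij : i ≠ j)
    (hj : j ∈ U) (X' Y' : ℂ) (a b : ℕ) :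
    E c (U.erase i) (Function.update (fun k => (x k : ℂ)) j X')
      (Function.update (fun k => (y k : ℂ)) j Y') a b =
    X' ^ 2 * ((E c ((U.erase i).erase j) x y (a + 1) b : ℝ) : ℂ)
      + 2 * X' * Y' * ((E c ((U.erase i).erase j) x y a b : ℝ) : ℂ)
      + Y' ^ 2 * ((E c ((U.erase i).erase j) x y a (b + 1) : ℝ) : ℂ) := by
  have hj' : j ∈ U.erase i := Finset.mem_erase.mpr ⟨hij.symm, hj⟩
  rw [E_erase c (U.erase i) _ _ a b j hj', Function.update_self, Function.update_self]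
  have h : ∀ a b : ℕ, E c ((U.erase i).erase j) (Function.update (fun k => (x k : ℂ)) j X')
      (Function.update (fun k => (y k : ℂ)) j Y') a b =
      ((E c ((U.erase i).erase j) x y a b : ℝ) : ℂ) := by
    intro a b
    rw [← E_ofReal]
    apply E_congr
    intro k hk
    have hkj : k ≠ j := (Finset.mem_erase.mp hk).1
    exact ⟨Function.update_of_ne hkj _ _, Function.update_of_ne hkj _ _⟩
  rw [h, h, h]

theorem Qf_upd (c : ℝ) (U : Finset ℕ) (x y : ℕ → ℝ) (i j : ℕ) (hij : i ≠ j)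
    (hj : j ∈ U) (X Y X' Y' : ℂ) :
    Qf c U (Function.update (fun k => (x k : ℂ)) j X')
      (Function.update (fun k => (y k : ℂ)) j Y') i X Y =
    Bl ((E c ((U.erase i).erase j) x y 2 0 : ℝ) : ℂ) ((E c ((U.erase i).erase j) x y 1 1 : ℝ) : ℂ)
      ((E c ((U.erase i).erase j) x y 0 2 : ℝ) : ℂ) ((E c ((U.erase i).erase j) x y 1 0 : ℝ) : ℂ)
      ((E c ((U.erase i).erase j) x y 0 1 : ℝ) : ℂ) ((E c ((U.erase i).erase j) x y 0 0 : ℝ) : ℂ)
      X Y X' Y' := by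
  unfold Qf Bl
  rw [E_upd c U x y i j hij hj X' Y' 1 0, E_upd c U x y i j hij hj X' Y' 0 0,
    E_upd c U x y i j hij hj X' Y' 0 1]

theorem ccone_upd (U : Finset ℕ) (x y : ℕ → ℝ) (hxy : ∀ i ∈ U, x i ≠ 0 ∨ y i ≠ 0)
    (i j : ℕ) (hj : j ∈ U) (s : ℂ) (hs : 0 < s.im) :
    CCone (U.erase i) (Function.update (fun k => (x k : ℂ)) j (x j + s * y j))
      (Function.update (fun k => (y k : ℂ)) j (y j - s * x j)) := by
  intro k hk
  have hkU : k ∈ U := Finset.mem_of_mem_erase hk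
  by_cases hkj : k = j
  · subst hkj
    rw [Function.update_self, Function.update_self]
    constructor
    · by_contra hcon
      push Not at hcon
      obtain ⟨h1, h2⟩ := hcon
      have h1' := congrArg Complex.im h1
      have h2' := congrArg Complex.im h2
      simp at h1' h2'
      rcases hxy k hkU with h | h
      · rcases h2' with h' | h'
        · exact hs.ne' h'
        · exact h h'
      · rcases h1' with h' | h'
        · exact hs.ne' h'
        · exact h h'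
    · have he : ((x k + s * y k) * (starRingEnd ℂ) (y k - s * x k)).im =
          s.im * ((x k) ^ 2 + (y k) ^ 2) := by
        simp [Complex.mul_im, Complex.mul_re]
        ring
      rw [he]
      positivity
  · rw [Function.update_of_ne hkj, Function.update_of_ne hkj]
    constructor
    · rcases hxy k hkU with h | h
      · left; exact_mod_cast h
      · right; exact_mod_cast h
    · simp

theorem pow_pos_sq {a : ℝ} (h : a ≠ 0) : 0 < a ^ 2 := by positivity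

end Pool.Agent.H576.FK.TA09b

namespace Pool.Agent.H576.FK

open TA09b

/-- A09b: sign information at a real zero. -/
theorem A09b (_h7 : A07_quad) (h8 : A08_H1) (h9 : A09a_two) : A09b_pair := by
  intro c _hc U hU x y hxy hE i hi j hj hij
  set W := (U.erase i).erase j with hW
  have hW' : (U.erase j).erase i = W := by rw [hW, Finset.erase_right_comm]
  have hjE : j ∈ U.erase i := Finset.mem_erase.mpr ⟨hij.symm, hj⟩
  have hiE : i ∈ U.erase j := Finset.mem_erase.mpr ⟨hij, hi⟩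
  -- the values on the remaining sites
  obtain ⟨e20, he20⟩ : ∃ e, e = E c W x y 2 0 := ⟨_, rfl⟩
  obtain ⟨e11, he11⟩ : ∃ e, e = E c W x y 1 1 := ⟨_, rfl⟩
  obtain ⟨e02, he02⟩ : ∃ e, e = E c W x y 0 2 := ⟨_, rfl⟩
  obtain ⟨e10, he10⟩ : ∃ e, e = E c W x y 1 0 := ⟨_, rfl⟩
  obtain ⟨e01, he01⟩ : ∃ e, e = E c W x y 0 1 := ⟨_, rfl⟩
  obtain ⟨e00, he00⟩ : ∃ e, e = E c W x y 0 0 := ⟨_, rfl⟩
  have hI10 : E c (U.erase i) x y 1 0 = (x j) ^ 2 * e20 + 2 * x j * y j * e10 + (y j) ^ 2 * e11 := by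
    rw [E_erase c (U.erase i) x y 1 0 j hjE, ← hW, he20, he10, he11]
  have hI00 : E c (U.erase i) x y 0 0 = (x j) ^ 2 * e10 + 2 * x j * y j * e00 + (y j) ^ 2 * e01 := by
    rw [E_erase c (U.erase i) x y 0 0 j hjE, ← hW, he10, he00, he01]
  have hI01 : E c (U.erase i) x y 0 1 = (x j) ^ 2 * e11 + 2 * x j * y j * e01 + (y j) ^ 2 * e02 := by
    rw [E_erase c (U.erase i) x y 0 1 j hjE, ← hW, he11, he01, he02]
  have hJ10 : E c (U.erase j) x y 1 0 = (x i) ^ 2 * e20 + 2 * x i * y i * e10 + (y i) ^ 2 * e11 := by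
    rw [E_erase c (U.erase j) x y 1 0 i hiE, hW', he20, he10, he11]
  have hJ00 : E c (U.erase j) x y 0 0 = (x i) ^ 2 * e10 + 2 * x i * y i * e00 + (y i) ^ 2 * e01 := by
    rw [E_erase c (U.erase j) x y 0 0 i hiE, hW', he10, he00, he01]
  have hJ01 : E c (U.erase j) x y 0 1 = (x i) ^ 2 * e11 + 2 * x i * y i * e01 + (y i) ^ 2 * e02 := by
    rw [E_erase c (U.erase j) x y 0 1 i hiE, hW', he11, he01, he02]
  have hE0 : (x i) ^ 2 * E c (U.erase i) x y 1 0 + 2 * x i * y i * E c (U.erase i) x y 0 0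
      + (y i) ^ 2 * E c (U.erase i) x y 0 1 = 0 := by
    rw [← hE, E_erase c U x y 0 0 i hi]
  -- the coefficients
  have hDi : Dr c U x y i = 2 * x i * y i * (((x j) ^ 2 * e20 + 2 * x j * y j * e10
      + (y j) ^ 2 * e11) - ((x j) ^ 2 * e11 + 2 * x j * y j * e01 + (y j) ^ 2 * e02))
      + 2 * ((y i) ^ 2 - (x i) ^ 2) * ((x j) ^ 2 * e10 + 2 * x j * y j * e00
        + (y j) ^ 2 * e01) := by
    unfold Dr
    rw [hI10, hI00, hI01]
  have hDj : Dr c U x y j = 2 * x j * y j * (((x i) ^ 2 * e20 + 2 * x i * y i * e10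
      + (y i) ^ 2 * e11) - ((x i) ^ 2 * e11 + 2 * x i * y i * e01 + (y i) ^ 2 * e02))
      + 2 * ((y j) ^ 2 - (x j) ^ 2) * ((x i) ^ 2 * e10 + 2 * x i * y i * e00
        + (y i) ^ 2 * e01) := by
    unfold Dr
    rw [hJ10, hJ00, hJ01]
  have hSi : S2 c U x y i = (y i) ^ 2 * ((x j) ^ 2 * e20 + 2 * x j * y j * e10
      + (y j) ^ 2 * e11) - 2 * x i * y i * ((x j) ^ 2 * e10 + 2 * x j * y j * e00
        + (y j) ^ 2 * e01) + (x i) ^ 2 * ((x j) ^ 2 * e11 + 2 * x j * y j * e01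
        + (y j) ^ 2 * e02) := by
    unfold S2
    rw [hI10, hI00, hI01]
  have hSj : S2 c U x y j = (y j) ^ 2 * ((x i) ^ 2 * e20 + 2 * x i * y i * e10
      + (y i) ^ 2 * e11) - 2 * x j * y j * ((x i) ^ 2 * e10 + 2 * x i * y i * e00
        + (y i) ^ 2 * e01) + (x j) ^ 2 * ((x i) ^ 2 * e11 + 2 * x i * y i * e01
        + (y i) ^ 2 * e02) := by
    unfold S2
    rw [hJ10, hJ00, hJ01]
  have hM : M11 c U x y i j = 4 * ((y i) ^ 2 - (x i) ^ 2) * ((y j) ^ 2 - (x j) ^ 2) * e00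
      + 4 * (((y i) ^ 2 - (x i) ^ 2) * (x j * y j) + ((y j) ^ 2 - (x j) ^ 2) * (x i * y i))
        * (e10 - e01)
      + 4 * (x i * y i) * (x j * y j) * (e20 - 2 * e11 + e02) := by
    unfold M11
    rw [← hW, he00, he10, he01, he20, he11, he02]
  obtain ⟨f21, hf21⟩ : ∃ f : ℝ, f = (y i) ^ 2 * (2 * x j * y j * e20
      + 2 * ((y j) ^ 2 - (x j) ^ 2) * e10 - 2 * x j * y j * e11)
      - 2 * x i * y i * (2 * x j * y j * e10 + 2 * ((y j) ^ 2 - (x j) ^ 2) * e00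
        - 2 * x j * y j * e01)
      + (x i) ^ 2 * (2 * x j * y j * e11 + 2 * ((y j) ^ 2 - (x j) ^ 2) * e01
        - 2 * x j * y j * e02) := ⟨_, rfl⟩
  obtain ⟨f12, hf12⟩ : ∃ f : ℝ, f = (y j) ^ 2 * (2 * x i * y i * e20
      + 2 * ((y i) ^ 2 - (x i) ^ 2) * e10 - 2 * x i * y i * e11)
      - 2 * x j * y j * (2 * x i * y i * e10 + 2 * ((y i) ^ 2 - (x i) ^ 2) * e00
        - 2 * x i * y i * e01)
      + (x j) ^ 2 * (2 * x i * y i * e11 + 2 * ((y i) ^ 2 - (x i) ^ 2) * e01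
        - 2 * x i * y i * e02) := ⟨_, rfl⟩
  obtain ⟨f22, hf22⟩ : ∃ f : ℝ, f = (y i) ^ 2 * ((y j) ^ 2 * e20
      - 2 * x j * y j * e10 + (x j) ^ 2 * e11)
      - 2 * x i * y i * ((y j) ^ 2 * e10 - 2 * x j * y j * e00 + (x j) ^ 2 * e01)
      + (x i) ^ 2 * ((y j) ^ 2 * e11 - 2 * x j * y j * e01 + (x j) ^ 2 * e02) := ⟨_, rfl⟩
  have hE0c : ((x i : ℂ)) ^ 2 * ((x j : ℂ) ^ 2 * e20 + 2 * x j * y j * e10 + (y j : ℂ) ^ 2 * e11)
      + 2 * x i * y i * ((x j : ℂ) ^ 2 * e10 + 2 * x j * y j * e00 + (y j : ℂ) ^ 2 * e01)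
      + (y i : ℂ) ^ 2 * ((x j : ℂ) ^ 2 * e11 + 2 * x j * y j * e01 + (y j : ℂ) ^ 2 * e02) = 0 := by
    have := hE0
    rw [hI10, hI00, hI01] at this
    exact_mod_cast this
  -- the biquadratic polynomial
  have hF : ∀ a b : ℂ, Bq (Dr c U x y i) (Dr c U x y j) (S2 c U x y i) (M11 c U x y i j)
      (S2 c U x y j) f21 f12 f22 a b =
      Bl (e20 : ℂ) (e11 : ℂ) (e02 : ℂ) (e10 : ℂ) (e01 : ℂ) (e00 : ℂ)
        (x i + a * y i) (y i - a * x i) (x j + b * y j) (y j - b * x j) := by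
    intro a b
    unfold Bq Bl
    rw [hDi, hDj, hSi, hSj, hM, hf21, hf12, hf22]
    push_cast
    linear_combination (-1) * hE0c
  have hH : ∀ s1 s2 z1 z2 : ℂ, 0 < s1.im → 0 < s2.im → 0 < z1.im → 0 < z2.im →
      ‖Bq (Dr c U x y i) (Dr c U x y j) (S2 c U x y i) (M11 c U x y i j)
        (S2 c U x y j) f21 f12 f22 s1 s2‖ ≤
      (1 + ‖s1 - z1‖ / z1.im) ^ 2 * (1 + ‖s2 - z2‖ / z2.im) ^ 2
        * ‖Bq (Dr c U x y i) (Dr c U x y j) (S2 c U x y i) (M11 c U x y i j)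
        (S2 c U x y j) f21 f12 f22 z1 z2‖ := by
    intro s1 s2 z1 z2 hs1 hs2 hz1 hz2
    have h1 := h8 c U hU i hi _ _ (ccone_upd U x y hxy i j hj s2 hs2) (x i) (y i) (hxy i hi)
      s1 z1 hz1
    rw [Qf_upd c U x y i j hij hj, Qf_upd c U x y i j hij hj, ← hW, ← he20, ← he11, ← he02,
      ← he10, ← he01, ← he00, ← hF, ← hF] at h1
    have h2 := h8 c U hU j hj _ _ (ccone_upd U x y hxy j i hi z1 hz1) (x j) (y j) (hxy j hj)
      s2 z2 hz2
    rw [Qf_upd c U x y j i hij.symm hi, Qf_upd c U x y j i hij.symm hi, hW', ← he20, ← he11,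
      ← he02, ← he10, ← he01, ← he00, Bl_swap, ← hF, Bl_swap, ← hF] at h2
    calc _ ≤ _ := h1
      _ ≤ (1 + ‖s1 - z1‖ / z1.im) ^ 2 * ((1 + ‖s2 - z2‖ / z2.im) ^ 2
        * ‖Bq (Dr c U x y i) (Dr c U x y j) (S2 c U x y i) (M11 c U x y i j)
        (S2 c U x y j) f21 f12 f22 z1 z2‖) := by
          apply mul_le_mul_of_nonneg_left h2
          positivity
      _ = _ := by ring
  obtain ⟨c1, c2, c3⟩ := h9 _ _ _ _ _ _ _ _ hH
  refine ⟨c1, ?_, c3⟩
  intro hDi0 hDj0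
  have hS0 := c2 hDi0 hDj0
  have hr : 0 < (x i) ^ 2 + (y i) ^ 2 := by
    rcases hxy i hi with h | h
    · exact add_pos_of_pos_of_nonneg (pow_pos_sq h) (sq_nonneg _)
    · exact add_pos_of_nonneg_of_pos (sq_nonneg _) (pow_pos_sq h)
  have hr2 : ((x i) ^ 2 + (y i) ^ 2) ^ 2 ≠ 0 := by positivity
  unfold Dr at hDi0
  unfold S2 at hS0
  refine ⟨?_, ?_, ?_⟩
  · apply (mul_eq_zero.mp _).resolve_left hr2
    linear_combination (x i) ^ 2 * hE0 + (x i * y i) * hDi0 + (y i) ^ 2 * hS0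
  · apply (mul_eq_zero.mp _).resolve_left hr2
    linear_combination (x i * y i) * hE0 + ((y i) ^ 2 - (x i) ^ 2) / 2 * hDi0
      - (x i * y i) * hS0
  · apply (mul_eq_zero.mp _).resolve_left hr2
    linear_combination (y i) ^ 2 * hE0 - (x i * y i) * hDi0 + (x i) ^ 2 * hS0

end Pool.Agent.H576.FK

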