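import Pool.Agent.H576.FK.Stmts

set_option autoImplicit false

open scoped BigOperators
open Finset

namespace Pool.Agent.H576.FK

namespace TA10

/-- the quadratic form of a site at a zero with vanishing derivative -/
lemma site_form (x y A B C : ℝ) (hn : 0 < x ^ 2 + y ^ 2)
    (hE : x ^ 2 * A + 2 * x * y * B + y ^ 2 * C = 0)
    (hD : 2 * x * y * (A - C) + 2 * (y ^ 2 - x ^ 2) * B = 0) :
    A = (y ^ 2 * A - 2 * x * y * B + x ^ 2 * C) / (x ^ 2 + y ^ 2) ^ 2 * y ^ 2 ∧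
    B = -((y ^ 2 * A - 2 * x * y * B + x ^ 2 * C) / (x ^ 2 + y ^ 2) ^ 2 * (x * y)) ∧
    C = (y ^ 2 * A - 2 * x * y * B + x ^ 2 * C) / (x ^ 2 + y ^ 2) ^ 2 * x ^ 2 := by
  have h1 : A * x + B * y = 0 := by
    have : (x ^ 2 + y ^ 2) * (A * x + B * y) = 0 := by
      linear_combination x * hE + y / 2 * hD
    exact (mul_eq_zero.mp this).resolve_left hn.ne'
  have h2 : B * x + C * y = 0 := by
    have : (x ^ 2 + y ^ 2) * (B * x + C * y) = 0 := by
      linear_combination y * hE - x / 2 * hD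
    exact (mul_eq_zero.mp this).resolve_left hn.ne'
  have hn2 : (x ^ 2 + y ^ 2) ^ 2 ≠ 0 := by positivity
  refine ⟨?_, ?_, ?_⟩
  · rw [div_mul_eq_mul_div, eq_div_iff hn2]
    linear_combination (x ^ 3 + 2 * x * y ^ 2) * h1 - x ^ 2 * y * h2
  · rw [div_mul_eq_mul_div, ← neg_div, eq_div_iff hn2]
    linear_combination (x ^ 2 * y + y ^ 3 - x ^ 2 * y) * h1 + (x ^ 3 ) * h2
  · rw [div_mul_eq_mul_div, eq_div_iff hn2]
    linear_combination (-(x * y ^ 2)) * h1 + (y ^ 3 + 2 * x ^ 2 * y) * h2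

/-- the two identities for a pair of sites -/
lemma pair_alg (xi yi xj yj e00 e10 e01 e20 e11 e02 hi hj : ℝ)
    (q1 : xj ^ 2 * e20 + 2 * xj * yj * e10 + yj ^ 2 * e11 = hi * yi ^ 2)
    (q2 : xj ^ 2 * e10 + 2 * xj * yj * e00 + yj ^ 2 * e01 = -(hi * (xi * yi)))
    (q3 : xj ^ 2 * e11 + 2 * xj * yj * e01 + yj ^ 2 * e02 = hi * xi ^ 2)
    (r1 : xi ^ 2 * e20 + 2 * xi * yi * e10 + yi ^ 2 * e11 = hj * yj ^ 2)
    (r2 : xi ^ 2 * e10 + 2 * xi * yi * e00 + yi ^ 2 * e01 = -(hj * (xj * yj)))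
    (r3 : xi ^ 2 * e11 + 2 * xi * yi * e01 + yi ^ 2 * e02 = hj * xj ^ 2) :
    (xi * yj - xj * yi) * (4 * (yi ^ 2 - xi ^ 2) * (yj ^ 2 - xj ^ 2) * e00
      + 4 * ((yi ^ 2 - xi ^ 2) * (xj * yj) + (yj ^ 2 - xj ^ 2) * (xi * yi)) * (e10 - e01)
      + 4 * (xi * yi) * (xj * yj) * (e20 - 2 * e11 + e02)
      - 4 * (e11 - e00) * (xi ^ 2 + yi ^ 2) * (xj ^ 2 + yj ^ 2)) = 0 ∧
    (xi * yj - xj * yi) * (hi * xi ^ 2 * yi ^ 2 + hj * xj ^ 2 * yj ^ 2
      - (xi * yj - xj * yi) ^ 2 * e00 - (xi * yj + xj * yi) ^ 2 * (e11 - e00)) = 0 := by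
  constructor
  · linear_combination
      (-4 * (xi * yi ^ 2 * yj + xi ^ 2 * yi * xj + xi ^ 3 * yj)) * q1
      + (-4 * (yi ^ 3 * yj + xi * yi ^ 2 * xj + xi ^ 2 * yi * yj - xi ^ 3 * xj)) * q2
      + (4 * xi ^ 2 * yi * xj) * q3
      + (4 * (yi * xj * yj ^ 2 + yi * xj ^ 3 + xi * xj ^ 2 * yj)) * r1
      + (4 * (yi * yj ^ 3 + yi * xj ^ 2 * yj + xi * xj * yj ^ 2 - xi * xj ^ 3)) * r2
      + (-4 * xi * xj ^ 2 * yj) * r3
  · linear_combination
      ((xi * yj - xj * yi) * xi * yi) * q2 + ((xi * yj - xj * yi) * xj * yj) * r2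
      - ((xi * yj + xj * yi) / 2) * (xi ^ 2 * q1 - xj ^ 2 * r1 - yi ^ 2 * q3 + yj ^ 2 * r3)

/-- positivity of the term of a pair -/
lemma pair_nonneg (xi yi xj yj e00 e10 e01 e20 e11 e02 hi hj : ℝ)
    (hni : 0 < xi ^ 2 + yi ^ 2) (hnj : 0 < xj ^ 2 + yj ^ 2)
    (q1 : xj ^ 2 * e20 + 2 * xj * yj * e10 + yj ^ 2 * e11 = hi * yi ^ 2)
    (q2 : xj ^ 2 * e10 + 2 * xj * yj * e00 + yj ^ 2 * e01 = -(hi * (xi * yi)))
    (q3 : xj ^ 2 * e11 + 2 * xj * yj * e01 + yj ^ 2 * e02 = hi * xi ^ 2)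
    (r1 : xi ^ 2 * e20 + 2 * xi * yi * e10 + yi ^ 2 * e11 = hj * yj ^ 2)
    (r2 : xi ^ 2 * e10 + 2 * xi * yi * e00 + yi ^ 2 * e01 = -(hj * (xj * yj)))
    (r3 : xi ^ 2 * e11 + 2 * xi * yi * e01 + yi ^ 2 * e02 = hj * xj ^ 2)
    (hM : 0 ≤ hi * (4 * (yi ^ 2 - xi ^ 2) * (yj ^ 2 - xj ^ 2) * e00
      + 4 * ((yi ^ 2 - xi ^ 2) * (xj * yj) + (yj ^ 2 - xj ^ 2) * (xi * yi)) * (e10 - e01)
      + 4 * (xi * yi) * (xj * yj) * (e20 - 2 * e11 + e02)))
    (hS : 0 ≤ hi * hj) :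
    0 ≤ hi * (hi * xi ^ 2 * yi ^ 2 + hj * xj ^ 2 * yj ^ 2 - (xi * yj - xj * yi) ^ 2 * e00) := by
  obtain ⟨h1, h2⟩ := pair_alg xi yi xj yj e00 e10 e01 e20 e11 e02 hi hj q1 q2 q3 r1 r2 r3
  by_cases hw : xi * yj - xj * yi = 0
  · rw [hw]
    have h3 : 0 ≤ (hi * xi * yi) ^ 2 := sq_nonneg _
    have h4 : 0 ≤ (hi * hj) * (xj * yj) ^ 2 := mul_nonneg hS (sq_nonneg _)
    nlinarith
  · have h3 := (mul_eq_zero.mp h1).resolve_left hw
    have h4 := (mul_eq_zero.mp h2).resolve_left hw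
    have h5 : 0 ≤ hi * (e11 - e00) := by
      have h6 : 0 ≤ (hi * (e11 - e00)) * (4 * ((xi ^ 2 + yi ^ 2) * (xj ^ 2 + yj ^ 2))) := by
        have h7 : 4 * (yi ^ 2 - xi ^ 2) * (yj ^ 2 - xj ^ 2) * e00
          + 4 * ((yi ^ 2 - xi ^ 2) * (xj * yj) + (yj ^ 2 - xj ^ 2) * (xi * yi)) * (e10 - e01)
          + 4 * (xi * yi) * (xj * yj) * (e20 - 2 * e11 + e02)
          = 4 * (e11 - e00) * (xi ^ 2 + yi ^ 2) * (xj ^ 2 + yj ^ 2) := by linarith
        rw [h7] at hM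
        calc 0 ≤ hi * (4 * (e11 - e00) * (xi ^ 2 + yi ^ 2) * (xj ^ 2 + yj ^ 2)) := hM
          _ = _ := by ring
      exact nonneg_of_mul_nonneg_left h6 (by positivity)
    have h6 : hi * xi ^ 2 * yi ^ 2 + hj * xj ^ 2 * yj ^ 2 - (xi * yj - xj * yi) ^ 2 * e00 =
        (xi * yj + xj * yi) ^ 2 * (e11 - e00) := by linarith
    rw [h6]
    have h7 : 0 ≤ (xi * yj + xj * yi) ^ 2 * (hi * (e11 - e00)) := mul_nonneg (sq_nonneg _) h5
    calc 0 ≤ (xi * yj + xj * yi) ^ 2 * (hi * (e11 - e00)) := h7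
      _ = _ := by ring

end TA10

open TA10 in
theorem A10 (h3 : A03_rec) : A10_node := by
  intro c hc U x y hU hE hD i hi hxi hyi hpos
  -- positivity of the norms
  have hn : ∀ j ∈ U, 0 < (x j) ^ 2 + (y j) ^ 2 := by
    intro j hj
    rcases hU j hj with h | h
    · have : 0 < (x j) ^ 2 := by positivity
      nlinarith [sq_nonneg (y j)]
    · have : 0 < (y j) ^ 2 := by positivity
      nlinarith [sq_nonneg (x j)]
  set h : ℕ → ℝ := fun j => S2 c U x y j / ((x j) ^ 2 + (y j) ^ 2) ^ 2 with hh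
  have hform : ∀ j ∈ U, E c (U.erase j) x y 1 0 = h j * (y j) ^ 2 ∧
      E c (U.erase j) x y 0 0 = -(h j * (x j * y j)) ∧
      E c (U.erase j) x y 0 1 = h j * (x j) ^ 2 := by
    intro j hj
    have e1 := E_erase c U x y 0 0 j hj
    rw [hE] at e1
    have e2 := hD j hj
    unfold Dr at e2
    exact site_form (x j) (y j) _ _ _ (hn j hj) (by simpa using e1.symm) e2
  -- expansions
  have hexp : ∀ j ∈ U.erase i, ∀ a b, E c (U.erase i) x y a b =
      (x j) ^ 2 * E c ((U.erase i).erase j) x y (a + 1) b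
      + 2 * x j * y j * E c ((U.erase i).erase j) x y a b
      + (y j) ^ 2 * E c ((U.erase i).erase j) x y a (b + 1) := fun j hj a b =>
    E_erase c (U.erase i) x y a b j hj
  have hexp' : ∀ j ∈ U.erase i, ∀ a b, E c (U.erase j) x y a b =
      (x i) ^ 2 * E c ((U.erase i).erase j) x y (a + 1) b
      + 2 * x i * y i * E c ((U.erase i).erase j) x y a b
      + (y i) ^ 2 * E c ((U.erase i).erase j) x y a (b + 1) := by
    intro j hj a b
    have h4 : i ∈ U.erase j := Finset.mem_erase.mpr ⟨(Finset.ne_of_mem_erase hj).symm, hi⟩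
    rw [E_erase c (U.erase j) x y a b i h4, Finset.erase_right_comm]
  -- the terms
  set T : ℕ → ℝ := fun j => h i * (x i) ^ 2 * (y i) ^ 2 + h j * (x j) ^ 2 * (y j) ^ 2
      - (x i * y j - x j * y i) ^ 2 * E c ((U.erase i).erase j) x y 0 0 with hT
  have hTpos : ∀ j ∈ U.erase i, 0 ≤ h i * T j := by
    intro j hj
    have hjU : j ∈ U := Finset.mem_of_mem_erase hj
    have hji : i ≠ j := (Finset.ne_of_mem_erase hj).symm
    obtain ⟨p1, p2⟩ := hpos j hjU hji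
    obtain ⟨a1, a2, a3⟩ := hform i hi
    obtain ⟨b1, b2, b3⟩ := hform j hjU
    have g1 := hexp j hj 1 0
    have g2 := hexp j hj 0 0
    have g3 := hexp j hj 0 1
    have k1 := hexp' j hj 1 0
    have k2 := hexp' j hj 0 0
    have k3 := hexp' j hj 0 1
    rw [a1] at g1
    rw [a2] at g2
    rw [a3] at g3
    rw [b1] at k1
    rw [b2] at k2
    rw [b3] at k3
    simp only [zero_add, one_add_one_eq_two] at g1 g2 g3 k1 k2 k3
    have hi2 : (0 : ℝ) < ((x i) ^ 2 + (y i) ^ 2) ^ 2 := by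
      have := hn i hi; positivity
    have hj2 : (0 : ℝ) < ((x j) ^ 2 + (y j) ^ 2) ^ 2 := by
      have := hn j hjU; positivity
    refine pair_nonneg (x i) (y i) (x j) (y j) _ _ _ _ _ _ (h i) (h j) (hn i hi) (hn j hjU)
      g1.symm g2.symm g3.symm k1.symm k2.symm k3.symm ?_ ?_
    · show 0 ≤ S2 c U x y i / ((x i) ^ 2 + (y i) ^ 2) ^ 2 * M11 c U x y i j
      rw [div_mul_eq_mul_div]
      exact div_nonneg p1 hi2.le
    · show 0 ≤ S2 c U x y i / ((x i) ^ 2 + (y i) ^ 2) ^ 2 *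
        (S2 c U x y j / ((x j) ^ 2 + (y j) ^ 2) ^ 2)
      rw [div_mul_div_comm]
      exact div_nonneg p2 (mul_pos hi2 hj2).le
  -- the sum
  have hsum : (2 * c - 1) * (h i * (x i) ^ 2 * (y i) ^ 2) + ∑ j ∈ U.erase i, T j = 0 := by
    have r1 := h3 c hc (U.erase i) x y 0 0
    have r2 := h3 c hc (U.erase i) y x 0 0
    obtain ⟨a1, a2, a3⟩ := hform i hi
    have s1 : ∀ j ∈ U.erase i, (x i) ^ 2 * (2 * x j * y j * E c ((U.erase i).erase j) x y (0 + 1) 0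
        + 2 * (y j) ^ 2 * E c ((U.erase i).erase j) x y 0 0)
        + (y i) ^ 2 * (2 * y j * x j * E c ((U.erase i).erase j) y x (0 + 1) 0
        + 2 * (x j) ^ 2 * E c ((U.erase i).erase j) y x 0 0) =
        2 * (h i * (x i) ^ 2 * (y i) ^ 2 - T j) := by
      intro j hj
      have hjU : j ∈ U := Finset.mem_of_mem_erase hj
      obtain ⟨b1, b2, b3⟩ := hform j hjU
      have k2 := hexp' j hj 0 0
      rw [b2] at k2
      rw [E_swap c ((U.erase i).erase j) y x (0 + 1) 0, E_swap c ((U.erase i).erase j) y x 0 0]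
      simp only [zero_add] at k2 ⊢
      simp only [hT]
      linear_combination (-2 * x j * y j) * k2
    have s2 := Finset.sum_congr rfl s1
    rw [Finset.sum_add_distrib, ← Finset.mul_sum, ← Finset.mul_sum] at s2
    rw [← Finset.mul_sum, Finset.sum_sub_distrib, Finset.sum_const, nsmul_eq_mul] at s2
    simp only [Nat.cast_zero, add_zero, mul_zero, zero_mul, zero_add] at r1 r2 s2
    rw [E_swap c (U.erase i) y x 1 0, a3] at r2
    rw [a1] at r1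
    rw [← r1, ← r2] at s2
    linarith
  -- conclusion
  have hsum2 : (2 * c - 1) * (h i * x i * y i) ^ 2 + ∑ j ∈ U.erase i, h i * T j = 0 := by
    rw [← Finset.mul_sum]
    linear_combination (h i) * hsum
  have hnn := Finset.sum_nonneg hTpos
  have h4 : (2 * c - 1) * (h i * x i * y i) ^ 2 ≤ 0 := by linarith
  have h5 : (h i * x i * y i) ^ 2 ≤ 0 := by
    by_contra hcon
    push Not at hcon
    have : 0 < (2 * c - 1) * (h i * x i * y i) ^ 2 := mul_pos (by linarith) hcon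
    linarith
  have h6 : h i * x i * y i = 0 := by
    have := le_antisymm h5 (sq_nonneg _)
    exact pow_eq_zero_iff (two_ne_zero) |>.mp this
  have h7 : h i = 0 := by
    rcases mul_eq_zero.mp h6 with h8 | h8
    · rcases mul_eq_zero.mp h8 with h9 | h9
      · exact h9
      · exact absurd h9 hxi
    · exact absurd h8 hyi
  obtain ⟨a1, a2, a3⟩ := hform i hi
  rw [h7] at a1 a2 a3
  exact ⟨by rw [a1]; ring, by rw [a2]; ring, by rw [a3]; ring⟩

end Pool.Agent.H576.FK
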