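import Mathlib
import Pool.Agent.H576.FK.Stmts

/-!
# Fisk's conjecture: task A11
-/

set_option autoImplicit false

open Finset

namespace Pool.Agent.H576.FK

theorem A11 (h4 : A04_edge) (h5 : A05_sum) (h9 : A09b_pair) (h10 : A10_node) : A11_strict := by
  intro c hc U hst hstr x y hbal hE
  obtain ⟨hne, hbx, hby⟩ := hbal
  have hx : 2 * (U.filter (fun i => x i = 0)).card ≠ U.card := fun h => h4 c hc U x y hne h hE
  have hy : 2 * (U.filter (fun i => y i = 0)).card ≠ U.card := by
    intro h
    refine h4 c hc U y x (fun i hi => (hne i hi).symm) h ?_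
    rw [← E_swap]
    exact hE
  by_cases h1 : ∃ i ∈ U, E c (U.erase i) x y 1 0 = 0 ∧ E c (U.erase i) x y 0 0 = 0 ∧
      E c (U.erase i) x y 0 1 = 0
  · exfalso
    obtain ⟨i, hi, hA, hB, hC⟩ := h1
    have hcard : (U.erase i).card = U.card - 1 := Finset.card_erase_of_mem hi
    have hpos : 0 < U.card := Finset.card_pos.mpr ⟨i, hi⟩
    have hfx : ((U.erase i).filter (fun j => x j = 0)).card ≤ (U.filter (fun j => x j = 0)).card :=
      Finset.card_le_card (Finset.filter_subset_filter _ (Finset.erase_subset i U))
    have hfy : ((U.erase i).filter (fun j => y j = 0)).card ≤ (U.filter (fun j => y j = 0)).card :=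
      Finset.card_le_card (Finset.filter_subset_filter _ (Finset.erase_subset i U))
    have hb : Bal (U.erase i) x y :=
      ⟨fun j hj => hne j (Finset.mem_of_mem_erase hj), by omega, by omega⟩
    have hn : (U.erase i).Nonempty := by
      rw [Finset.nonempty_iff_ne_empty]
      intro h0
      rw [h0, E_empty] at hB
      simp [mu] at hB
    have hs := h5 c hc (U.erase i) x y
    rw [hA, hC, sub_self, mul_zero] at hs
    rcases hstr i hi x y hb hB with h | h
    · exact absurd hs (Finset.sum_pos h hn).ne'
    · exact absurd hs (Finset.sum_neg h hn).ne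
  · have h2 : ∀ i ∈ U, ∀ j ∈ U, Dr c U x y i = 0 → Dr c U x y j = 0 := by
      intro i hi j hj hi0
      by_contra hj0
      have hij : i ≠ j := by
        rintro rfl
        exact hj0 hi0
      exact h1 ⟨i, hi, (h9 c hc U hst x y hne hE i hi j hj hij).2.1 hi0 hj0⟩
    by_cases h3 : ∃ i ∈ U, Dr c U x y i = 0
    · exfalso
      obtain ⟨i0, hi0, hd0⟩ := h3
      have hall : ∀ j ∈ U, Dr c U x y j = 0 := fun j hj => h2 i0 hi0 j hj hd0
      have h6 : ∃ i ∈ U, x i ≠ 0 ∧ y i ≠ 0 := by
        by_contra hno
        push Not at hno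
        have hsub : U ⊆ U.filter (fun j => x j = 0) ∪ U.filter (fun j => y j = 0) := by
          intro j hj
          rw [Finset.mem_union, Finset.mem_filter, Finset.mem_filter]
          by_cases hxj : x j = 0
          · exact Or.inl ⟨hj, hxj⟩
          · exact Or.inr ⟨hj, hno j hj hxj⟩
        have hc1 := Finset.card_le_card hsub
        have hc2 := Finset.card_union_le (U.filter (fun j => x j = 0)) (U.filter (fun j => y j = 0))
        omega
      obtain ⟨i, hi, hxi, hyi⟩ := h6
      refine h1 ⟨i, hi, h10 c hc U x y hne hE hall i hi hxi hyi ?_⟩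
      intro j hj hij
      exact (h9 c hc U hst x y hne hE i hi j hj hij).2.2 (hall i hi) (hall j hj)
    · push Not at h3
      by_cases hp : ∀ i ∈ U, 0 < Dr c U x y i
      · exact Or.inl hp
      · right
        push Not at hp
        obtain ⟨i, hi, hdi⟩ := hp
        have hdi' : Dr c U x y i < 0 := lt_of_le_of_ne hdi (h3 i hi)
        intro j hj
        by_cases hij : i = j
        · subst hij; exact hdi'
        · have hpr := (h9 c hc U hst x y hne hE i hi j hj hij).1
          rcases lt_or_gt_of_ne (h3 j hj) with h | h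
          · exact h
          · exact absurd hpr (not_le.mpr (mul_neg_of_neg_of_pos hdi' h))

end Pool.Agent.H576.FK
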