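import Pool.Agent.H576.FK.Stmts

/-!
Task A12 (helper576): no zeros at non-real balanced points of the closed cone.
-/

set_option autoImplicit false

open scoped BigOperators
open Finset

namespace Pool.Agent.H576.FK

namespace TA12

theorem im_div (x y : ℂ) : (x / y).im = (x * (starRingEnd ℂ) y).im / Complex.normSq y := by
  rw [Complex.div_im, Complex.mul_im, Complex.conj_re, Complex.conj_im]
  ring

/-- a real direction -/
theorem real_dir {x y : ℂ} (h : x ≠ 0 ∨ y ≠ 0) (him : (x * (starRingEnd ℂ) y).im = 0) :
    ∃ (l : ℂ) (p q : ℝ), l ≠ 0 ∧ x = l * p ∧ y = l * q ∧ (p ≠ 0 ∨ q ≠ 0) := by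
  by_cases hy : y = 0
  · have hx : x ≠ 0 := by
      rcases h with h | h
      · exact h
      · exact absurd hy h
    exact ⟨x, 1, 0, hx, by simp, by simp [hy], Or.inl one_ne_zero⟩
  · refine ⟨y, (x / y).re, 1, hy, ?_, by simp, Or.inr one_ne_zero⟩
    have h1 : (x / y).im = 0 := by rw [im_div, him, zero_div]
    have h2 : (((x / y).re : ℝ) : ℂ) = x / y := by
      apply Complex.ext
      · simp
      · rw [Complex.ofReal_im, h1]
    rw [h2, mul_div_cancel₀ _ hy]

/-- at a zero, a non-real site can be moved freely -/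
theorem vanish (h8 : A08_H1) {c : ℝ} {U : Finset ℕ} (hS : Stab c U) {x y : ℕ → ℂ}
    (hC : CCone U x y) {j : ℕ} (hj : j ∈ U) (him : 0 < (x j * (starRingEnd ℂ) (y j)).im)
    (h0 : E c U x y 0 0 = 0) :
    E c (U.erase j) x y 1 0 = 0 ∧ E c (U.erase j) x y 0 0 = 0 ∧ E c (U.erase j) x y 0 1 = 0 := by
  have hy : y j ≠ 0 := by
    intro h
    rw [h] at him
    simp at him
  have hC' : CCone (U.erase j) x y := fun i hi => hC i (Finset.mem_of_mem_erase hi)
  have hw : 0 < (x j / y j).im := by
    rw [im_div]
    exact div_pos him (Complex.normSq_pos.2 hy)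
  have hQ : Qf c U x y j (x j / y j) 1 = 0 := by
    rw [E_erase c U x y 0 0 j hj, zero_add] at h0
    unfold Qf
    have h1 : (x j / y j) ^ 2 * E c (U.erase j) x y 1 0 + 2 * (x j / y j) * 1 *
        E c (U.erase j) x y 0 0 + 1 ^ 2 * E c (U.erase j) x y 0 1 =
        ((x j) ^ 2 * E c (U.erase j) x y 1 0 + 2 * x j * y j * E c (U.erase j) x y 0 0 +
          (y j) ^ 2 * E c (U.erase j) x y 0 1) / (y j) ^ 2 := by
      field_simp
    rw [h1, h0, zero_div]
  have key : ∀ s : ℂ, Qf c U x y j s 1 = 0 := by
    intro s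
    have h1 := h8 c U hS j hj x y hC' 0 1 (Or.inr one_ne_zero) s (x j / y j) hw
    simp only [Complex.ofReal_zero, Complex.ofReal_one, zero_add, mul_one, mul_zero,
      sub_zero] at h1
    rw [hQ, norm_zero, mul_zero] at h1
    exact norm_le_zero_iff.1 h1
  have k0 := key 0
  have k1 := key 1
  have k2 := key (-1)
  unfold Qf at k0 k1 k2
  have hC0 : E c (U.erase j) x y 0 1 = 0 := by linear_combination k0
  refine ⟨?_, ?_, hC0⟩
  · linear_combination (1/2) * k1 + (1/2) * k2 - hC0
  · linear_combination (1/4) * k1 - (1/4) * k2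

/-- the number of non-real sites -/
noncomputable def nr (U : Finset ℕ) (x y : ℕ → ℂ) : Finset ℕ :=
  U.filter (fun i => 0 < (x i * (starRingEnd ℂ) (y i)).im)

theorem main (h8 : A08_H1) {c : ℝ} {U : Finset ℕ} (hS : Stab c U) (hT : Strict c U) :
    ∀ n : ℕ, ∀ x y : ℕ → ℂ, CCone U x y → 2 * (U.filter (fun i => x i = 0)).card ≤ U.card →
    2 * (U.filter (fun i => y i = 0)).card ≤ U.card → (nr U x y).card = n + 1 →
    E c U x y 0 0 ≠ 0 := by
  intro n
  induction n with
  | zero =>
    intro x y hC hx hy hn h0
    obtain ⟨j, hj⟩ : (nr U x y).Nonempty := by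
      rw [← Finset.card_pos]; omega
    have hj' := Finset.mem_filter.1 hj
    obtain ⟨v1, v2, v3⟩ := vanish h8 hS hC hj'.1 hj'.2 h0
    -- the sites other than `j` are real
    have hreal : ∀ i ∈ U, i ≠ j → (x i * (starRingEnd ℂ) (y i)).im = 0 := by
      intro i hi hij
      refine le_antisymm ?_ (hC i hi).2
      by_contra h
      rw [not_le] at h
      have h1 : i ∈ nr U x y := Finset.mem_filter.2 ⟨hi, h⟩
      obtain ⟨a, ha⟩ := Finset.card_eq_one.1 hn
      rw [ha, Finset.mem_singleton] at h1 hj
      exact hij (h1.trans hj.symm)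
    have hch : ∀ i, ∃ (l : ℂ) (p q : ℝ), l ≠ 0 ∧ (i ∈ U → i ≠ j → x i = l * p ∧ y i = l * q) ∧
        (i ∈ U → (p ≠ 0 ∨ q ≠ 0)) ∧ (i = j → p = 1 ∧ q = 1) := by
      intro i
      by_cases hij : i = j
      · exact ⟨1, 1, 1, one_ne_zero, fun _ h => absurd hij h, fun _ => Or.inl one_ne_zero,
          fun _ => ⟨rfl, rfl⟩⟩
      · by_cases hi : i ∈ U
        · obtain ⟨l, p, q, h1, h2, h3, h4⟩ := real_dir (hC i hi).1 (hreal i hi hij)
          exact ⟨l, p, q, h1, fun _ _ => ⟨h2, h3⟩, fun _ => h4, fun h => absurd h hij⟩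
        · exact ⟨1, 1, 1, one_ne_zero, fun h => absurd h hi, fun h => absurd h hi,
            fun h => absurd h hij⟩
    choose l p q hl hpq hne hjj using hch
    obtain ⟨pj, qj⟩ := hjj j rfl
    have hz : ∀ a b : ℕ, E c (U.erase j) x y a b = 0 → E c (U.erase j) p q a b = 0 := by
      intro a b hab
      have h1 : E c (U.erase j) x y a b =
          E c (U.erase j) (fun i => l i * (p i : ℂ)) (fun i => l i * (q i : ℂ)) a b := by
        apply E_congr
        intro i hi
        exact hpq i (Finset.mem_of_mem_erase hi) (Finset.ne_of_mem_erase hi)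
      rw [h1, E_smul c (U.erase j) l (fun i => (p i : ℂ)) (fun i => (q i : ℂ)) a b,
        E_ofReal] at hab
      rcases mul_eq_zero.1 hab with h2 | h2
      · exact absurd h2 (Finset.prod_ne_zero_iff.2 (fun i _ => pow_ne_zero 2 (hl i)))
      · exact_mod_cast h2
    have z1 := hz 1 0 v1
    have z2 := hz 0 0 v2
    have z3 := hz 0 1 v3
    have hE : E c U p q 0 0 = 0 := by
      rw [E_erase c U p q 0 0 j hj'.1, zero_add, z1, z2, z3]
      ring
    have hB : Bal U p q := by
      refine ⟨hne, ?_, ?_⟩
      · refine le_trans (Nat.mul_le_mul_left 2 (Finset.card_le_card ?_)) hx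
        intro i hi
        rw [Finset.mem_filter] at hi ⊢
        refine ⟨hi.1, ?_⟩
        by_cases hij : i = j
        · exfalso
          rw [hij, pj] at hi
          exact one_ne_zero hi.2
        · rw [(hpq i hi.1 hij).1, hi.2, Complex.ofReal_zero, mul_zero]
      · refine le_trans (Nat.mul_le_mul_left 2 (Finset.card_le_card ?_)) hy
        intro i hi
        rw [Finset.mem_filter] at hi ⊢
        refine ⟨hi.1, ?_⟩
        by_cases hij : i = j
        · exfalso
          rw [hij, qj] at hi
          exact one_ne_zero hi.2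
        · rw [(hpq i hi.1 hij).2, hi.2, Complex.ofReal_zero, mul_zero]
    have hD : Dr c U p q j = 0 := by
      unfold Dr
      rw [z1, z2, z3]
      ring
    rcases hT p q hB hE with h | h
    · exact absurd (h j hj'.1) (by rw [hD]; exact lt_irrefl _)
    · exact absurd (h j hj'.1) (by rw [hD]; exact lt_irrefl _)
  | succ n ih =>
    intro x y hC hx hy hn h0
    obtain ⟨j, hj⟩ : (nr U x y).Nonempty := by
      rw [← Finset.card_pos]; omega
    have hj' := Finset.mem_filter.1 hj
    obtain ⟨v1, v2, v3⟩ := vanish h8 hS hC hj'.1 hj'.2 h0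
    have hcg : ∀ a b : ℕ, E c (U.erase j) (Function.update x j 1) (Function.update y j 1) a b =
        E c (U.erase j) x y a b := by
      intro a b
      apply E_congr
      intro i hi
      have hij := Finset.ne_of_mem_erase hi
      exact ⟨Function.update_of_ne hij _ _, Function.update_of_ne hij _ _⟩
    apply ih (Function.update x j 1) (Function.update y j 1)
    · intro i hi
      by_cases hij : i = j
      · subst hij
        rw [Function.update_self, Function.update_self]
        exact ⟨Or.inl one_ne_zero, by simp⟩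
      · rw [Function.update_of_ne hij, Function.update_of_ne hij]
        exact hC i hi
    · refine le_trans (Nat.mul_le_mul_left 2 (Finset.card_le_card ?_)) hx
      intro i hi
      rw [Finset.mem_filter] at hi ⊢
      refine ⟨hi.1, ?_⟩
      by_cases hij : i = j
      · exfalso
        rw [hij, Function.update_self] at hi
        exact one_ne_zero hi.2
      · rw [Function.update_of_ne hij] at hi
        exact hi.2
    · refine le_trans (Nat.mul_le_mul_left 2 (Finset.card_le_card ?_)) hy
      intro i hi
      rw [Finset.mem_filter] at hi ⊢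
      refine ⟨hi.1, ?_⟩
      by_cases hij : i = j
      · exfalso
        rw [hij, Function.update_self] at hi
        exact one_ne_zero hi.2
      · rw [Function.update_of_ne hij] at hi
        exact hi.2
    · have h1 : nr U (Function.update x j 1) (Function.update y j 1) = (nr U x y).erase j := by
        ext i
        rw [Finset.mem_erase, nr, nr, Finset.mem_filter, Finset.mem_filter]
        by_cases hij : i = j
        · subst hij
          rw [Function.update_self, Function.update_self]
          simp
        · rw [Function.update_of_ne hij, Function.update_of_ne hij]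
          tauto
      rw [h1, Finset.card_erase_of_mem hj, hn]
      omega
    · rw [E_erase c U _ _ 0 0 j hj'.1, zero_add, hcg, hcg, hcg, v1, v2, v3]
      ring

end TA12

open TA12 in
theorem A12 (h8 : A08_H1) : A12_closed := by
  intro c _ U hS hT x y hC hx hy ⟨j, hj, hjj⟩
  have hpos : 0 < (nr U x y).card :=
    Finset.card_pos.2 ⟨j, Finset.mem_filter.2 ⟨hj, hjj⟩⟩
  obtain ⟨n, hn⟩ : ∃ n, (nr U x y).card = n + 1 := ⟨(nr U x y).card - 1, by omega⟩
  exact main h8 hS hT n x y hC hx hy hn

end Pool.Agent.H576.FK
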