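import Mathlib
import Pool.Agent.H576.FK.Stmts

set_option autoImplicit false

open scoped BigOperators Topology
open Finset Filter

namespace Pool.Agent.H576.FK

namespace TA13

/-- normalisation of a configuration in the open cone -/
theorem normal (hc : A13c_norm) (c : ℝ) (U : Finset ℕ) (hU : U.Nonempty) (x y : ℕ → ℂ)
    (hcone : Cone U x y) (h0 : E c U x y 0 0 = 0) :
    ∃ x' y' : ℕ → ℂ, Cone U x' y' ∧ E c U x' y' 0 0 = 0 ∧
      (∀ i ∈ U, ‖x' i‖ ^ 2 + ‖y' i‖ ^ 2 = 1) ∧ (∑ i ∈ U, ‖x' i‖ ^ 2 = (U.card : ℝ) / 2) ∧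
      (∀ i, ‖x' i‖ ≤ 1 ∧ ‖y' i‖ ≤ 1) := by
  obtain ⟨t, ht, hsum⟩ := hc U hU x y hcone
  have htC : (t : ℂ) ≠ 0 := by exact_mod_cast ht.ne'
  have hx0 : ∀ i ∈ U, x i ≠ 0 := by
    intro i hi h
    have := hcone i hi
    rw [h] at this
    simp at this
  set X : ℕ → ℂ := fun i => (t : ℂ) * x i with hX
  set Y : ℕ → ℂ := fun i => (t : ℂ)⁻¹ * y i with hY
  have hX0 : ∀ i ∈ U, X i ≠ 0 := fun i hi => mul_ne_zero htC (hx0 i hi)
  have hN : ∀ i ∈ U, 0 < ‖X i‖ ^ 2 + ‖Y i‖ ^ 2 := by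
    intro i hi
    have : 0 < ‖X i‖ := norm_pos_iff.mpr (hX0 i hi)
    positivity
  set r : ℕ → ℝ := fun i => (Real.sqrt (‖X i‖ ^ 2 + ‖Y i‖ ^ 2))⁻¹ with hr
  have hrpos : ∀ i ∈ U, 0 < r i := by
    intro i hi
    have := Real.sqrt_pos.mpr (hN i hi)
    exact inv_pos.mpr this
  have hr2 : ∀ i ∈ U, (r i) ^ 2 * (‖X i‖ ^ 2 + ‖Y i‖ ^ 2) = 1 := by
    intro i hi
    simp only [hr]
    rw [inv_pow, Real.sq_sqrt (hN i hi).le]
    exact inv_mul_cancel₀ (hN i hi).ne'
  have hrn : ∀ i ∈ U, ∀ z : ℂ, ‖(r i : ℂ) * z‖ ^ 2 = (r i) ^ 2 * ‖z‖ ^ 2 := by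
    intro i hi z
    rw [norm_mul, Complex.norm_real, Real.norm_of_nonneg (hrpos i hi).le, mul_pow]
  refine ⟨fun i => if i ∈ U then (r i : ℂ) * X i else 1,
    fun i => if i ∈ U then (r i : ℂ) * Y i else 0, ?_, ?_, ?_, ?_, ?_⟩
  · intro i hi
    simp only [if_pos hi]
    have h1 := hcone i hi
    have h2 : (r i : ℂ) * X i * (starRingEnd ℂ) ((r i : ℂ) * Y i) =
        (((r i) ^ 2 : ℝ) : ℂ) * (x i * (starRingEnd ℂ) (y i)) := by
      simp only [hX, hY, map_mul, map_inv₀, Complex.conj_ofReal]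
      push_cast
      field_simp
    rw [h2, Complex.im_ofReal_mul]
    exact mul_pos (pow_pos (hrpos i hi) 2) h1
  · have h1 : E c U (fun i => if i ∈ U then (r i : ℂ) * X i else 1)
        (fun i => if i ∈ U then (r i : ℂ) * Y i else 0) 0 0 =
        E c U (fun i => (r i : ℂ) * X i) (fun i => (r i : ℂ) * Y i) 0 0 := by
      apply E_congr
      intro i hi
      simp only [if_pos hi, and_self]
    rw [h1, E_smul c U (fun i => (r i : ℂ)) X Y 0 0, E_dil c U (t : ℂ) htC x y, h0, mul_zero]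
  · intro i hi
    simp only [if_pos hi]
    rw [hrn i hi, hrn i hi, ← mul_add]
    exact hr2 i hi
  · rw [← hsum]
    apply Finset.sum_congr rfl
    intro i hi
    simp only [if_pos hi]
    rw [hrn i hi]
    rw [eq_div_iff (by exact (hN i hi).ne')]
    have := hr2 i hi
    calc (r i) ^ 2 * ‖X i‖ ^ 2 * (‖X i‖ ^ 2 + ‖Y i‖ ^ 2)
        = ((r i) ^ 2 * (‖X i‖ ^ 2 + ‖Y i‖ ^ 2)) * ‖X i‖ ^ 2 := by ring
      _ = ‖X i‖ ^ 2 := by rw [this, one_mul]
  · intro i
    by_cases hi : i ∈ U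
    · simp only [if_pos hi]
      have h3 : ‖(r i : ℂ) * X i‖ ^ 2 + ‖(r i : ℂ) * Y i‖ ^ 2 = 1 := by
        rw [hrn i hi, hrn i hi, ← mul_add]
        exact hr2 i hi
      have h4 := sq_nonneg ‖(r i : ℂ) * X i‖
      have h5 := sq_nonneg ‖(r i : ℂ) * Y i‖
      constructor
      · exact (sq_le_one_iff₀ (norm_nonneg _)).mp (by linarith)
      · exact (sq_le_one_iff₀ (norm_nonneg _)).mp (by linarith)
    · simp only [if_neg hi]
      simp

/-- a vector with `Im (X conj Y) = 0` is a multiple of a real vector -/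
theorem realrep (X Y : ℂ) (h : X ≠ 0 ∨ Y ≠ 0) (him : (X * (starRingEnd ℂ) Y).im = 0) :
    ∃ (lam : ℂ) (p q : ℝ), lam ≠ 0 ∧ (p ≠ 0 ∨ q ≠ 0) ∧ X = lam * p ∧ Y = lam * q := by
  by_cases hY : Y = 0
  · have hX : X ≠ 0 := by
      rcases h with h | h
      · exact h
      · exact absurd hY h
    exact ⟨X, 1, 0, hX, Or.inl one_ne_zero, by simp, by simp [hY]⟩
  · refine ⟨Y, (X / Y).re, 1, hY, Or.inr one_ne_zero, ?_, by simp⟩
    have h1 : (X / Y).im = 0 := by
      rw [div_eq_mul_inv, Complex.inv_def, ← mul_assoc, Complex.im_mul_ofReal, him, zero_mul]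
    have h2 : (((X / Y).re : ℝ) : ℂ) = X / Y := by
      apply Complex.ext
      · simp
      · simp [h1]
    rw [h2]
    field_simp

/-- half of the balance condition -/
theorem balance (U : Finset ℕ) (x : ℕ → ℂ) (h1 : ∀ i ∈ U, ‖x i‖ ^ 2 ≤ 1)
    (hs : ∑ i ∈ U, ‖x i‖ ^ 2 = (U.card : ℝ) / 2) :
    2 * (U.filter (fun i => x i = 0)).card ≤ U.card := by
  classical
  have h2 : ∑ i ∈ U, ‖x i‖ ^ 2 ≤ ((U.filter (fun i => ¬ x i = 0)).card : ℝ) := by
    rw [← Finset.sum_filter_add_sum_filter_not U (fun i => x i = 0) (fun i => ‖x i‖ ^ 2)]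
    have h3 : ∑ i ∈ U.filter (fun i => x i = 0), ‖x i‖ ^ 2 = 0 := by
      apply Finset.sum_eq_zero
      intro i hi
      rw [(Finset.mem_filter.mp hi).2]
      simp
    have h4 : ∑ i ∈ U.filter (fun i => ¬ x i = 0), ‖x i‖ ^ 2 ≤
        ∑ i ∈ U.filter (fun i => ¬ x i = 0), (1 : ℝ) :=
      Finset.sum_le_sum (fun i hi => h1 i (Finset.mem_filter.mp hi).1)
    rw [h3, zero_add]
    simpa using h4
  have h5 := Finset.card_filter_add_card_filter_not (s := U) (fun i => x i = 0)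
  have h6 : ((U.filter (fun i => x i = 0)).card : ℝ) +
      ((U.filter (fun i => ¬ x i = 0)).card : ℝ) = (U.card : ℝ) := by exact_mod_cast h5
  rw [hs] at h2
  have h7 : 2 * ((U.filter (fun i => x i = 0)).card : ℝ) ≤ (U.card : ℝ) := by linarith
  exact_mod_cast h7

/-- the decomposition along the real direction and its rotation -/
theorem decomp (X Y : ℂ) (p q : ℝ) (hpq : p ≠ 0 ∨ q ≠ 0)
    (ha : (X * p + Y * q) / ((p : ℂ) ^ 2 + (q : ℂ) ^ 2) ≠ 0)
    (him : 0 < (X * (starRingEnd ℂ) Y).im) :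
    let a := (X * p + Y * q) / ((p : ℂ) ^ 2 + (q : ℂ) ^ 2)
    let b := (X * q - Y * p) / ((p : ℂ) ^ 2 + (q : ℂ) ^ 2)
    0 < (b / a).im ∧ X = a * (p + b / a * q) ∧ Y = a * (q - b / a * p) := by
  intro a b
  have ha' : a ≠ 0 := ha
  have hpos : 0 < p ^ 2 + q ^ 2 := by
    rcases hpq with h | h
    · positivity
    · positivity
  have hC : ((p : ℂ) ^ 2 + (q : ℂ) ^ 2) ≠ 0 := by
    have : (((p ^ 2 + q ^ 2 : ℝ)) : ℂ) ≠ 0 := by exact_mod_cast hpos.ne'
    push_cast at this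
    exact this
  have hX : X = a * p + b * q := by
    simp only [a, b]
    field_simp
    ring
  have hY : Y = a * q - b * p := by
    simp only [a, b]
    field_simp
    ring
  have h1 : (X * (starRingEnd ℂ) Y).im = (b * (starRingEnd ℂ) a).im * (p ^ 2 + q ^ 2) := by
    rw [hX, hY]
    simp only [map_sub, map_mul, Complex.conj_ofReal, Complex.mul_im, Complex.mul_re,
      Complex.sub_im, Complex.sub_re, Complex.add_im, Complex.add_re, Complex.conj_re,
      Complex.conj_im, Complex.ofReal_re, Complex.ofReal_im]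
    ring
  have h2 : 0 < (b * (starRingEnd ℂ) a).im := by
    rw [h1] at him
    exact (mul_pos_iff_of_pos_right hpos).mp him
  have h3 : (b / a).im = (b * (starRingEnd ℂ) a).im * (Complex.normSq a)⁻¹ := by
    rw [div_eq_mul_inv, Complex.inv_def, ← mul_assoc, Complex.im_mul_ofReal]
  refine ⟨?_, ?_, ?_⟩
  · rw [h3]
    exact mul_pos h2 (inv_pos.mpr (Complex.normSq_pos.mpr ha'))
  · have : a * (p + b / a * q) = a * p + b * q := by
      field_simp
    rw [this]; exact hX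
  · have : a * (q - b / a * p) = a * q - b * p := by
      field_simp
    rw [this]; exact hY

end TA13

open TA13

theorem A13 (h12 : A12_closed) (ha : A13a_cont) (hb : A13b_local) (hc : A13c_norm) :
    A13_open := by
  classical
  intro c hc1 U hU hstab hstrict
  by_contra hcon
  push Not at hcon
  -- the sequence
  have hseq : ∀ n : ℕ, ∃ (c' : ℝ) (x y : ℕ → ℂ), |c' - c| < 1 / ((n : ℝ) + 1) ∧ 1 ≤ c' ∧
      Cone U x y ∧ E c' U x y 0 0 = 0 ∧ (∀ i ∈ U, ‖x i‖ ^ 2 + ‖y i‖ ^ 2 = 1) ∧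
      (∑ i ∈ U, ‖x i‖ ^ 2 = (U.card : ℝ) / 2) ∧ (∀ i, ‖x i‖ ≤ 1 ∧ ‖y i‖ ≤ 1) := by
    intro n
    obtain ⟨c', h1, h2, h3⟩ := hcon (1 / ((n : ℝ) + 1)) (by positivity)
    unfold Stab at h3
    push Not at h3
    obtain ⟨x, y, hcone, h0⟩ := h3
    obtain ⟨x', y', h4, h5, h6, h7, h8⟩ := normal hc c' U hU x y hcone h0
    exact ⟨c', x', y', h1, h2, h4, h5, h6, h7, h8⟩
  choose cn xn yn hcn hcn1 hcone hzero hnorm hsum hbd using hseq
  -- compactness
  have hK : IsCompact ((Set.univ.pi (fun _ : ℕ => Metric.closedBall (0 : ℂ) 1)) ×ˢ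
      (Set.univ.pi (fun _ : ℕ => Metric.closedBall (0 : ℂ) 1))) :=
    (isCompact_univ_pi (fun _ => isCompact_closedBall _ _)).prod
      (isCompact_univ_pi (fun _ => isCompact_closedBall _ _))
  obtain ⟨⟨xs, ys⟩, -, φ, hφ, hlim⟩ := hK.tendsto_subseq (x := fun n => (xn n, yn n)) (by
    intro n
    refine ⟨?_, ?_⟩
    · intro i _
      simpa using (hbd n i).1
    · intro i _
      simpa using (hbd n i).2)
  have hlimx : ∀ i, Tendsto (fun n => xn (φ n) i) atTop (𝓝 (xs i)) := by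
    intro i
    have h1 : Tendsto (fun n => xn (φ n)) atTop (𝓝 xs) :=
      (continuous_fst.tendsto _).comp hlim
    exact (tendsto_pi_nhds.mp h1) i
  have hlimy : ∀ i, Tendsto (fun n => yn (φ n) i) atTop (𝓝 (ys i)) := by
    intro i
    have h1 : Tendsto (fun n => yn (φ n)) atTop (𝓝 ys) :=
      (continuous_snd.tendsto _).comp hlim
    exact (tendsto_pi_nhds.mp h1) i
  have hlimc : Tendsto (fun n => cn (φ n)) atTop (𝓝 c) := by
    have h1 : Tendsto cn atTop (𝓝 c) := by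
      rw [tendsto_iff_dist_tendsto_zero]
      apply squeeze_zero (fun n => dist_nonneg) (fun n => ?_)
        tendsto_one_div_add_atTop_nhds_zero_nat
      rw [Real.dist_eq]
      exact (hcn n).le
    exact h1.comp hφ.tendsto_atTop
  -- properties of the limit
  have hnorms : ∀ i ∈ U, ‖xs i‖ ^ 2 + ‖ys i‖ ^ 2 = 1 := by
    intro i hi
    have h1 : Tendsto (fun n => ‖xn (φ n) i‖ ^ 2 + ‖yn (φ n) i‖ ^ 2) atTop
        (𝓝 (‖xs i‖ ^ 2 + ‖ys i‖ ^ 2)) := ((hlimx i).norm.pow 2).add ((hlimy i).norm.pow 2)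
    have h2 : (fun n => ‖xn (φ n) i‖ ^ 2 + ‖yn (φ n) i‖ ^ 2) = fun _ => (1 : ℝ) := by
      funext n
      exact hnorm (φ n) i hi
    rw [h2] at h1
    exact (tendsto_nhds_unique h1 tendsto_const_nhds)
  have hsums : ∑ i ∈ U, ‖xs i‖ ^ 2 = (U.card : ℝ) / 2 := by
    have h1 : Tendsto (fun n => ∑ i ∈ U, ‖xn (φ n) i‖ ^ 2) atTop (𝓝 (∑ i ∈ U, ‖xs i‖ ^ 2)) :=
      tendsto_finsetSum U (fun i _ => (hlimx i).norm.pow 2)
    have h2 : (fun n => ∑ i ∈ U, ‖xn (φ n) i‖ ^ 2) = fun _ => (U.card : ℝ) / 2 := by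
      funext n
      exact hsum (φ n)
    rw [h2] at h1
    exact (tendsto_nhds_unique h1 tendsto_const_nhds)
  have hsumy : ∑ i ∈ U, ‖ys i‖ ^ 2 = (U.card : ℝ) / 2 := by
    have h1 : ∑ i ∈ U, (‖xs i‖ ^ 2 + ‖ys i‖ ^ 2) = (U.card : ℝ) := by
      rw [Finset.sum_congr rfl hnorms]
      simp
    rw [Finset.sum_add_distrib, hsums] at h1
    linarith
  have him : ∀ i ∈ U, 0 ≤ (xs i * (starRingEnd ℂ) (ys i)).im := by
    intro i hi
    have h1 : Tendsto (fun n => (xn (φ n) i * (starRingEnd ℂ) (yn (φ n) i)).im) atTop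
        (𝓝 ((xs i * (starRingEnd ℂ) (ys i)).im)) := by
      apply (Complex.continuous_im.tendsto _).comp
      exact (hlimx i).mul ((Complex.continuous_conj.tendsto _).comp (hlimy i))
    exact ge_of_tendsto h1 (Eventually.of_forall (fun n => (hcone (φ n) i hi).le))
  have hE : E c U xs ys 0 0 = 0 := by
    have hcpos : (0 : ℝ) < c := by linarith
    have h1 := ha U 0 0 (c, xs, ys) hcpos
    have h2 : Tendsto (fun n => ((cn (φ n), xn (φ n), yn (φ n)) : ℝ × (ℕ → ℂ) × (ℕ → ℂ))) atTop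
        (𝓝[{p : ℝ × (ℕ → ℂ) × (ℕ → ℂ) | 0 < p.1}] (c, xs, ys)) := by
      rw [tendsto_nhdsWithin_iff]
      refine ⟨?_, Eventually.of_forall (fun n => ?_)⟩
      · exact hlimc.prodMk_nhds hlim
      · show (0 : ℝ) < cn (φ n)
        linarith [hcn1 (φ n)]
    have h3 := h1.tendsto.comp h2
    have h4 : ((fun p : ℝ × (ℕ → ℂ) × (ℕ → ℂ) => E p.1 U p.2.1 p.2.2 0 0) ∘
        fun n => ((cn (φ n), xn (φ n), yn (φ n)) : ℝ × (ℕ → ℂ) × (ℕ → ℂ))) =
        fun _ => (0 : ℂ) := by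
      funext n
      exact hzero (φ n)
    rw [h4] at h3
    exact (tendsto_nhds_unique h3 tendsto_const_nhds)
  have hne : ∀ i ∈ U, xs i ≠ 0 ∨ ys i ≠ 0 := by
    intro i hi
    by_contra h
    push Not at h
    have := hnorms i hi
    rw [h.1, h.2] at this
    simp at this
  have hbalx := balance U xs (fun i hi => by
    have := hnorms i hi
    have h5 := sq_nonneg ‖ys i‖
    linarith) hsums
  have hbaly := balance U ys (fun i hi => by
    have := hnorms i hi
    have h5 := sq_nonneg ‖xs i‖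
    linarith) hsumy
  have him0 : ∀ i ∈ U, (xs i * (starRingEnd ℂ) (ys i)).im = 0 := by
    intro i hi
    by_contra h
    have h1 : 0 < (xs i * (starRingEnd ℂ) (ys i)).im := lt_of_le_of_ne (him i hi) (Ne.symm h)
    exact h12 c hc1 U hstab hstrict xs ys (fun j hj => ⟨hne j hj, him j hj⟩) hbalx hbaly
      ⟨i, hi, h1⟩ hE
  -- real representation
  have hrep : ∀ i : ℕ, ∃ (lam : ℂ) (p q : ℝ), lam ≠ 0 ∧ (p ≠ 0 ∨ q ≠ 0) ∧
      (i ∈ U → xs i = lam * p ∧ ys i = lam * q) := by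
    intro i
    by_cases hi : i ∈ U
    · obtain ⟨lam, p, q, h1, h2, h3, h4⟩ := realrep (xs i) (ys i) (hne i hi) (him0 i hi)
      exact ⟨lam, p, q, h1, h2, fun _ => ⟨h3, h4⟩⟩
    · exact ⟨1, 1, 1, one_ne_zero, Or.inl one_ne_zero, fun h => absurd h hi⟩
  choose lam p q hlam hpq hrep using hrep
  have hEpq : E c U p q 0 0 = 0 := by
    have h1 : E c U xs ys 0 0 = E c U (fun i => lam i * (p i : ℂ)) (fun i => lam i * (q i : ℂ))
        0 0 := by
      apply E_congr
      intro i hi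
      exact hrep i hi
    rw [h1, E_smul c U lam (fun i => (p i : ℂ)) (fun i => (q i : ℂ)) 0 0, E_ofReal] at hE
    rcases mul_eq_zero.mp hE with h2 | h2
    · rw [Finset.prod_eq_zero_iff] at h2
      obtain ⟨i, _, h3⟩ := h2
      exact absurd h3 (pow_ne_zero 2 (hlam i))
    · exact_mod_cast h2
  have hBal : Bal U p q := by
    refine ⟨fun i _ => hpq i, ?_, ?_⟩
    · have h1 : U.filter (fun i => p i = 0) = U.filter (fun i => xs i = 0) := by
        apply Finset.filter_congr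
        intro i hi
        rw [(hrep i hi).1]
        simp [hlam i]
      rw [h1]; exact hbalx
    · have h1 : U.filter (fun i => q i = 0) = U.filter (fun i => ys i = 0) := by
        apply Finset.filter_congr
        intro i hi
        rw [(hrep i hi).2]
        simp [hlam i]
      rw [h1]; exact hbaly
  obtain ⟨δ, hδ, hloc⟩ := hb c hc1 U hU p q (hstrict p q hBal hEpq)
  -- the perturbation
  set A : ℕ → ℕ → ℂ := fun n i => ((xn (φ n) i / lam i) * p i + (yn (φ n) i / lam i) * q i) /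
    ((p i : ℂ) ^ 2 + (q i : ℂ) ^ 2) with hA
  set B : ℕ → ℕ → ℂ := fun n i => ((xn (φ n) i / lam i) * q i - (yn (φ n) i / lam i) * p i) /
    ((p i : ℂ) ^ 2 + (q i : ℂ) ^ 2) with hB
  have hC : ∀ i, ((p i : ℂ) ^ 2 + (q i : ℂ) ^ 2) ≠ 0 := by
    intro i
    have hpos : 0 < (p i) ^ 2 + (q i) ^ 2 := by
      rcases hpq i with h | h
      · positivity
      · positivity
    have : ((((p i) ^ 2 + (q i) ^ 2 : ℝ)) : ℂ) ≠ 0 := by exact_mod_cast hpos.ne'
    push_cast at this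
    exact this
  have hAlim : ∀ i ∈ U, Tendsto (fun n => A n i) atTop (𝓝 1) := by
    intro i hi
    have h1 : Tendsto (fun n => A n i) atTop
        (𝓝 (((xs i / lam i) * p i + (ys i / lam i) * q i) / ((p i : ℂ) ^ 2 + (q i : ℂ) ^ 2))) :=
      ((((hlimx i).div_const _).mul_const _).add (((hlimy i).div_const _).mul_const _)).div_const _
    have h2 : ((xs i / lam i) * p i + (ys i / lam i) * q i) / ((p i : ℂ) ^ 2 + (q i : ℂ) ^ 2)
        = 1 := by
      rw [(hrep i hi).1, (hrep i hi).2, mul_div_cancel_left₀ _ (hlam i),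
        mul_div_cancel_left₀ _ (hlam i)]
      rw [div_eq_one_iff_eq (hC i)]
      ring
    rwa [h2] at h1
  have hBlim : ∀ i ∈ U, Tendsto (fun n => B n i) atTop (𝓝 0) := by
    intro i hi
    have h1 : Tendsto (fun n => B n i) atTop
        (𝓝 (((xs i / lam i) * q i - (ys i / lam i) * p i) / ((p i : ℂ) ^ 2 + (q i : ℂ) ^ 2))) :=
      ((((hlimx i).div_const _).mul_const _).sub (((hlimy i).div_const _).mul_const _)).div_const _
    have h2 : ((xs i / lam i) * q i - (ys i / lam i) * p i) / ((p i : ℂ) ^ 2 + (q i : ℂ) ^ 2)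
        = 0 := by
      rw [(hrep i hi).1, (hrep i hi).2, mul_div_cancel_left₀ _ (hlam i),
        mul_div_cancel_left₀ _ (hlam i)]
      rw [div_eq_zero_iff]
      left
      ring
    rwa [h2] at h1
  have hTlim : ∀ i ∈ U, Tendsto (fun n => B n i / A n i) atTop (𝓝 0) := by
    intro i hi
    have h5 : Tendsto (fun n => B n i / A n i) atTop (𝓝 (0 / 1)) :=
      (hBlim i hi).div (hAlim i hi) one_ne_zero
    rwa [zero_div] at h5
  have hev : ∀ᶠ n in atTop, |cn (φ n) - c| < δ ∧ ∀ i ∈ U, ‖B n i / A n i‖ < δ ∧ A n i ≠ 0 := by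
    have h1 : ∀ᶠ n in atTop, |cn (φ n) - c| < δ := by
      have := Metric.tendsto_nhds.mp hlimc δ hδ
      simpa [Real.dist_eq] using this
    have h2 : ∀ᶠ n in atTop, ∀ i ∈ U, ‖B n i / A n i‖ < δ ∧ A n i ≠ 0 := by
      rw [Filter.eventually_all_finset]
      intro i hi
      have h3 : ∀ᶠ n in atTop, ‖B n i / A n i‖ < δ := by
        have := Metric.tendsto_nhds.mp (hTlim i hi) δ hδ
        simpa [dist_zero_right] using this
      have h4 : ∀ᶠ n in atTop, A n i ≠ 0 := (hAlim i hi).eventually_ne one_ne_zero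
      exact h3.and h4
    exact h1.and h2
  obtain ⟨n, hn1, hn2⟩ := hev.exists
  have hdec : ∀ i ∈ U, 0 < (B n i / A n i).im ∧
      xn (φ n) i = (lam i * A n i) * ((p i : ℂ) + B n i / A n i * q i) ∧
      yn (φ n) i = (lam i * A n i) * ((q i : ℂ) - B n i / A n i * p i) := by
    intro i hi
    have h1 : 0 < ((xn (φ n) i / lam i) * (starRingEnd ℂ) (yn (φ n) i / lam i)).im := by
      have h2 : (xn (φ n) i / lam i) * (starRingEnd ℂ) (yn (φ n) i / lam i) =
          (((Complex.normSq (lam i))⁻¹ : ℝ) : ℂ) * (xn (φ n) i * (starRingEnd ℂ) (yn (φ n) i)) := by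
        rw [map_div₀, Complex.ofReal_inv, Complex.normSq_eq_conj_mul_self]
        have h5 : (starRingEnd ℂ) (lam i) ≠ 0 := by
          rw [Ne, map_eq_zero]; exact hlam i
        have h6 := hlam i
        field_simp
      rw [h2, Complex.im_ofReal_mul]
      exact mul_pos (inv_pos.mpr (Complex.normSq_pos.mpr (hlam i))) (hcone (φ n) i hi)
    have h3 := decomp (xn (φ n) i / lam i) (yn (φ n) i / lam i) (p i) (q i) (hpq i)
      (hn2 i hi).2 h1
    refine ⟨h3.1, ?_, ?_⟩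
    · rw [mul_assoc]
      have h4 := h3.2.1
      rw [div_eq_iff (hlam i)] at h4
      rw [mul_comm (lam i)]
      exact h4
    · rw [mul_assoc]
      have h4 := h3.2.2
      rw [div_eq_iff (hlam i)] at h4
      rw [mul_comm (lam i)]
      exact h4
  have hfin := hloc (cn (φ n)) hn1 (fun i => B n i / A n i)
    (fun i hi => ⟨(hn2 i hi).1, (hdec i hi).1⟩)
  apply hfin
  have h1 : E (cn (φ n)) U (xn (φ n)) (yn (φ n)) 0 0 =
      E (cn (φ n)) U (fun i => (lam i * A n i) * ((p i : ℂ) + B n i / A n i * q i))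
        (fun i => (lam i * A n i) * ((q i : ℂ) - B n i / A n i * p i)) 0 0 := by
    apply E_congr
    intro i hi
    exact (hdec i hi).2
  have h2 := hzero (φ n)
  rw [h1, E_smul (cn (φ n)) U (fun i => lam i * A n i)] at h2
  rcases mul_eq_zero.mp h2 with h3 | h3
  · rw [Finset.prod_eq_zero_iff] at h3
    obtain ⟨i, hi, h4⟩ := h3
    exact absurd h4 (pow_ne_zero 2 (mul_ne_zero (hlam i) (hn2 i hi).2))
  · exact h3

end Pool.Agent.H576.FK
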