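import Pool.Agent.H576.FK.Stmts

set_option autoImplicit false

open scoped BigOperators
open Finset

namespace Pool.Agent.H576.FK

namespace TA13a

theorem mu_cont (j : ℕ) : ContinuousOn (fun c : ℝ => mu c j) {c : ℝ | 0 < c} := by
  induction j with
  | zero => simp only [mu]; exact continuousOn_const
  | succ j ih =>
    simp only [mu]
    apply ih.mul
    apply ContinuousOn.div continuousOn_const (by fun_prop)
    intro c hc
    have hc' : (0 : ℝ) < c := hc
    positivity

end TA13a

theorem A13a : A13a_cont := by
  intro U
  induction U using Finset.induction_on with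
  | empty =>
    intro a b
    simp only [E_empty]
    by_cases h : a = b
    · simp only [h, if_true]
      have h1 : ContinuousOn (fun p : ℝ × (ℕ → ℂ) × (ℕ → ℂ) => mu p.1 b)
          {p : ℝ × (ℕ → ℂ) × (ℕ → ℂ) | 0 < p.1} :=
        (TA13a.mu_cont b).comp continuous_fst.continuousOn (fun p hp => hp)
      exact Complex.continuous_ofReal.comp_continuousOn h1
    · simp only [h, if_false]; exact continuousOn_const
  | insert i U hi ih =>
    intro a b
    simp only [E_insert _ _ _ _ _ _ i hi]
    have hx : ContinuousOn (fun p : ℝ × (ℕ → ℂ) × (ℕ → ℂ) => p.2.1 i)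
        {p : ℝ × (ℕ → ℂ) × (ℕ → ℂ) | 0 < p.1} := by
      apply Continuous.continuousOn
      exact (continuous_apply i).comp (continuous_fst.comp continuous_snd)
    have hy : ContinuousOn (fun p : ℝ × (ℕ → ℂ) × (ℕ → ℂ) => p.2.2 i)
        {p : ℝ × (ℕ → ℂ) × (ℕ → ℂ) | 0 < p.1} := by
      apply Continuous.continuousOn
      exact (continuous_apply i).comp (continuous_snd.comp continuous_snd)
    exact (((hx.pow 2).mul (ih (a + 1) b)).add
      (((continuousOn_const.mul hx).mul hy).mul (ih a b))).add
      ((hy.pow 2).mul (ih a (b + 1)))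

end Pool.Agent.H576.FK
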