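import Mathlib
import Pool.Agent.H576.FK.Stmts

/-!
# Fisk's conjecture: task A13b (local statement near a real point)
-/

set_option autoImplicit false

open scoped BigOperators Topology
open Finset Filter

namespace Pool.Agent.H576.FK

namespace TA13b

/-- moved first coordinates -/
noncomputable def mx (x y : ℕ → ℝ) (s : ℕ → ℂ) : ℕ → ℂ := fun i => (x i : ℂ) + s i * y i

/-- moved second coordinates -/
noncomputable def my (x y : ℕ → ℝ) (s : ℕ → ℂ) : ℕ → ℂ := fun i => (y i : ℂ) - s i * x i

/-- the difference quotient -/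
noncomputable def F (U : Finset ℕ) (x y : ℕ → ℝ) (i : ℕ) (c : ℝ) (s : ℕ → ℂ) (h : ℂ) : ℂ :=
  (2 * mx x y s i * y i * E c (U.erase i) (mx x y s) (my x y s) 1 0
   + 2 * ((y i : ℂ) * my x y s i - mx x y s i * x i) *
      E c (U.erase i) (mx x y s) (my x y s) 0 0
   - 2 * my x y s i * x i * E c (U.erase i) (mx x y s) (my x y s) 0 1)
  + h * ((y i : ℂ) ^ 2 * E c (U.erase i) (mx x y s) (my x y s) 1 0
     - 2 * x i * y i * E c (U.erase i) (mx x y s) (my x y s) 0 0
     + (x i : ℂ) ^ 2 * E c (U.erase i) (mx x y s) (my x y s) 0 1)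

theorem step (U : Finset ℕ) (x y : ℕ → ℝ) (i : ℕ) (hi : i ∈ U) (c : ℝ) (s s' : ℕ → ℂ) (h : ℂ)
    (hs : ∀ j, j ≠ i → s' j = s j) (hsi : s' i = s i + h) :
    E c U (mx x y s') (my x y s') 0 0 = E c U (mx x y s) (my x y s) 0 0 + h * F U x y i c s h := by
  have hE : ∀ a b : ℕ, E c (U.erase i) (mx x y s') (my x y s') a b =
      E c (U.erase i) (mx x y s) (my x y s) a b := by
    intro a b
    apply E_congr
    intro j hj
    have hji : j ≠ i := (Finset.mem_erase.mp hj).1
    simp only [mx, my, hs j hji, and_self]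
  rw [E_erase c U (mx x y s') (my x y s') 0 0 i hi, E_erase c U (mx x y s) (my x y s) 0 0 i hi,
    hE, hE, hE, F]
  have h1 : mx x y s' i = mx x y s i + h * y i := by simp only [mx, hsi]; ring
  have h2 : my x y s' i = my x y s i - h * x i := by simp only [my, hsi]; ring
  rw [h1, h2]
  ring

/-- extension by zero -/
noncomputable def ext (U : Finset ℕ) (z : U → ℂ) : ℕ → ℂ :=
  fun i => if h : i ∈ U then z ⟨i, h⟩ else 0

theorem continuous_ext (U : Finset ℕ) : Continuous (ext U) := by
  apply continuous_pi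
  intro i
  by_cases h : i ∈ U
  · simp only [ext, h, dif_pos]
    exact continuous_apply _
  · simp only [ext, h]
    exact continuous_const

theorem ext_zero (U : Finset ℕ) : ext U 0 = 0 := by
  funext i
  simp [ext]

theorem continuousAt_E (hc : A13a_cont) (U V : Finset ℕ) (x y : ℕ → ℝ) (a b : ℕ) (c : ℝ)
    (hc0 : 0 < c) :
    ContinuousAt (fun p : ℝ × (U → ℂ) × ℂ => E p.1 V (mx x y (ext U p.2.1))
      (my x y (ext U p.2.1)) a b) (c, 0, 0) := by
  have h1 : Continuous (fun p : ℝ × (U → ℂ) × ℂ =>
      ((p.1, mx x y (ext U p.2.1), my x y (ext U p.2.1)) : ℝ × (ℕ → ℂ) × (ℕ → ℂ))) := by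
    have he : ∀ i : ℕ, Continuous (fun p : ℝ × (U → ℂ) × ℂ => ext U p.2.1 i) := fun i =>
      (continuous_apply i).comp ((continuous_ext U).comp (continuous_fst.comp continuous_snd))
    refine continuous_fst.prodMk (Continuous.prodMk ?_ ?_)
    · apply continuous_pi
      intro i
      simp only [mx]
      exact continuous_const.add ((he i).mul continuous_const)
    · apply continuous_pi
      intro i
      simp only [my]
      exact continuous_const.sub ((he i).mul continuous_const)
  have h2 : ContinuousAt (fun p : ℝ × (ℕ → ℂ) × (ℕ → ℂ) => E p.1 V p.2.1 p.2.2 a b)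
      (c, mx x y (ext U 0), my x y (ext U 0)) := by
    apply (hc V a b).continuousAt
    apply IsOpen.mem_nhds
    · exact isOpen_lt continuous_const continuous_fst
    · exact hc0
  exact ContinuousAt.comp (f := fun p : ℝ × (U → ℂ) × ℂ =>
      ((p.1, mx x y (ext U p.2.1), my x y (ext U p.2.1)) : ℝ × (ℕ → ℂ) × (ℕ → ℂ)))
      (x := (c, 0, 0)) h2 h1.continuousAt

theorem continuousAt_F (hc : A13a_cont) (U : Finset ℕ) (x y : ℕ → ℝ) (i : ℕ) (c : ℝ)
    (hc0 : 0 < c) :
    ContinuousAt (fun p : ℝ × (U → ℂ) × ℂ => F U x y i p.1 (ext U p.2.1) p.2.2) (c, 0, 0) := by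
  have he : ∀ i : ℕ, Continuous (fun p : ℝ × (U → ℂ) × ℂ => ext U p.2.1 i) := fun i =>
    (continuous_apply i).comp ((continuous_ext U).comp (continuous_fst.comp continuous_snd))
  have hX : ContinuousAt (fun p : ℝ × (U → ℂ) × ℂ => mx x y (ext U p.2.1) i) (c, 0, 0) := by
    simp only [mx]
    exact (continuous_const.add ((he i).mul continuous_const)).continuousAt
  have hY : ContinuousAt (fun p : ℝ × (U → ℂ) × ℂ => my x y (ext U p.2.1) i) (c, 0, 0) := by
    simp only [my]
    exact (continuous_const.sub ((he i).mul continuous_const)).continuousAt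
  have hh : ContinuousAt (fun p : ℝ × (U → ℂ) × ℂ => p.2.2) (c, 0, 0) :=
    (continuous_snd.comp continuous_snd).continuousAt
  have h1 := continuousAt_E hc U (U.erase i) x y 1 0 c hc0
  have h2 := continuousAt_E hc U (U.erase i) x y 0 0 c hc0
  have h3 := continuousAt_E hc U (U.erase i) x y 0 1 c hc0
  unfold F
  refine ContinuousAt.add (ContinuousAt.sub (ContinuousAt.add ?_ ?_) ?_) (hh.mul ?_)
  · exact ((continuousAt_const.mul hX).mul continuousAt_const).mul h1
  · exact (continuousAt_const.mul ((continuousAt_const.mul hY).sub (hX.mul continuousAt_const))).mul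
      h2
  · exact ((continuousAt_const.mul hY).mul continuousAt_const).mul h3
  · exact ((continuousAt_const.mul h1).sub (continuousAt_const.mul h2)).add
      (continuousAt_const.mul h3)

theorem F_zero (U : Finset ℕ) (x y : ℕ → ℝ) (i : ℕ) (c : ℝ) :
    F U x y i c 0 0 = ((Dr c U x y i : ℝ) : ℂ) := by
  have hx : mx x y 0 = fun i => (x i : ℂ) := by funext i; simp [mx]
  have hy : my x y 0 = fun i => (y i : ℂ) := by funext i; simp [my]
  rw [F, hx, hy, E_ofReal, E_ofReal, E_ofReal, Dr]
  push_cast
  ring

theorem main (hc : A13a_cont) (ε : ℝ) (c : ℝ) (hc0 : 0 < c) (U : Finset ℕ) (hU : U.Nonempty)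
    (x y : ℕ → ℝ) (hD : ∀ i ∈ U, 0 < ε * Dr c U x y i) :
    ∃ δ > 0, ∀ c' : ℝ, |c' - c| < δ → ∀ t : ℕ → ℂ, (∀ i ∈ U, ‖t i‖ < δ ∧ 0 < (t i).im) →
      E c' U (mx x y t) (my x y t) 0 0 ≠ 0 := by
  have hev : ∀ᶠ p : ℝ × (U → ℂ) × ℂ in 𝓝 (c, 0, 0), ∀ i ∈ U,
      0 < ε * (F U x y i p.1 (ext U p.2.1) p.2.2).re := by
    rw [Filter.eventually_all_finset]
    intro i hi
    have h1 : ContinuousAt (fun p : ℝ × (U → ℂ) × ℂ =>
        ε * (F U x y i p.1 (ext U p.2.1) p.2.2).re) (c, 0, 0) :=
      continuousAt_const.mul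
        (ContinuousAt.comp (f := fun p : ℝ × (U → ℂ) × ℂ => F U x y i p.1 (ext U p.2.1) p.2.2)
          Complex.continuous_re.continuousAt (continuousAt_F hc U x y i c hc0))
    have h2 : 0 < ε * (F U x y i c (ext U 0) 0).re := by
      rw [ext_zero, F_zero, Complex.ofReal_re]
      exact hD i hi
    exact h1.eventually (lt_mem_nhds h2)
  rw [Metric.eventually_nhds_iff] at hev
  obtain ⟨δ, hδ, hev⟩ := hev
  refine ⟨δ, hδ, ?_⟩
  intro c' hc' t ht
  -- the interpolating configurations
  set T : Finset ℕ → ℕ → ℂ := fun W i => if i ∈ U then (if i ∈ W then t i else ((t i).re : ℂ))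
    else 0 with hT
  have hTn : ∀ W : Finset ℕ, ∀ i ∈ U, ‖T W i‖ < δ := by
    intro W i hi
    simp only [hT, hi, if_true]
    split_ifs
    · exact (ht i hi).1
    · rw [Complex.norm_real]
      exact lt_of_le_of_lt (Complex.abs_re_le_norm _) (ht i hi).1
  have hTe : ∀ W : Finset ℕ, ext U (fun j : U => T W j) = T W := by
    intro W
    funext i
    by_cases h : i ∈ U
    · simp [ext, h]
    · simp [ext, h, hT]
  have key : ∀ W : Finset ℕ, W ⊆ U →
      (0 ≤ ε * (E c' U (mx x y (T W)) (my x y (T W)) 0 0).im) ∧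
      (W.Nonempty → 0 < ε * (E c' U (mx x y (T W)) (my x y (T W)) 0 0).im) := by
    intro W
    induction W using Finset.induction_on with
    | empty =>
      intro _
      refine ⟨?_, fun h => absurd h Finset.not_nonempty_empty⟩
      have h0 : E c' U (mx x y (T ∅)) (my x y (T ∅)) 0 0 =
          E c' U (fun i => ((x i + (t i).re * y i : ℝ) : ℂ))
            (fun i => ((y i - (t i).re * x i : ℝ) : ℂ)) 0 0 := by
        apply E_congr
        intro i hi
        simp [mx, my, hT, hi]
      rw [h0, E_ofReal, Complex.ofReal_im, mul_zero]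
    | insert i W hiW ih =>
      intro hW
      have hi : i ∈ U := hW (Finset.mem_insert_self i W)
      have hWU : W ⊆ U := fun j hj => hW (Finset.mem_insert_of_mem hj)
      have ih0 := (ih hWU).1
      have hst := step U x y i hi c' (T W) (T (insert i W)) (Complex.I * (t i).im)
        (by
          intro j hj
          simp only [hT, Finset.mem_insert, hj, false_or])
        (by
          simp only [hT, hi, if_true, hiW, if_false, Finset.mem_insert_self]
          rw [mul_comm]
          exact (Complex.re_add_im (t i)).symm)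
      have hR : 0 < ε * (F U x y i c' (T W) (Complex.I * (t i).im)).re := by
        have h3 := hev (y := (c', (fun j : U => T W j), Complex.I * (t i).im)) (by
          rw [Prod.dist_eq, Prod.dist_eq]
          refine max_lt ?_ (max_lt ?_ ?_)
          · rw [Real.dist_eq]; exact hc'
          · rw [dist_pi_lt_iff hδ]
            intro j
            simp only [Pi.zero_apply, dist_zero_right]
            exact hTn W j j.2
          · simp only [dist_zero_right, norm_mul, Complex.norm_I, one_mul, Complex.norm_real]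
            exact lt_of_le_of_lt (Complex.abs_im_le_norm _) (ht i hi).1) i hi
        simp only [hTe] at h3
        exact h3
      have him : (Complex.I * (t i).im * F U x y i c' (T W) (Complex.I * (t i).im)).im =
          (t i).im * (F U x y i c' (T W) (Complex.I * (t i).im)).re := by
        simp [Complex.mul_im, Complex.mul_re]
      have hpos : 0 < ε * (E c' U (mx x y (T (insert i W))) (my x y (T (insert i W))) 0 0).im := by
        rw [hst, Complex.add_im, him]
        have h4 : 0 < (t i).im * (ε * (F U x y i c' (T W) (Complex.I * (t i).im)).re) :=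
          mul_pos (ht i hi).2 hR
        nlinarith [ih0, h4]
      exact ⟨hpos.le, fun _ => hpos⟩
  have hfin := (key U (Finset.Subset.refl U)).2 hU
  have hTU : E c' U (mx x y (T U)) (my x y (T U)) 0 0 = E c' U (mx x y t) (my x y t) 0 0 := by
    apply E_congr
    intro i hi
    simp [mx, my, hT, hi]
  rw [hTU] at hfin
  intro h0
  rw [h0] at hfin
  simp at hfin

end TA13b

theorem A13b (hc : A13a_cont) : A13b_local := by
  intro c hc1 U hU x y hD
  rcases hD with hD | hD
  · exact TA13b.main hc 1 c (by linarith) U hU x y (fun i hi => by linarith [hD i hi])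
  · exact TA13b.main hc (-1) c (by linarith) U hU x y (fun i hi => by linarith [hD i hi])

end Pool.Agent.H576.FK
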