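import Mathlib
import Pool.Agent.H576.FK.Stmts

/-!
# Fisk's conjecture, task A14: closedness of the set of good parameters
-/

set_option autoImplicit false

open scoped BigOperators
open Finset Filter Topology

namespace Pool.Agent.H576.FK

attribute [local irreducible] E E2 L

theorem A14_key (h7 : A07_quad) (ha : A13a_cont) (c : ℝ) (hc : 1 ≤ c) (U : Finset ℕ)
    (H : ∀ δ > 0, ∃ c' : ℝ, 1 ≤ c' ∧ |c' - c| < δ ∧ Stab c' U) (x y : ℕ → ℂ)
    (hxy : Cone U x y) (j : ℕ) (hj : j ∈ U) (h0 : E c U x y 0 0 = 0) :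
    E c (U.erase j) x y 1 0 = 0 ∧ E c (U.erase j) x y 0 0 = 0 ∧ E c (U.erase j) x y 0 1 = 0 := by
  classical
  -- the sequence of good parameters
  have hseq : ∀ n : ℕ, ∃ c' : ℝ, 1 ≤ c' ∧ |c' - c| < 1 / ((n : ℝ) + 1) ∧ Stab c' U := by
    intro n
    exact H _ (by positivity)
  choose cn hcn1 hcn2 hcn3 using hseq
  have hlim : Tendsto cn atTop (𝓝 c) := by
    rw [tendsto_iff_dist_tendsto_zero]
    apply squeeze_zero (fun n => dist_nonneg) (fun n => ?_) tendsto_one_div_add_atTop_nhds_zero_nat
    rw [Real.dist_eq]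
    exact (hcn2 n).le
  -- continuity
  have hcont : ∀ a b : ℕ, Tendsto (fun n => E (cn n) (U.erase j) x y a b) atTop
      (𝓝 (E c (U.erase j) x y a b)) := by
    intro a b
    have hca : ContinuousAt (fun p : ℝ × (ℕ → ℂ) × (ℕ → ℂ) => E p.1 (U.erase j) p.2.1 p.2.2 a b)
        (c, x, y) := by
      apply (ha (U.erase j) a b).continuousAt
      apply IsOpen.mem_nhds
      · exact isOpen_lt continuous_const continuous_fst
      · show (0 : ℝ) < c
        linarith
    have h2 : Tendsto (fun n => ((cn n, x, y) : ℝ × (ℕ → ℂ) × (ℕ → ℂ))) atTop (𝓝 (c, x, y)) := by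
      apply Tendsto.prodMk_nhds hlim
      exact tendsto_const_nhds
    have h3 := Filter.Tendsto.comp hca.tendsto h2
    exact h3
  -- the point w
  have hyj : y j ≠ 0 := by
    intro h
    have := hxy j hj
    rw [h] at this
    simp at this
  have hw : 0 < (x j / y j).im := by
    have h1 := hxy j hj
    have h2 : x j / y j = (x j * (starRingEnd ℂ) (y j)) * (((Complex.normSq (y j))⁻¹ : ℝ) : ℂ) := by
      rw [div_eq_mul_inv, Complex.inv_def, mul_assoc]
    rw [h2, Complex.im_mul_ofReal]
    have h3 : 0 < (Complex.normSq (y j))⁻¹ := inv_pos.mpr (Complex.normSq_pos.mpr hyj)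
    exact mul_pos h1 h3
  -- the inequality for each n
  have hineq : ∀ (s : ℂ) (n : ℕ),
      ‖E (cn n) (U.erase j) x y 0 1 + 2 * E (cn n) (U.erase j) x y 0 0 * s
          + E (cn n) (U.erase j) x y 1 0 * s ^ 2‖ ≤
        (1 + ‖s - x j / y j‖ / (x j / y j).im) ^ 2 *
          ‖E (cn n) (U.erase j) x y 0 1 + 2 * E (cn n) (U.erase j) x y 0 0 * (x j / y j)
          + E (cn n) (U.erase j) x y 1 0 * (x j / y j) ^ 2‖ := by
    intro s n
    apply h7 _ _ _ _ s (x j / y j) hw
    intro t ht
    have hS := hcn3 n (Function.update x j t) (Function.update y j 1) (by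
      intro i hi
      by_cases hij : i = j
      · subst hij
        simpa using ht
      · rw [Function.update_of_ne hij, Function.update_of_ne hij]
        exact hxy i hi)
    rw [E_erase _ _ _ _ _ _ j hj] at hS
    have hcg : ∀ a b : ℕ, E (cn n) (U.erase j) (Function.update x j t) (Function.update y j 1) a b
        = E (cn n) (U.erase j) x y a b := by
      intro a b
      apply E_congr
      intro i hi
      have hij : i ≠ j := (Finset.mem_erase.mp hi).1
      rw [Function.update_of_ne hij, Function.update_of_ne hij]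
      exact ⟨rfl, rfl⟩
    rw [hcg, hcg, hcg, Function.update_self, Function.update_self] at hS
    intro hz
    apply hS
    linear_combination hz
  -- pass to the limit
  have hlimineq : ∀ s : ℂ,
      ‖E c (U.erase j) x y 0 1 + 2 * E c (U.erase j) x y 0 0 * s
          + E c (U.erase j) x y 1 0 * s ^ 2‖ ≤
        (1 + ‖s - x j / y j‖ / (x j / y j).im) ^ 2 *
          ‖E c (U.erase j) x y 0 1 + 2 * E c (U.erase j) x y 0 0 * (x j / y j)
          + E c (U.erase j) x y 1 0 * (x j / y j) ^ 2‖ := by
    intro s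
    have ht : ∀ r : ℂ, Tendsto (fun n => ‖E (cn n) (U.erase j) x y 0 1
          + 2 * E (cn n) (U.erase j) x y 0 0 * r
          + E (cn n) (U.erase j) x y 1 0 * r ^ 2‖) atTop
        (𝓝 ‖E c (U.erase j) x y 0 1 + 2 * E c (U.erase j) x y 0 0 * r
          + E c (U.erase j) x y 1 0 * r ^ 2‖) := by
      intro r
      apply Tendsto.norm
      exact ((hcont 0 1).add (((hcont 0 0).const_mul 2).mul_const r)).add
        ((hcont 1 0).mul_const (r ^ 2))
    exact le_of_tendsto_of_tendsto' (ht s) ((ht (x j / y j)).const_mul _) (hineq s)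
  -- the value at w is zero
  have hzero : E c (U.erase j) x y 0 1 + 2 * E c (U.erase j) x y 0 0 * (x j / y j)
          + E c (U.erase j) x y 1 0 * (x j / y j) ^ 2 = 0 := by
    rw [E_erase _ _ _ _ _ _ j hj] at h0
    have : (y j) ^ 2 * (E c (U.erase j) x y 0 1 + 2 * E c (U.erase j) x y 0 0 * (x j / y j)
          + E c (U.erase j) x y 1 0 * (x j / y j) ^ 2) = 0 := by
      rw [← h0]
      field_simp
      ring
    exact (mul_eq_zero.mp this).resolve_left (pow_ne_zero 2 hyj)
  have hall : ∀ s : ℂ, E c (U.erase j) x y 0 1 + 2 * E c (U.erase j) x y 0 0 * s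
          + E c (U.erase j) x y 1 0 * s ^ 2 = 0 := by
    intro s
    have := hlimineq s
    rw [hzero, norm_zero, mul_zero] at this
    exact norm_le_zero_iff.mp this
  have s0 := hall 0
  have s1 := hall 1
  have s2 := hall (-1)
  refine ⟨?_, ?_, ?_⟩
  · linear_combination (1 / 2) * s1 + (1 / 2) * s2 - s0
  · linear_combination (1 / 4) * s1 - (1 / 4) * s2
  · linear_combination s0

/-- A14: closedness of the set of good parameters. -/
theorem A14 (h7 : A07_quad) (ha : A13a_cont) : A14_closed := by
  classical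
  intro c hc U H x y hxy h0
  -- the reference vector `(t, t⁻¹)`, `t = 1 + I`
  set t : ℂ := 1 + Complex.I with ht
  have hre : t.re = 1 := by simp [ht]
  have him : t.im = 1 := by simp [ht]
  have ht0 : t ≠ 0 := by
    intro h
    rw [h] at hre
    simp at hre
  have hnorm : Complex.normSq t = 2 := by
    rw [Complex.normSq_apply, hre, him]; norm_num
  have htim : 0 < (t * (starRingEnd ℂ) (t⁻¹)).im := by
    have h1 : (starRingEnd ℂ) (t⁻¹) = t * ((2⁻¹ : ℝ) : ℂ) := by
      rw [Complex.inv_def, map_mul, Complex.conj_conj, hnorm, Complex.conj_ofReal]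
    rw [h1, ← mul_assoc, Complex.im_mul_ofReal, Complex.mul_im, hre, him]
    norm_num
  have key : ∀ W : Finset ℕ, W ⊆ U →
      E c U (fun i => if i ∈ W then t else x i) (fun i => if i ∈ W then t⁻¹ else y i) 0 0 = 0 := by
    intro W
    induction W using Finset.induction_on with
    | empty =>
      intro _
      simpa using h0
    | insert j W hjW ih =>
      intro hsub
      have hj : j ∈ U := hsub (Finset.mem_insert_self j W)
      have hW : W ⊆ U := fun i hi => hsub (Finset.mem_insert_of_mem hi)
      have hz := ih hW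
      have hcone : Cone U (fun i => if i ∈ W then t else x i)
          (fun i => if i ∈ W then t⁻¹ else y i) := by
        intro i hi
        by_cases hiW : i ∈ W
        · simp only [hiW, if_true]
          exact htim
        · simp only [hiW, if_false]
          exact hxy i hi
      obtain ⟨e1, e2, e3⟩ := A14_key h7 ha c hc U H _ _ hcone j hj hz
      rw [E_erase _ _ _ _ _ _ j hj]
      have hcg : ∀ a b : ℕ, E c (U.erase j) (fun i => if i ∈ insert j W then t else x i)
          (fun i => if i ∈ insert j W then t⁻¹ else y i) a b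
          = E c (U.erase j) (fun i => if i ∈ W then t else x i)
            (fun i => if i ∈ W then t⁻¹ else y i) a b := by
        intro a b
        apply E_congr
        intro i hi
        have hij : i ≠ j := (Finset.mem_erase.mp hi).1
        simp [Finset.mem_insert, hij]
      rw [hcg, hcg, hcg, e1, e2, e3]
      ring
  have hfin := key U (Finset.Subset.refl U)
  have h1 : E c U (fun i => if i ∈ U then t else x i) (fun i => if i ∈ U then t⁻¹ else y i) 0 0
      = E c U (fun i => t * (fun _ : ℕ => (1 : ℂ)) i) (fun i => t⁻¹ * (fun _ : ℕ => (1 : ℂ)) i)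
        0 0 := by
    apply E_congr
    intro i hi
    simp [hi]
  rw [h1, E_dil c U t ht0] at hfin
  have h2 : E c U (fun _ : ℕ => (1 : ℂ)) (fun _ : ℕ => (1 : ℂ)) 0 0
      = ((E c U (fun _ : ℕ => (1 : ℝ)) (fun _ : ℕ => (1 : ℝ)) 0 0 : ℝ) : ℂ) := by
    rw [← E_ofReal]
    simp
  rw [h2] at hfin
  have h3 : E c U (fun _ : ℕ => (1 : ℝ)) (fun _ : ℕ => (1 : ℝ)) 0 0 = 0 := by
    exact_mod_cast hfin
  have h4 : (0 : ℝ) < E c U (fun _ : ℕ => (1 : ℝ)) (fun _ : ℕ => (1 : ℝ)) 0 0 :=
    E_pos c (by linarith) U _ _ (fun _ _ => one_pos) (fun _ _ => one_pos) 0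
  rw [h3] at h4
  exact lt_irrefl _ h4

end Pool.Agent.H576.FK
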