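import Mathlib
import Pool.Agent.H576.FK.Stmts

set_option autoImplicit false

open scoped BigOperators Topology
open Finset

namespace Pool.Agent.H576.FK

theorem TA15.aux (h6 : A06_base) (h11 : A11_strict) (h13 : A13_open) (h14 : A14_closed) :
    ∀ n : ℕ, ∀ U : Finset ℕ, U.card = n → ∀ c : ℝ, 1 ≤ c → Stab c U ∧ Strict c U := by
  intro n
  induction n with
  | zero =>
    intro U hU c hc
    rw [Finset.card_eq_zero] at hU
    subst hU
    refine ⟨?_, ?_⟩
    · intro x y _
      rw [E_empty]
      simp [mu]
    · intro x y _ h0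
      rw [E_empty] at h0
      simp [mu] at h0
  | succ n ih =>
    intro U hU
    have hne : U.Nonempty := by
      rw [← Finset.card_pos, hU]; omega
    have hst : ∀ c : ℝ, 1 ≤ c → ∀ i ∈ U, Strict c (U.erase i) := by
      intro c hc i hi
      have hcard : (U.erase i).card = n := by
        rw [Finset.card_erase_of_mem hi, hU]; rfl
      exact (ih (U.erase i) hcard c hc).2
    have hall : ∀ c : ℝ, 1 ≤ c → Stab c U := by
      intro b hb
      have hs : IsClosed ({c : ℝ | Stab c U} ∩ Set.Icc 1 b) := by
        rw [← isSeqClosed_iff_isClosed]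
        intro u c hu huc
        have hcI : c ∈ Set.Icc (1:ℝ) b := by
          apply isClosed_Icc.mem_of_tendsto huc
          exact Filter.Eventually.of_forall (fun k => (hu k).2)
        refine ⟨?_, hcI⟩
        apply h14 c hcI.1 U
        intro δ hδ
        have hev := (Metric.tendsto_atTop.1 huc) δ hδ
        obtain ⟨N, hN⟩ := hev
        refine ⟨u N, (hu N).2.1, ?_, (hu N).1⟩
        have := hN N le_rfl
        rwa [Real.dist_eq] at this
      have hsub := hs.Icc_subset_of_forall_mem_nhdsWithin (a := 1) (b := b) (h6 U) ?_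
      · exact hsub ⟨hb, le_rfl⟩
      · intro x hx
        obtain ⟨hxS, hx1, hxb⟩ := hx
        obtain ⟨δ, hδ, hd⟩ := h13 x hx1 U hne hxS (h11 x hx1 U hxS (hst x hx1))
        rw [mem_nhdsWithin]
        refine ⟨Metric.ball x δ, Metric.isOpen_ball, Metric.mem_ball_self hδ, ?_⟩
        rintro y ⟨hy1, hy2⟩
        have hy2' : x < y := hy2
        exact hd y (by rwa [Metric.mem_ball, Real.dist_eq] at hy1) (by linarith)
    intro c hc
    exact ⟨hall c hc, h11 c hc U (hall c hc) (hst c hc)⟩

theorem A15 (h6 : A06_base) (h11 : A11_strict) (h13 : A13_open) (h14 : A14_closed) :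
    A15_slice := fun c hc U => (TA15.aux h6 h11 h13 h14 U.card U rfl c hc).1

end Pool.Agent.H576.FK
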