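import Pool.Agent.H576.FK.Stmts

set_option autoImplicit false

namespace Pool.Agent.H576.FK

/-- B00: the kernel is `mu (s + 1)`. -/
theorem B00 : B00_mu := by
  intro s m
  induction m with
  | zero => simp [mu, Kc]
  | succ m ih =>
    rw [mu, ih]
    unfold Kc
    have h1 : (s + m + 1).choose s * (m + 1) = (s + m).choose s * (s + m + 1) := by
      have h2 := Nat.add_one_mul_choose_eq (s + m) m
      have h3 : (s + m).choose m = (s + m).choose s := by
        rw [← Nat.choose_symm_add]
      have h4 : (s + m + 1).choose (m + 1) = (s + m + 1).choose s := by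
        have : s + m + 1 = s + (m + 1) := by ring
        show (s + m + 1).choose (m + 1) = _
        rw [this, ← Nat.choose_symm_add]
      rw [h3, h4] at h2
      linarith [h2]
    have h2 : (((s + m + 1).choose s : ℕ) : ℝ) * ((m : ℝ) + 1) =
        (((s + m).choose s : ℕ) : ℝ) * ((s : ℝ) + m + 1) := by
      exact_mod_cast h1
    have h3 : (((s + m).choose s : ℕ) : ℝ) ≠ 0 := by
      exact_mod_cast (Nat.choose_pos (by omega)).ne'
    have h4 : (((s + m + 1).choose s : ℕ) : ℝ) ≠ 0 := by
      exact_mod_cast (Nat.choose_pos (by omega)).ne'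
    have h5 : (s : ℝ) + 1 + m ≠ 0 := by positivity
    have h6 : s + (m + 1) = s + m + 1 := by ring
    rw [h6]
    field_simp
    linarith [h2]

end Pool.Agent.H576.FK
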