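import Pool.Agent.H576.FK.Stmts

set_option autoImplicit false

namespace Pool.Agent.H576.FK

namespace TB01

theorem aux {u v a b p q : ℝ} (hv : 0 ≤ v) (hb : v < b) (hq : v < q)
    (h1 : p * a - q * b = u ^ 2 - v ^ 2) (h2 : p * b + q * a = 2 * u * v) : False := by
  have hb0 : 0 < b := lt_of_le_of_lt hv hb
  have h3 : q * (a ^ 2 + b ^ 2) = 2 * u * v * a - (u ^ 2 - v ^ 2) * b := by
    linear_combination a * h2 - b * h1
  have h4 : 0 < a ^ 2 + b ^ 2 := by positivity
  have h5 : v * (a ^ 2 + b ^ 2) < q * (a ^ 2 + b ^ 2) := mul_lt_mul_of_pos_right hq h4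
  have h6 : 2 * u * v * a - (u ^ 2 - v ^ 2) * b - v * (a ^ 2 + b ^ 2) =
      -(v * (a - u) ^ 2) - (b - v) * (u ^ 2 + v * b) := by ring
  have h7 : 0 ≤ v * (a - u) ^ 2 := by positivity
  have h8 : 0 ≤ (b - v) * (u ^ 2 + v * b) := by
    have : 0 < b - v := by linarith
    positivity
  linarith

theorem aux2 {d Z W : ℂ} (hv : 0 ≤ d.im) (hZ : d.im < Z.im) (hW : d.im < W.im)
    (h : Z * W = d ^ 2) : False := by
  have h1 := congrArg Complex.re h
  have h2 := congrArg Complex.im h
  simp only [pow_two, Complex.mul_re, Complex.mul_im] at h1 h2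
  exact aux (u := d.re) (v := d.im) (a := W.re) (b := W.im) (p := Z.re) (q := Z.im) hv hW hZ
    (by linarith) (by linarith)

end TB01

theorem B01 : B01_gws := by
  intro α β γ h z w hz hw h0
  by_cases hα : α = 0
  · subst hα
    refine h ((z + w) / 2) ?_ ?_
    · have : ((z + w) / 2).im = (z.im + w.im) / 2 := by
        rw [show (z + w) / 2 = ((1 / 2 : ℝ) : ℂ) * (z + w) by push_cast; ring,
          Complex.im_ofReal_mul, Complex.add_im]
        ring
      rw [this]
      linarith
    · linear_combination h0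
  · obtain ⟨d, hd⟩ : ∃ d : ℂ, d ^ 2 = (β ^ 2 - α * γ) / α ^ 2 :=
      IsAlgClosed.exists_pow_nat_eq _ (by norm_num)
    have hroot : ∀ e : ℂ, e ^ 2 = (β ^ 2 - α * γ) / α ^ 2 → (-β / α + e).im ≤ 0 := by
      intro e he
      by_contra hpos
      push Not at hpos
      refine h _ hpos ?_
      have h2 : α * (-β / α + e) ^ 2 + 2 * β * (-β / α + e) + γ =
          α * e ^ 2 - (β ^ 2 - α * γ) / α := by
        field_simp
        ring
      rw [h2, he]
      field_simp
      ring
    have hprod : (z - (-β / α)) * (w - (-β / α)) = d ^ 2 := by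
      rw [hd]
      field_simp
      linear_combination α * h0
    have key : ∀ e : ℂ, e ^ 2 = (β ^ 2 - α * γ) / α ^ 2 → 0 ≤ e.im → False := by
      intro e he hv
      have h3 := hroot e he
      rw [Complex.add_im] at h3
      refine TB01.aux2 (d := e) (Z := z - (-β / α)) (W := w - (-β / α)) hv ?_ ?_ ?_
      · rw [Complex.sub_im]
        linarith
      · rw [Complex.sub_im]
        linarith
      · rw [hprod, hd, he]
    rcases le_total 0 d.im with hv | hv
    · exact key d hd hv
    · refine key (-d) (by rw [neg_sq, hd]) ?_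
      rw [Complex.neg_im]
      linarith

end Pool.Agent.H576.FK
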