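import Pool.Agent.H576.FK.Stmts

/-!
# Fisk's conjecture: task B02, the symbol is stable
-/

set_option autoImplicit false

open scoped BigOperators
open Finset

namespace Pool.Agent.H576.FK

namespace TB02

lemma aux (h1 : B01_gws) (hA : A15_slice) (c : ℝ) (hc : 1 ≤ c) (U : Finset ℕ) (n : ℕ) :
    ∀ z w : ℕ → ℂ, (U.filter (fun i => z i ≠ w i)).card = n →
      (∀ i ∈ U, 0 < (z i).im ∧ 0 < (w i).im) →
      E2 c U z (fun _ => 1) w (fun _ => 1) 0 0 ≠ 0 := by
  induction n with
  | zero =>
    intro z w hn hzw
    rw [Finset.card_eq_zero, Finset.filter_eq_empty_iff] at hn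
    have h : E2 c U z (fun _ => 1) w (fun _ => 1) 0 0 = E c U z (fun _ => 1) 0 0 := by
      unfold E
      refine E2_congr c U _ _ _ _ _ _ _ _ 0 0 fun i hi => ⟨rfl, rfl, ?_, rfl⟩
      have := hn hi
      push_neg at this
      exact this.symm
    rw [h]
    refine hA c hc U z (fun _ => 1) fun i hi => ?_
    simpa using (hzw i hi).1
  | succ n ih =>
    intro z w hn hzw
    have hne : (U.filter (fun i => z i ≠ w i)).Nonempty := by
      rw [← Finset.card_pos, hn]; omega
    obtain ⟨j, hj⟩ := hne
    rw [Finset.mem_filter] at hj
    obtain ⟨hjU, hjne⟩ := hj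
    rw [E2_erase c U z (fun _ => 1) w (fun _ => 1) 0 0 j hjU]
    have key := h1 (E2 c (U.erase j) z (fun _ => 1) w (fun _ => 1) 1 0)
      (E2 c (U.erase j) z (fun _ => 1) w (fun _ => 1) 0 0)
      (E2 c (U.erase j) z (fun _ => 1) w (fun _ => 1) 0 1) ?_ (z j) (w j)
      (hzw j hjU).1 (hzw j hjU).2
    · intro h0
      apply key
      rw [← h0]
      ring
    · intro ζ hζ
      have := ih (Function.update z j ζ) (Function.update w j ζ) ?_ ?_
      · rw [E2_erase c U _ (fun _ => 1) _ (fun _ => 1) 0 0 j hjU] at this
        have hcong : ∀ a b : ℕ, E2 c (U.erase j) (Function.update z j ζ) (fun _ => 1)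
            (Function.update w j ζ) (fun _ => 1) a b =
            E2 c (U.erase j) z (fun _ => 1) w (fun _ => 1) a b := by
          intro a b
          refine E2_congr c _ _ _ _ _ _ _ _ _ a b fun i hi => ?_
          have hij : i ≠ j := Finset.ne_of_mem_erase hi
          simp [Function.update_of_ne hij]
        rw [hcong, hcong, hcong] at this
        simp only [Function.update_self] at this
        intro h0
        apply this
        rw [← h0]
        ring
      · have : (U.filter (fun i => Function.update z j ζ i ≠ Function.update w j ζ i)) =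
            (U.filter (fun i => z i ≠ w i)).erase j := by
          ext i
          simp only [Finset.mem_filter, Finset.mem_erase]
          by_cases hij : i = j
          · subst hij; simp
          · simp [Function.update_of_ne hij, hij]
        rw [this, Finset.card_erase_of_mem (Finset.mem_filter.2 ⟨hjU, hjne⟩), hn]
        rfl
      · intro i hi
        by_cases hij : i = j
        · subst hij; simp [hζ]
        · simpa [Function.update_of_ne hij] using hzw i hi

end TB02

theorem B02 (h1 : B01_gws) (hA : A15_slice) : B02_sym :=
  fun c hc U z w h => TB02.aux h1 hA c hc U _ z w rfl h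

end Pool.Agent.H576.FK
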