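import Mathlib
import Pool.Agent.H576.FK.Stmts

/-!
# Task B03: expansion of the symbol
-/

set_option autoImplicit false

open scoped BigOperators
open Finset

namespace Pool.Agent.H576.FK

namespace TB03

/-- the general term -/
noncomputable def tm (c : ℝ) (U : Finset ℕ) (z w : ℕ → ℂ) (a b : ℕ) (S S' : Finset ℕ) : ℂ :=
  if (S' \ S).card + a = (S \ S').card + b then
    ((mu c ((S' \ S).card + a) : ℝ) : ℂ) * (∏ i ∈ S', z i) * (∏ i ∈ U \ S, w i) else 0

theorem tm_oo (c : ℝ) (U : Finset ℕ) (z w : ℕ → ℂ) (a b : ℕ) (S S' : Finset ℕ) (i : ℕ)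
    (hi : i ∉ U) (hS : S ⊆ U) :
    tm c (insert i U) z w a b S S' = w i * tm c U z w a b S S' := by
  have hiS : i ∉ S := fun h => hi (hS h)
  have h1 : insert i U \ S = insert i (U \ S) := by
    rw [Finset.insert_sdiff_of_notMem _ hiS]
  have h2 : i ∉ U \ S := fun h => hi (Finset.mem_sdiff.1 h).1
  unfold tm
  rw [h1, Finset.prod_insert h2]
  split_ifs
  · ring
  · ring

theorem tm_io (c : ℝ) (U : Finset ℕ) (z w : ℕ → ℂ) (a b : ℕ) (S S' : Finset ℕ) (i : ℕ)
    (hi : i ∉ U) (hS : S ⊆ U) (hS' : S' ⊆ U) :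
    tm c (insert i U) z w a b (insert i S) S' = tm c U z w a (b + 1) S S' := by
  have hiS : i ∉ S := fun h => hi (hS h)
  have hiS' : i ∉ S' := fun h => hi (hS' h)
  have h1 : insert i U \ insert i S = U \ S := by
    ext j
    simp only [Finset.mem_sdiff, Finset.mem_insert, not_or]
    constructor
    · rintro ⟨h | h, h', h''⟩
      · exact absurd h h'
      · exact ⟨h, h''⟩
    · rintro ⟨h, h'⟩
      exact ⟨Or.inr h, fun h'' => hi (h'' ▸ h), h'⟩
  have h2 : S' \ insert i S = S' \ S := by
    ext j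
    simp only [Finset.mem_sdiff, Finset.mem_insert, not_or]
    constructor
    · rintro ⟨h, h', h''⟩
      exact ⟨h, h''⟩
    · rintro ⟨h, h'⟩
      exact ⟨h, fun h'' => hiS' (h'' ▸ h), h'⟩
  have h3 : (insert i S \ S').card = (S \ S').card + 1 := by
    rw [Finset.insert_sdiff_of_notMem _ hiS', Finset.card_insert_of_notMem]
    exact fun h => hiS (Finset.mem_sdiff.1 h).1
  unfold tm
  rw [h1, h2, h3]
  have e : (S \ S').card + 1 + b = (S \ S').card + (b + 1) := by ring
  rw [e]

theorem tm_oi (c : ℝ) (U : Finset ℕ) (z w : ℕ → ℂ) (a b : ℕ) (S S' : Finset ℕ) (i : ℕ)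
    (hi : i ∉ U) (hS : S ⊆ U) (hS' : S' ⊆ U) :
    tm c (insert i U) z w a b S (insert i S') = z i * w i * tm c U z w (a + 1) b S S' := by
  have hiS : i ∉ S := fun h => hi (hS h)
  have hiS' : i ∉ S' := fun h => hi (hS' h)
  have h1 : insert i U \ S = insert i (U \ S) := by
    rw [Finset.insert_sdiff_of_notMem _ hiS]
  have h1' : i ∉ U \ S := fun h => hi (Finset.mem_sdiff.1 h).1
  have h2 : S \ insert i S' = S \ S' := by
    ext j
    simp only [Finset.mem_sdiff, Finset.mem_insert, not_or]
    constructor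
    · rintro ⟨h, h', h''⟩
      exact ⟨h, h''⟩
    · rintro ⟨h, h'⟩
      exact ⟨h, fun h'' => hiS (h'' ▸ h), h'⟩
  have h3 : (insert i S' \ S).card = (S' \ S).card + 1 := by
    rw [Finset.insert_sdiff_of_notMem _ hiS, Finset.card_insert_of_notMem]
    exact fun h => hiS' (Finset.mem_sdiff.1 h).1
  unfold tm
  rw [h1, h2, h3, Finset.prod_insert h1', Finset.prod_insert hiS']
  have e : (S' \ S).card + 1 + a = (S' \ S).card + (a + 1) := by ring
  rw [e]
  split_ifs
  · ring
  · ring

theorem tm_ii (c : ℝ) (U : Finset ℕ) (z w : ℕ → ℂ) (a b : ℕ) (S S' : Finset ℕ) (i : ℕ)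
    (hi : i ∉ U) (hS : S ⊆ U) (hS' : S' ⊆ U) :
    tm c (insert i U) z w a b (insert i S) (insert i S') = z i * tm c U z w a b S S' := by
  have hiS : i ∉ S := fun h => hi (hS h)
  have hiS' : i ∉ S' := fun h => hi (hS' h)
  have hg : ∀ A B : Finset ℕ, i ∉ A → insert i A \ insert i B = A \ B := by
    intro A B hA
    ext j
    simp only [Finset.mem_sdiff, Finset.mem_insert, not_or]
    constructor
    · rintro ⟨h | h, h', h''⟩
      · exact absurd h h'
      · exact ⟨h, h''⟩
    · rintro ⟨h, h'⟩
      exact ⟨Or.inr h, fun h'' => hA (h'' ▸ h), h'⟩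
  unfold tm
  rw [hg U S hi, hg S' S hiS', hg S S' hiS, Finset.prod_insert hiS']
  split_ifs
  · ring
  · ring

/-- the general expansion -/
theorem expand (c : ℝ) (U : Finset ℕ) (z w : ℕ → ℂ) (a b : ℕ) :
    E2 c U z (fun _ => 1) w (fun _ => 1) a b =
      ∑ S ∈ U.powerset, ∑ S' ∈ U.powerset, tm c U z w a b S S' := by
  induction U using Finset.induction_on generalizing a b with
  | empty =>
    rw [E2_empty]
    simp [tm]
  | insert i U hi ih =>
    rw [E2_insert c U z (fun _ => 1) w (fun _ => 1) a b i hi, ih (a + 1) b, ih a b, ih a (b + 1)]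
    rw [Finset.sum_powerset_insert hi]
    have h1 : ∑ S ∈ U.powerset, ∑ S' ∈ (insert i U).powerset, tm c (insert i U) z w a b S S' =
        w i * ∑ S ∈ U.powerset, ∑ S' ∈ U.powerset, tm c U z w a b S S' +
        z i * w i * ∑ S ∈ U.powerset, ∑ S' ∈ U.powerset, tm c U z w (a + 1) b S S' := by
      rw [Finset.mul_sum, Finset.mul_sum, ← Finset.sum_add_distrib]
      apply Finset.sum_congr rfl
      intro S hS
      rw [Finset.mem_powerset] at hS
      rw [Finset.sum_powerset_insert hi, Finset.mul_sum, Finset.mul_sum]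
      congr 1
      · apply Finset.sum_congr rfl
        intro S' hS'
        exact tm_oo c U z w a b S S' i hi hS
      · apply Finset.sum_congr rfl
        intro S' hS'
        exact tm_oi c U z w a b S S' i hi hS (Finset.mem_powerset.1 hS')
    have h2 : ∑ S ∈ U.powerset, ∑ S' ∈ (insert i U).powerset,
          tm c (insert i U) z w a b (insert i S) S' =
        ∑ S ∈ U.powerset, ∑ S' ∈ U.powerset, tm c U z w a (b + 1) S S' +
        z i * ∑ S ∈ U.powerset, ∑ S' ∈ U.powerset, tm c U z w a b S S' := by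
      rw [Finset.mul_sum, ← Finset.sum_add_distrib]
      apply Finset.sum_congr rfl
      intro S hS
      rw [Finset.mem_powerset] at hS
      rw [Finset.sum_powerset_insert hi, Finset.mul_sum]
      congr 1
      · apply Finset.sum_congr rfl
        intro S' hS'
        exact tm_io c U z w a b S S' i hi hS (Finset.mem_powerset.1 hS')
      · apply Finset.sum_congr rfl
        intro S' hS'
        exact tm_ii c U z w a b S S' i hi hS (Finset.mem_powerset.1 hS')
    rw [h1, h2]
    ring

end TB03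

theorem B03 : B03_expand := by
  intro c U z w
  rw [TB03.expand]
  apply Finset.sum_congr rfl
  intro S _
  apply Finset.sum_congr rfl
  intro S' _
  unfold TB03.tm
  have h : (S' \ S).card + 0 = (S \ S').card + 0 ↔ S.card = S'.card := by
    have h1 := Finset.card_sdiff_add_card_inter S' S
    have h2 := Finset.card_sdiff_add_card_inter S S'
    rw [Finset.inter_comm] at h2
    omega
  by_cases hc : S.card = S'.card
  · rw [if_pos (h.2 hc), if_pos hc, add_zero]
  · rw [if_neg (fun h' => hc (h.1 h')), if_neg hc]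

end Pool.Agent.H576.FK
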