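import Pool.Agent.H576.FK.Stmts

set_option autoImplicit false

namespace Pool.Agent.H576.FK

namespace TB04

open Complex

theorem im_pos {t : ℂ} (ht : ‖t‖ < 1) : 0 < (I * (1 + t) / (1 - t)).im := by
  have h1 : (1 - t) ≠ 0 := by
    intro h
    have : t = 1 := by linear_combination -h
    rw [this] at ht
    simp at ht
  have h2 : I * (1 + t) / (1 - t) = I * (1 + t) * (starRingEnd ℂ) (1 - t) / (normSq (1 - t) : ℂ) := by
    rw [eq_div_iff (by exact_mod_cast (normSq_pos.2 h1).ne'), div_mul_eq_mul_div,
      div_eq_iff h1, ← mul_conj]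
    ring
  rw [h2, div_ofReal_im]
  apply div_pos _ (normSq_pos.2 h1)
  have h3 : ‖t‖ ^ 2 < 1 := by nlinarith [norm_nonneg t]
  rw [← normSq_eq_norm_sq, normSq_apply] at h3
  simp only [mul_im, mul_re, I_re, I_im, add_re, add_im, one_re, one_im, map_sub, map_one, sub_re,
    sub_im, conj_re, conj_im]
  nlinarith

theorem key (A B C D : ℂ) (R : ℝ) (hR : 1 < R)
    (H : ∀ w x y : ℂ, 0 < w.im → ‖x - Complex.I * y‖ < R * ‖x + Complex.I * y‖ →
      (A + B * w) * y + (C + D * w) * x ≠ 0) (t : ℂ) (ht : ‖t‖ < 1) :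
    (A + I * B + I * C - D) + ((-A + I * B - I * C - D) + (-A - I * B + I * C - D) * R) * t +
      (A - I * B - I * C - D) * R * t ^ 2 ≠ 0 := by
  intro h0
  have h1 : (1 - t) ≠ 0 := by
    intro h
    have : t = 1 := by linear_combination -h
    rw [this] at ht
    simp at ht
  refine H (I * (1 + t) / (1 - t)) (I * (1 + R * t)) (1 - R * t) (im_pos ht) ?_ ?_
  · have e1 : I * (1 + R * t) - I * (1 - R * t) = 2 * I * R * t := by ring
    have e2 : I * (1 + R * t) + I * (1 - R * t) = 2 * I := by ring
    rw [e1, e2]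
    simp only [norm_mul, norm_I, Complex.norm_ofNat, Complex.norm_real, Real.norm_eq_abs]
    rw [abs_of_pos (by linarith : (0:ℝ) < R)]
    nlinarith
  · have e3 : ((A + B * (I * (1 + t) / (1 - t))) * (1 - R * t) +
        (C + D * (I * (1 + t) / (1 - t))) * (I * (1 + R * t))) * (1 - t) =
        (A + I * B + I * C - D) + ((-A + I * B - I * C - D) + (-A - I * B + I * C - D) * R) * t +
      (A - I * B - I * C - D) * R * t ^ 2 := by
      field_simp
      linear_combination (D * (1 + t) * (1 + R * t)) * I_sq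
    rw [h0] at e3
    exact (mul_eq_zero.1 e3).resolve_right h1

end TB04

theorem B04 : B04_one := by
  intro A B C D R hR H hBC
  have hR0 : (R : ℂ) ≠ 0 := by
    have : R ≠ 0 := by linarith
    exact_mod_cast this
  have K := TB04.key A B C D R hR H
  have hC : C = -B := by linear_combination hBC
  subst hC
  by_cases hd : A - D = 0
  · refine K 0 (by simp) ?_
    linear_combination hd
  · set p : ℂ := ((-A + Complex.I * B - Complex.I * (-B) - D) +
      (-A - Complex.I * B + Complex.I * (-B) - D) * R) / ((A - D) * R) with hp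
    obtain ⟨s, hs⟩ := IsAlgClosed.exists_pow_nat_eq (p ^ 2 - 4 / R) (n := 2) (by norm_num)
    have hprod : ‖(-p + s) / 2‖ * ‖(-p - s) / 2‖ < 1 := by
      rw [← norm_mul]
      have : (-p + s) / 2 * ((-p - s) / 2) = ((1 / R : ℝ) : ℂ) := by
        push_cast
        linear_combination (-1 / 4 : ℂ) * hs
      rw [this, Complex.norm_real, Real.norm_eq_abs, abs_of_pos (by positivity)]
      rw [div_lt_one (by linarith)]
      exact hR
    have hroot : ∀ t : ℂ, t ^ 2 + p * t + 1 / R = 0 → ‖t‖ < 1 → False := by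
      intro t h0 ht
      refine K t ht ?_
      have e : p * ((A - D) * R) = ((-A + Complex.I * B - Complex.I * (-B) - D) +
          (-A - Complex.I * B + Complex.I * (-B) - D) * R) := by
        rw [hp, div_mul_cancel₀ _ (mul_ne_zero hd hR0)]
      have e2 : (1 / R : ℂ) * R = 1 := by field_simp
      linear_combination ((A - D) * R) * h0 - t * e - (A - D) * e2
    by_cases h1 : ‖(-p + s) / 2‖ < 1
    · refine hroot _ ?_ h1
      linear_combination (1 / 4 : ℂ) * hs
    · have h2 : ‖(-p - s) / 2‖ < 1 := by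
        by_contra h3
        push Not at h1 h3
        have : 1 * 1 ≤ ‖(-p + s) / 2‖ * ‖(-p - s) / 2‖ :=
          mul_le_mul h1 h3 (by norm_num) (norm_nonneg _)
        linarith
      refine hroot _ ?_ h2
      linear_combination (1 / 4 : ℂ) * hs

end Pool.Agent.H576.FK
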