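import Pool.Agent.H576.FK.Stmts

set_option autoImplicit false

open scoped BigOperators
open Finset

namespace Pool.Agent.H576.FK

namespace TB05

theorem split1 {U : Finset ℕ} {i : ℕ} (hi : i ∉ U) (p : Finset ℕ → ℂ) (w : ℕ → ℂ) :
    ∑ S ∈ (insert i U).powerset, p S * ∏ j ∈ insert i U \ S, w j =
      ∑ S ∈ U.powerset, (w i * p S + p (insert i S)) * ∏ j ∈ U \ S, w j := by
  rw [Finset.sum_powerset_insert hi, ← Finset.sum_add_distrib]
  refine Finset.sum_congr rfl fun S hS => ?_
  have hS' : S ⊆ U := Finset.mem_powerset.1 hS
  have hiS : i ∉ S := fun h => hi (hS' h)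
  have e1 : insert i U \ S = insert i (U \ S) := Finset.insert_sdiff_of_notMem U hiS
  have e2 : insert i U \ insert i S = U \ S := by
    ext j
    simp only [mem_sdiff, mem_insert]
    constructor
    · rintro ⟨h1, h2⟩
      push Not at h2
      exact ⟨h1.resolve_left h2.1, h2.2⟩
    · rintro ⟨h1, h2⟩
      refine ⟨Or.inr h1, ?_⟩
      rintro (rfl | h)
      · exact hi h1
      · exact h2 h
  have hi' : i ∉ U \ S := fun h => hi (Finset.mem_sdiff.1 h).1
  rw [e1, e2, Finset.prod_insert hi']
  ring

theorem split2 {U : Finset ℕ} {i : ℕ} (hi : i ∉ U) (f : Finset ℕ → ℂ) (x y : ℕ → ℂ) :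
    ∑ S ∈ (insert i U).powerset, f S * (∏ j ∈ S, x j) * ∏ j ∈ insert i U \ S, y j =
      ∑ S ∈ U.powerset, (y i * f S + x i * f (insert i S)) * (∏ j ∈ S, x j) *
        ∏ j ∈ U \ S, y j := by
  rw [Finset.sum_powerset_insert hi, ← Finset.sum_add_distrib]
  refine Finset.sum_congr rfl fun S hS => ?_
  have hS' : S ⊆ U := Finset.mem_powerset.1 hS
  have hiS : i ∉ S := fun h => hi (hS' h)
  have e1 : insert i U \ S = insert i (U \ S) := Finset.insert_sdiff_of_notMem U hiS
  have e2 : insert i U \ insert i S = U \ S := by
    ext j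
    simp only [mem_sdiff, mem_insert]
    constructor
    · rintro ⟨h1, h2⟩
      push Not at h2
      exact ⟨h1.resolve_left h2.1, h2.2⟩
    · rintro ⟨h1, h2⟩
      refine ⟨Or.inr h1, ?_⟩
      rintro (rfl | h)
      · exact hi h1
      · exact h2 h
  have hi' : i ∉ U \ S := fun h => hi (Finset.mem_sdiff.1 h).1
  rw [e1, e2, Finset.prod_insert hi', Finset.prod_insert hiS]
  ring

end TB05

theorem B05 (h : B04_one) : B05_asano := by
  intro U p f R hR
  induction U using Finset.induction_on generalizing p f with
  | empty =>
    intro hyp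
    have := hyp (fun _ => 0) (fun _ => 0) (fun _ => 0) (by simp) (by simp)
    simpa using this
  | insert i U hi ih =>
    intro hyp
    rw [Finset.sum_powerset_insert hi]
    refine h (∑ S ∈ U.powerset, p (insert i S) * f S) (∑ S ∈ U.powerset, p S * f S)
      (∑ S ∈ U.powerset, p (insert i S) * f (insert i S))
      (∑ S ∈ U.powerset, p S * f (insert i S)) R hR ?_
    intro w0 x0 y0 hw0 hxy0
    have key := ih (fun S => w0 * p S + p (insert i S)) (fun S => y0 * f S + x0 * f (insert i S)) ?_
    · have e : ∑ S ∈ U.powerset, (w0 * p S + p (insert i S)) * (y0 * f S + x0 * f (insert i S)) =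
          ((∑ S ∈ U.powerset, p (insert i S) * f S) + (∑ S ∈ U.powerset, p S * f S) * w0) * y0 +
          ((∑ S ∈ U.powerset, p (insert i S) * f (insert i S)) +
            (∑ S ∈ U.powerset, p S * f (insert i S)) * w0) * x0 := by
        simp only [Finset.sum_mul, ← Finset.sum_add_distrib]
        exact Finset.sum_congr rfl fun S _ => by ring
      rw [← e]
      exact key
    · intro w x y hw hxy
      have hne : ∀ j ∈ U, j ≠ i := fun j hj e => hi (e ▸ hj)
      have h1 := hyp (Function.update w i w0) (Function.update x i x0) (Function.update y i y0)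
        (by
          intro j hj
          rcases Finset.mem_insert.1 hj with rfl | hj
          · rwa [Function.update_self]
          · rw [Function.update_of_ne (hne j hj)]
            exact hw j hj)
        (by
          intro j hj
          rcases Finset.mem_insert.1 hj with rfl | hj
          · simp only [Function.update_self]
            exact hxy0
          · rw [Function.update_of_ne (hne j hj), Function.update_of_ne (hne j hj)]
            exact hxy j hj)
      rw [TB05.split1 hi, TB05.split2 hi] at h1
      simp only [Function.update_self] at h1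
      have e1 : ∀ S ∈ U.powerset, ∏ j ∈ U \ S, Function.update w i w0 j = ∏ j ∈ U \ S, w j := by
        intro S _
        refine Finset.prod_congr rfl fun j hj => ?_
        rw [Function.update_of_ne (hne j (Finset.mem_sdiff.1 hj).1)]
      have e2 : ∀ S ∈ U.powerset, ∏ j ∈ U \ S, Function.update y i y0 j = ∏ j ∈ U \ S, y j := by
        intro S _
        refine Finset.prod_congr rfl fun j hj => ?_
        rw [Function.update_of_ne (hne j (Finset.mem_sdiff.1 hj).1)]
      have e3 : ∀ S ∈ U.powerset, ∏ j ∈ S, Function.update x i x0 j = ∏ j ∈ S, x j := by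
        intro S hS
        refine Finset.prod_congr rfl fun j hj => ?_
        rw [Function.update_of_ne (hne j ((Finset.mem_powerset.1 hS) hj))]
      have e4 : ∑ S ∈ U.powerset, (w0 * p S + p (insert i S)) *
            ∏ j ∈ U \ S, Function.update w i w0 j =
          ∑ S ∈ U.powerset, (w0 * p S + p (insert i S)) * ∏ j ∈ U \ S, w j :=
        Finset.sum_congr rfl fun S hS => by rw [e1 S hS]
      have e5 : ∑ S ∈ U.powerset, (y0 * f S + x0 * f (insert i S)) *
            (∏ j ∈ S, Function.update x i x0 j) * ∏ j ∈ U \ S, Function.update y i y0 j =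
          ∑ S ∈ U.powerset, (y0 * f S + x0 * f (insert i S)) * (∏ j ∈ S, x j) *
            ∏ j ∈ U \ S, y j :=
        Finset.sum_congr rfl fun S hS => by rw [e2 S hS, e3 S hS]
      rw [e4, e5] at h1
      exact h1

end Pool.Agent.H576.FK
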