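import Pool.Agent.H576.FK.Stmts

/-!
# B06: Harnack inequality for multi-affine polynomials
-/

set_option autoImplicit false

open scoped BigOperators
open Finset

namespace Pool.Agent.H576.FK

namespace TB06

theorem one_var (a b : ℂ) (h : ∀ t : ℂ, 0 < t.im → a + t * b ≠ 0) (s z : ℂ) (hz : 0 < z.im) :
    ‖a + s * b‖ ≤ (1 + ‖s - z‖ / z.im) * ‖a + z * b‖ := by
  by_cases hb : b = 0
  · subst hb
    simp only [mul_zero, add_zero]
    have : 0 ≤ ‖s - z‖ / z.im := by positivity
    nlinarith [norm_nonneg a]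
  · have hr : (-a / b).im ≤ 0 := by
      by_contra hcon
      push Not at hcon
      apply h (-a / b) hcon
      field_simp
      ring
    set r : ℂ := -a / b with hrdef
    have hf : ∀ t : ℂ, a + t * b = b * (t - r) := by
      intro t
      rw [hrdef]
      field_simp
      ring
    rw [hf, hf, norm_mul, norm_mul]
    have h1 : ‖s - r‖ ≤ ‖s - z‖ + ‖z - r‖ := by
      calc ‖s - r‖ = ‖(s - z) + (z - r)‖ := by ring_nf
        _ ≤ _ := norm_add_le _ _
    have h2 : z.im ≤ ‖z - r‖ := by
      have h3 : |(z - r).im| ≤ ‖z - r‖ := Complex.abs_im_le_norm _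
      have h4 : (z - r).im = z.im - r.im := Complex.sub_im z r
      have h5 : (z - r).im ≤ |(z - r).im| := le_abs_self _
      linarith
    have h3 : ‖s - z‖ ≤ ‖s - z‖ / z.im * ‖z - r‖ := by
      have : ‖s - z‖ = ‖s - z‖ / z.im * z.im := by field_simp
      calc ‖s - z‖ = ‖s - z‖ / z.im * z.im := this
        _ ≤ ‖s - z‖ / z.im * ‖z - r‖ := by
          apply mul_le_mul_of_nonneg_left h2
          positivity
    calc ‖b‖ * ‖s - r‖ ≤ ‖b‖ * (‖s - z‖ / z.im * ‖z - r‖ + ‖z - r‖) := by
          apply mul_le_mul_of_nonneg_left _ (norm_nonneg _)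
          linarith
      _ = (1 + ‖s - z‖ / z.im) * (‖b‖ * ‖z - r‖) := by ring

theorem MA_erase (U : Finset ℕ) (f : Finset ℕ → ℂ) (i : ℕ) (hi : i ∈ U) (x : ℕ → ℂ) :
    MA U f x = MA (U.erase i) f x + x i * MA (U.erase i) (fun S => f (insert i S)) x := by
  conv_lhs => rw [← Finset.insert_erase hi]
  unfold MA
  rw [Finset.sum_powerset_insert (Finset.notMem_erase i U), Finset.mul_sum]
  congr 1
  apply Finset.sum_congr rfl
  intro S hS
  have hiS : i ∉ S := fun h => Finset.notMem_erase i U (Finset.mem_powerset.1 hS h)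
  rw [Finset.prod_insert hiS]
  ring

theorem MA_congr (U : Finset ℕ) (f : Finset ℕ → ℂ) (x y : ℕ → ℂ) (h : ∀ i ∈ U, x i = y i) :
    MA U f x = MA U f y := by
  unfold MA
  apply Finset.sum_congr rfl
  intro S hS
  congr 1
  apply Finset.prod_congr rfl
  intro i hi
  exact h i (Finset.mem_powerset.1 hS hi)

theorem step (U : Finset ℕ) (f : Finset ℕ → ℂ)
    (h : ∀ z : ℕ → ℂ, (∀ i ∈ U, 0 < (z i).im) → MA U f z ≠ 0)
    (i : ℕ) (hi : i ∈ U) (x y : ℕ → ℂ) (hxy : ∀ j, j ≠ i → y j = x j)
    (hx : ∀ j ∈ U, 0 < (x j).im) :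
    ‖MA U f y‖ ≤ (1 + ‖y i - x i‖ / (x i).im) * ‖MA U f x‖ := by
  rw [MA_erase U f i hi x, MA_erase U f i hi y]
  rw [MA_congr (U.erase i) f y x (fun j hj => hxy j (Finset.ne_of_mem_erase hj)),
    MA_congr (U.erase i) (fun S => f (insert i S)) y x
      (fun j hj => hxy j (Finset.ne_of_mem_erase hj))]
  apply one_var _ _ _ _ _ (hx i hi)
  intro t ht
  have h1 := h (Function.update x i t) (by
    intro j hj
    by_cases hji : j = i
    · subst hji; simpa using ht
    · rw [Function.update_of_ne hji]; exact hx j hj)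
  rw [MA_erase U f i hi] at h1
  rw [MA_congr (U.erase i) f _ x (fun j hj => Function.update_of_ne (Finset.ne_of_mem_erase hj) _ _),
    MA_congr (U.erase i) (fun S => f (insert i S)) _ x
      (fun j hj => Function.update_of_ne (Finset.ne_of_mem_erase hj) _ _)] at h1
  simpa using h1

end TB06

theorem B06 : B06_harnack := by
  intro U f h s z hs hz
  have key : ∀ W : Finset ℕ, W ⊆ U →
      ‖MA U f (fun i => if i ∈ W then s i else z i)‖ ≤
        (∏ i ∈ W, (1 + ‖s i - z i‖ / (z i).im)) * ‖MA U f z‖ := by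
    intro W
    induction W using Finset.induction_on with
    | empty => intro _; simp
    | insert i W hi ih =>
      intro hW
      have hiU : i ∈ U := hW (Finset.mem_insert_self i W)
      have hWU : W ⊆ U := fun j hj => hW (Finset.mem_insert_of_mem hj)
      have h1 := ih hWU
      have h2 := TB06.step U f h i hiU (fun j => if j ∈ W then s j else z j)
        (fun j => if j ∈ insert i W then s j else z j)
        (by
          intro j hj
          simp [hj])
        (by
          intro j hj
          split_ifs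
          · exact hs j hj
          · exact hz j hj)
      simp only [Finset.mem_insert_self, if_true, if_neg hi] at h2
      rw [Finset.prod_insert hi]
      have hp : 0 ≤ 1 + ‖s i - z i‖ / (z i).im := by
        have := hz i hiU
        positivity
      calc _ ≤ _ := h2
        _ ≤ (1 + ‖s i - z i‖ / (z i).im) *
            ((∏ i ∈ W, (1 + ‖s i - z i‖ / (z i).im)) * ‖MA U f z‖) :=
          mul_le_mul_of_nonneg_left h1 hp
        _ = _ := by ring
  have h1 := key U (Finset.Subset.refl U)
  rwa [TB06.MA_congr U f (fun i => if i ∈ U then s i else z i) s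
    (fun i hi => by simp [hi])] at h1

end Pool.Agent.H576.FK
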