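import Pool.Agent.H576.FK.Stmts

/-!
# B07: perturbation making the stability strict
-/

set_option autoImplicit false

open scoped BigOperators
open Finset

namespace Pool.Agent.H576.FK

namespace TB07

/-- the sum over all subsets of `U` for a fixed `B` -/
theorem fixB (U B : Finset ℕ) (hB : B ⊆ U) (p q : ℂ) (x y : ℕ → ℂ) :
    ∑ S ∈ U.powerset, p ^ (B \ S).card * q ^ (S \ B).card * (∏ i ∈ S, x i) * ∏ i ∈ U \ S, y i =
      (∏ i ∈ B, (x i + p * y i)) * ∏ i ∈ U \ B, (y i + q * x i) := by
  have h1 : ∏ i ∈ U, ((if i ∈ B then x i else q * x i) + (if i ∈ B then p * y i else y i)) =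
      (∏ i ∈ B, (x i + p * y i)) * ∏ i ∈ U \ B, (y i + q * x i) := by
    rw [← Finset.prod_sdiff hB, mul_comm]
    congr 1
    · refine Finset.prod_congr rfl fun i hi => ?_
      rw [if_pos hi, if_pos hi]
    · refine Finset.prod_congr rfl fun i hi => ?_
      have hi' := (Finset.mem_sdiff.1 hi).2
      rw [if_neg hi', if_neg hi', add_comm]
  rw [← h1, Finset.prod_add]
  refine Finset.sum_congr rfl fun S hS => ?_
  have hSU := Finset.mem_powerset.1 hS
  have h2 : ∏ i ∈ S, (if i ∈ B then x i else q * x i) = q ^ (S \ B).card * ∏ i ∈ S, x i := by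
    have e : ∀ i ∈ S, (if i ∈ B then x i else q * x i) = (if i ∈ B then 1 else q) * x i := by
      intro i _
      split_ifs <;> simp
    rw [Finset.prod_congr rfl e, Finset.prod_mul_distrib]
    congr 1
    rw [Finset.prod_ite, Finset.prod_const_one, one_mul, Finset.prod_const]
    congr 2
    ext i
    simp [Finset.mem_sdiff]
  have h3 : ∏ i ∈ U \ S, (if i ∈ B then p * y i else y i) =
      p ^ (B \ S).card * ∏ i ∈ U \ S, y i := by
    have e : ∀ i ∈ U \ S, (if i ∈ B then p * y i else y i) = (if i ∈ B then p else 1) * y i := by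
      intro i _
      split_ifs <;> simp
    rw [Finset.prod_congr rfl e, Finset.prod_mul_distrib]
    congr 1
    rw [Finset.prod_ite, Finset.prod_const_one, mul_one, Finset.prod_const]
    congr 2
    ext i
    simp only [Finset.mem_filter, Finset.mem_sdiff]
    constructor
    · rintro ⟨⟨_, h2⟩, h3⟩
      exact ⟨h3, h2⟩
    · rintro ⟨h2, h3⟩
      exact ⟨⟨hB h2, h3⟩, h2⟩
  rw [h2, h3]
  ring

theorem expand (U : Finset ℕ) (f : Finset ℕ → ℂ) (ε : ℝ) (x y : ℕ → ℂ) :
    ∑ S ∈ U.powerset, pert U f ε S * (∏ i ∈ S, x i) * ∏ i ∈ U \ S, y i =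
      ∑ B ∈ U.powerset, f B * ((∏ i ∈ B, (x i + (Complex.I * ε) * y i)) *
        ∏ i ∈ U \ B, (y i + (-(Complex.I * ε)) * x i)) := by
  unfold pert
  have h1 : ∀ S ∈ U.powerset, (∑ B ∈ U.powerset, f B * (Complex.I * ε) ^ (B \ S).card *
      (-(Complex.I * ε)) ^ (S \ B).card) * (∏ i ∈ S, x i) * ∏ i ∈ U \ S, y i =
      ∑ B ∈ U.powerset, f B * ((Complex.I * ε) ^ (B \ S).card *
        (-(Complex.I * ε)) ^ (S \ B).card * (∏ i ∈ S, x i) * ∏ i ∈ U \ S, y i) := by
    intro S _
    rw [Finset.sum_mul, Finset.sum_mul]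
    refine Finset.sum_congr rfl fun B _ => ?_
    ring
  rw [Finset.sum_congr rfl h1, Finset.sum_comm]
  refine Finset.sum_congr rfl fun B hB => ?_
  rw [← Finset.mul_sum, fixB U B (Finset.mem_powerset.1 hB)]

theorem im_pos (a b : ℂ) (h : ‖a - Complex.I * b‖ < ‖a + Complex.I * b‖) :
    b ≠ 0 ∧ 0 < (a / b).im := by
  have h1 : ‖a + Complex.I * b‖ ^ 2 - ‖a - Complex.I * b‖ ^ 2 =
      4 * (a.im * b.re - a.re * b.im) := by
    rw [← Complex.normSq_eq_norm_sq, ← Complex.normSq_eq_norm_sq]
    simp only [Complex.normSq_apply, Complex.add_re, Complex.add_im, Complex.sub_re,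
      Complex.sub_im, Complex.mul_re, Complex.mul_im, Complex.I_re, Complex.I_im]
    ring
  have h2 : ‖a - Complex.I * b‖ ^ 2 < ‖a + Complex.I * b‖ ^ 2 :=
    pow_lt_pow_left₀ h (norm_nonneg _) (by norm_num)
  have h3 : 0 < a.im * b.re - a.re * b.im := by linarith
  have hb : b ≠ 0 := by
    rintro rfl
    simp at h3
  refine ⟨hb, ?_⟩
  have hn : 0 < Complex.normSq b := Complex.normSq_pos.2 hb
  rw [Complex.div_im]
  have : a.im * b.re / Complex.normSq b - a.re * b.im / Complex.normSq b =
      (a.im * b.re - a.re * b.im) / Complex.normSq b := by ring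
  rw [this]
  positivity

end TB07

theorem B07 : B07_pert := by
  intro U f hf
  refine ⟨?_, ?_⟩
  · intro ε hε hε1 x y hxy
    rw [TB07.expand]
    have hkey : ∀ i ∈ U, (y i + (-(Complex.I * ε)) * x i) ≠ 0 ∧
        0 < ((x i + (Complex.I * ε) * y i) / (y i + (-(Complex.I * ε)) * x i)).im := by
      intro i hi
      apply TB07.im_pos
      have e1 : x i + Complex.I * ε * y i - Complex.I * (y i + -(Complex.I * ε) * x i) =
          ((1 - ε : ℝ) : ℂ) * (x i - Complex.I * y i) := by
        have hI : Complex.I * Complex.I = -1 := Complex.I_mul_I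
        push_cast
        linear_combination (ε : ℂ) * x i * hI
      have e2 : x i + Complex.I * ε * y i + Complex.I * (y i + -(Complex.I * ε) * x i) =
          ((1 + ε : ℝ) : ℂ) * (x i + Complex.I * y i) := by
        have hI : Complex.I * Complex.I = -1 := Complex.I_mul_I
        push_cast
        linear_combination (-(ε : ℂ) * x i) * hI
      rw [e1, e2, norm_mul, norm_mul, Complex.norm_real, Complex.norm_real, Real.norm_eq_abs,
        Real.norm_eq_abs, abs_of_pos (by linarith : (0 : ℝ) < 1 - ε),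
        abs_of_pos (by linarith : (0 : ℝ) < 1 + ε)]
      have h1 := hxy i hi
      have h2 : (0 : ℝ) < 1 - ε := by linarith
      calc (1 - ε) * ‖x i - Complex.I * y i‖
          < (1 - ε) * ((1 + ε) / (1 - ε) * ‖x i + Complex.I * y i‖) :=
            mul_lt_mul_of_pos_left h1 h2
        _ = (1 + ε) * ‖x i + Complex.I * y i‖ := by
            field_simp
    have hz := hf (fun i => (x i + (Complex.I * ε) * y i) / (y i + (-(Complex.I * ε)) * x i))
      (fun i hi => (hkey i hi).2)
    have hprod : ∏ i ∈ U, (y i + (-(Complex.I * ε)) * x i) ≠ 0 :=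
      Finset.prod_ne_zero_iff.2 fun i hi => (hkey i hi).1
    have hfin : ∑ B ∈ U.powerset, f B * ((∏ i ∈ B, (x i + (Complex.I * ε) * y i)) *
        ∏ i ∈ U \ B, (y i + (-(Complex.I * ε)) * x i)) =
        (∏ i ∈ U, (y i + (-(Complex.I * ε)) * x i)) * MA U f
          (fun i => (x i + (Complex.I * ε) * y i) / (y i + (-(Complex.I * ε)) * x i)) := by
      unfold MA
      rw [Finset.mul_sum]
      refine Finset.sum_congr rfl fun B hB => ?_
      have hBU := Finset.mem_powerset.1 hB
      rw [← Finset.prod_sdiff hBU]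
      have h1 : ∏ i ∈ B, (x i + (Complex.I * ε) * y i) =
          (∏ i ∈ B, (y i + (-(Complex.I * ε)) * x i)) *
            ∏ i ∈ B, ((x i + (Complex.I * ε) * y i) / (y i + (-(Complex.I * ε)) * x i)) := by
        rw [← Finset.prod_mul_distrib]
        refine Finset.prod_congr rfl fun i hi => ?_
        rw [mul_div_cancel₀ _ (hkey i (hBU hi)).1]
      rw [h1]
      ring
    rw [hfin]
    exact mul_ne_zero hprod hz
  · intro S hS
    unfold pert
    rw [Finset.sum_eq_single S]
    · simp
    · intro B _ hBS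
      by_cases h1 : (B \ S).card = 0
      · by_cases h2 : (S \ B).card = 0
        · exfalso
          apply hBS
          rw [Finset.card_eq_zero, Finset.sdiff_eq_empty_iff_subset] at h1 h2
          exact Finset.Subset.antisymm h1 h2
        · have : (-(Complex.I * ((0 : ℝ) : ℂ))) ^ (S \ B).card = 0 := by
            rw [Complex.ofReal_zero, mul_zero, neg_zero, zero_pow h2]
          rw [this, mul_zero]
      · have : (Complex.I * ((0 : ℝ) : ℂ)) ^ (B \ S).card = 0 := by
          rw [Complex.ofReal_zero, mul_zero, zero_pow h1]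
        rw [this, mul_zero, zero_mul]
    · intro h
      exact absurd hS h

end Pool.Agent.H576.FK
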