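import Pool.Agent.H576.FK.Stmts

/-!
# B08: the operator with kernel `1 / binom (s + m) s` preserves stability
-/

set_option autoImplicit false

open scoped BigOperators
open Finset

namespace Pool.Agent.H576.FK

namespace TB08

/-- the coefficients of the symbol as a polynomial in `w` -/
noncomputable def pz (c : ℝ) (U : Finset ℕ) (z : ℕ → ℂ) (S : Finset ℕ) : ℂ :=
  ∑ S' ∈ U.powerset, if S.card = S'.card then
    ((mu c (S' \ S).card : ℝ) : ℂ) * (∏ i ∈ S', z i) else 0

/-- the coefficients of the image -/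
noncomputable def ge (c : ℝ) (U : Finset ℕ) (F : Finset ℕ → ℂ) (S' : Finset ℕ) : ℂ :=
  ∑ S ∈ U.powerset, if S.card = S'.card then ((mu c (S' \ S).card : ℝ) : ℂ) * F S else 0

theorem symbol (h3 : B03_expand) (c : ℝ) (U : Finset ℕ) (z w : ℕ → ℂ) :
    E2 c U z (fun _ => 1) w (fun _ => 1) 0 0 =
      ∑ S ∈ U.powerset, pz c U z S * ∏ i ∈ U \ S, w i := by
  rw [h3]
  apply Finset.sum_congr rfl
  intro S _
  unfold pz
  rw [Finset.sum_mul]
  apply Finset.sum_congr rfl
  intro S' _
  split_ifs
  · rfl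
  · simp

theorem exchange (c : ℝ) (U : Finset ℕ) (F : Finset ℕ → ℂ) (z : ℕ → ℂ) :
    ∑ S ∈ U.powerset, pz c U z S * F S = MA U (ge c U F) z := by
  unfold pz ge MA
  simp only [Finset.sum_mul]
  rw [Finset.sum_comm]
  apply Finset.sum_congr rfl
  intro S' _
  apply Finset.sum_congr rfl
  intro S _
  split_ifs
  · ring
  · simp

theorem pert_cont (U : Finset ℕ) (f : Finset ℕ → ℂ) (S : Finset ℕ) :
    Continuous (fun e : ℝ => pert U f e S) := by
  unfold pert
  apply continuous_finsetSum
  intro B _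
  have h1 : Continuous (fun e : ℝ => Complex.I * (e : ℂ)) := by fun_prop
  exact (continuous_const.mul (h1.pow _)).mul (h1.neg.pow _)

theorem MA_ge_cont (c : ℝ) (U : Finset ℕ) (f : Finset ℕ → ℂ) (z : ℕ → ℂ) :
    Continuous (fun e : ℝ => MA U (ge c U (fun S => pert U f e S)) z) := by
  unfold MA ge
  apply continuous_finsetSum
  intro S' _
  apply Continuous.mul _ continuous_const
  apply continuous_finsetSum
  intro S _
  split_ifs
  · exact continuous_const.mul (pert_cont U f S)
  · exact continuous_const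

theorem ge_congr (c : ℝ) (U : Finset ℕ) (F G : Finset ℕ → ℂ) (h : ∀ S ∈ U.powerset, F S = G S)
    (S' : Finset ℕ) : ge c U F S' = ge c U G S' := by
  unfold ge
  apply Finset.sum_congr rfl
  intro S hS
  rw [h S hS]

theorem nonzero (h2 : B02_sym) (h3 : B03_expand) (h5 : B05_asano) (h7 : B07_pert)
    (c : ℝ) (hc : 1 ≤ c) (U : Finset ℕ) (f : Finset ℕ → ℂ)
    (hf : ∀ z : ℕ → ℂ, (∀ i ∈ U, 0 < (z i).im) → MA U f z ≠ 0)
    (e : ℝ) (he : 0 < e) (he1 : e < 1) (z : ℕ → ℂ) (hz : ∀ i ∈ U, 0 < (z i).im) :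
    MA U (ge c U (fun S => pert U f e S)) z ≠ 0 := by
  rw [← exchange]
  have hR : 1 < (1 + e) / (1 - e) := by
    rw [lt_div_iff₀ (by linarith)]
    linarith
  apply h5 U _ _ _ hR
  intro w x y hw hxy
  apply mul_ne_zero
  · rw [← symbol h3]
    exact h2 c hc U z w (fun i hi => ⟨hz i hi, hw i hi⟩)
  · exact (h7 U f hf).1 e he he1 x y hxy

end TB08

theorem B08 (h0 : B00_mu) (h2 : B02_sym) (h3 : B03_expand) (h5 : B05_asano) (h6 : B06_harnack)
    (h7 : B07_pert) : B08_op := by
  intro s _ U f hf0 hf z hz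
  set c : ℝ := (s : ℝ) + 1 with hcdef
  have hc : 1 ≤ c := by
    have : (0 : ℝ) ≤ s := Nat.cast_nonneg s
    linarith
  set F : Finset ℕ → ℂ := fun S => (f S : ℂ) with hF
  -- the value at `e = 0`
  have hval : ∀ S' : Finset ℕ, TB08.ge c U (fun S => pert U F 0 S) S' =
      TB08.ge c U F S' := by
    intro S'
    apply TB08.ge_congr
    intro S hS
    exact (h7 U F hf).2 S hS
  -- Harnack in the limit
  have hH : ∀ s' z' : ℕ → ℂ, (∀ i ∈ U, 0 < (s' i).im) → (∀ i ∈ U, 0 < (z' i).im) →
      ‖MA U (TB08.ge c U F) s'‖ ≤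
        (∏ i ∈ U, (1 + ‖s' i - z' i‖ / (z' i).im)) * ‖MA U (TB08.ge c U F) z'‖ := by
    intro s' z' hs' hz'
    have hMA : ∀ v : ℕ → ℂ, MA U (TB08.ge c U (fun S => pert U F 0 S)) v =
        MA U (TB08.ge c U F) v := by
      intro v
      unfold MA
      apply Finset.sum_congr rfl
      intro S' _
      rw [hval S']
    have t1 : Filter.Tendsto (fun e : ℝ => ‖MA U (TB08.ge c U (fun S => pert U F e S)) s'‖)
        (nhdsWithin 0 (Set.Ioi 0)) (nhds ‖MA U (TB08.ge c U F) s'‖) := by
      have h := (TB08.MA_ge_cont c U F s').norm.tendsto 0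
      rw [hMA] at h
      exact h.mono_left nhdsWithin_le_nhds
    have t2 : Filter.Tendsto (fun e : ℝ => (∏ i ∈ U, (1 + ‖s' i - z' i‖ / (z' i).im)) *
        ‖MA U (TB08.ge c U (fun S => pert U F e S)) z'‖)
        (nhdsWithin 0 (Set.Ioi 0)) (nhds ((∏ i ∈ U, (1 + ‖s' i - z' i‖ / (z' i).im)) *
          ‖MA U (TB08.ge c U F) z'‖)) := by
      have h := (TB08.MA_ge_cont c U F z').norm.tendsto 0
      rw [hMA] at h
      exact (h.mono_left nhdsWithin_le_nhds).const_mul _
    apply le_of_tendsto_of_tendsto t1 t2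
    filter_upwards [Ioo_mem_nhdsGT (show (0 : ℝ) < 1 by norm_num)] with e he
    apply h6 U _ _ s' z' hs' hz'
    intro v hv
    exact TB08.nonzero h2 h3 h5 h7 c hc U F hf e he.1 he.2 v hv
  -- the polynomial is not identically zero
  have hne : MA U (TB08.ge c U F) z ≠ 0 := by
    intro hzero
    have hall : ∀ s' : ℕ → ℂ, (∀ i ∈ U, 0 < (s' i).im) → MA U (TB08.ge c U F) s' = 0 := by
      intro s' hs'
      have h := hH s' z hs' hz
      rw [hzero, norm_zero, mul_zero] at h
      exact norm_le_zero_iff.1 h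
    have hcont : Continuous (fun t : ℝ => MA U (TB08.ge c U F) (fun _ => Complex.I * (t : ℂ))) := by
      unfold MA
      apply continuous_finsetSum
      intro S' _
      apply continuous_const.mul
      apply continuous_finsetProd
      intro i _
      fun_prop
    have t1 : Filter.Tendsto (fun t : ℝ => MA U (TB08.ge c U F) (fun _ => Complex.I * (t : ℂ)))
        (nhdsWithin 0 (Set.Ioi 0))
        (nhds (MA U (TB08.ge c U F) (fun _ => Complex.I * ((0 : ℝ) : ℂ)))) :=
      (hcont.tendsto 0).mono_left nhdsWithin_le_nhds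
    have t2 : Filter.Tendsto (fun t : ℝ => MA U (TB08.ge c U F) (fun _ => Complex.I * (t : ℂ)))
        (nhdsWithin 0 (Set.Ioi 0)) (nhds 0) := by
      apply Filter.Tendsto.congr' _ tendsto_const_nhds
      filter_upwards [self_mem_nhdsWithin] with t ht
      symm
      apply hall
      intro i _
      have ht' : 0 < t := ht
      simpa using ht'
    have h0' := tendsto_nhds_unique t1 t2
    have hv0 : MA U (TB08.ge c U F) (fun _ => Complex.I * ((0 : ℝ) : ℂ)) = (f ∅ : ℂ) := by
      unfold MA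
      rw [Finset.sum_eq_single_of_mem ∅ (Finset.empty_mem_powerset U)]
      · unfold TB08.ge
        rw [Finset.sum_eq_single_of_mem ∅ (Finset.empty_mem_powerset U)]
        · simp [mu, hF]
        · intro S _ hS
          rw [if_neg]
          rw [Finset.card_empty]
          exact fun h => hS (Finset.card_eq_zero.1 h)
      · intro S _ hS
        obtain ⟨i, hi⟩ := Finset.nonempty_iff_ne_empty.2 hS
        rw [Finset.prod_eq_zero hi (by simp), mul_zero]
    rw [hv0] at h0'
    have : f ∅ = 0 := by exact_mod_cast h0'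
    linarith
  -- conclusion
  have hfin : MA U (fun S' => ((∑ S ∈ U.powersetCard S'.card,
      Kc s (S \ S').card * f S : ℝ) : ℂ)) z = MA U (TB08.ge c U F) z := by
    unfold MA
    apply Finset.sum_congr rfl
    intro S' _
    congr 1
    unfold TB08.ge
    rw [← Finset.sum_filter]
    show ((∑ S ∈ U.powersetCard S'.card, Kc s (S \ S').card * f S : ℝ) : ℂ) = _
    rw [Finset.powersetCard_eq_filter]
    push_cast
    apply Finset.sum_congr rfl
    intro S hS
    have hcard : S.card = S'.card := (Finset.mem_filter.1 hS).2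
    rw [← h0 s, Finset.card_sdiff_comm hcard]
  rw [hfin]
  exact hne

end Pool.Agent.H576.FK
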