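import Mathlib
import Pool.Agent.H576.FK.Stmts

set_option autoImplicit false

open scoped BigOperators
open Finset

namespace Pool.Agent.H576.FK

theorem TB09.gg_empty (V : Finset ℕ) (θ : ℕ → ℝ) (n : ℕ) : gg V θ n ∅ = 1 := by
  induction n with
  | zero => rfl
  | succ n ih =>
    rw [gg]
    simp [ih, Kc]

theorem TB09.MA_one (V : Finset ℕ) (z : ℕ → ℂ) :
    MA V (fun _ => 1) z = ∏ i ∈ V, (1 + z i) := by
  rw [MA, Finset.prod_one_add]
  simp

theorem B09 (h8 : B08_op) : B09_chain := by
  intro V θ hθ n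
  induction n with
  | zero =>
    intro z hz
    have h : MA V (fun S => (gg V θ 0 S : ℂ)) z = ∏ i ∈ V, (1 + z i) := by
      rw [← TB09.MA_one]
      simp [gg]
    rw [h, Finset.prod_ne_zero_iff]
    intro i hi h0
    have := hz i hi
    have h1 : (1 + z i).im = 0 := by rw [h0]; simp
    simp at h1
    linarith
  | succ n ih =>
    have hf : ∀ z : ℕ → ℂ, (∀ i ∈ V, 0 < (z i).im) →
        MA V (fun S => (((∏ i ∈ S, θ i) * gg V θ n S : ℝ) : ℂ)) z ≠ 0 := by
      intro z hz
      have h1 : MA V (fun S => (((∏ i ∈ S, θ i) * gg V θ n S : ℝ) : ℂ)) z =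
          MA V (fun S => (gg V θ n S : ℂ)) (fun i => (θ i : ℂ) * z i) := by
        rw [MA, MA]
        apply Finset.sum_congr rfl
        intro S _
        rw [Finset.prod_mul_distrib]
        push_cast
        ring
      rw [h1]
      apply ih
      intro i hi
      have h2 : ((θ i : ℂ) * z i).im = θ i * (z i).im := by simp
      rw [h2]
      exact mul_pos (hθ i hi) (hz i hi)
    intro z hz
    have h0 : 0 < (fun S => (∏ i ∈ S, θ i) * gg V θ n S) ∅ := by
      simp [TB09.gg_empty]
    exact h8 (n + 1) (by omega) V (fun S => (∏ i ∈ S, θ i) * gg V θ n S) h0 hf z hz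

end Pool.Agent.H576.FK
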