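import Mathlib
import Pool.Agent.H576.FK.Stmts

/-!
# Fisk's conjecture, C01: first order differential equations along the chain (helper196)
-/

set_option autoImplicit false

open scoped BigOperators
open Finset MvPolynomial

namespace Pool.Agent.H576.FK

namespace TC01

theorem Kc_step (r m : ℕ) (hm : 1 ≤ m) :
    (m : ℝ) * (Kc r (m - 1) - Kc r m) = r * Kc r m := by
  obtain ⟨m, rfl⟩ : ∃ m', m = m' + 1 := ⟨m - 1, by omega⟩
  rw [Nat.add_sub_cancel]
  unfold Kc
  have h1 : (Nat.choose (r + m) r) * (r + m + 1) = (Nat.choose (r + (m + 1)) r) * (m + 1) := by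
    have := Nat.choose_mul_succ_eq (r + m) r
    have h2 : r + m + 1 - r = m + 1 := by omega
    rw [h2] at this
    exact this
  have h1' : ((Nat.choose (r + m) r : ℕ) : ℝ) * (r + m + 1) =
      ((Nat.choose (r + (m + 1)) r : ℕ) : ℝ) * (m + 1) := by exact_mod_cast h1
  have p1 : ((Nat.choose (r + m) r : ℕ) : ℝ) ≠ 0 := by
    have := Nat.choose_pos (show r ≤ r + m by omega)
    positivity
  have p2 : ((Nat.choose (r + (m + 1)) r : ℕ) : ℝ) ≠ 0 := by
    have := Nat.choose_pos (show r ≤ r + (m + 1) by omega)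
    positivity
  set a : ℝ := ((Nat.choose (r + m) r : ℕ) : ℝ) with ha
  set b : ℝ := ((Nat.choose (r + (m + 1)) r : ℕ) : ℝ) with hb
  have e1 : a⁻¹ = b⁻¹ * (r + m + 1) / (m + 1) := by
    have hm1 : (m : ℝ) + 1 ≠ 0 := by positivity
    field_simp
    linear_combination -h1'
  rw [e1]
  have hm1 : (m : ℝ) + 1 ≠ 0 := by positivity
  push_cast
  field_simp
  ring

theorem card_swap (S' T : Finset ℕ) (v l : ℕ) (hv : v ∈ T) (hl : l ∉ T) :
    (insert l (T.erase v) \ S').card + (if v ∈ S' then 0 else 1) =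
      (T \ S').card + (if l ∈ S' then 0 else 1) := by
  have h1 : (T.erase v) \ S' = (T \ S').erase v := by
    ext x; simp only [mem_sdiff, mem_erase]; tauto
  have hA : ((T.erase v) \ S').card + (if v ∈ S' then 0 else 1) = (T \ S').card := by
    rw [h1]
    by_cases h : v ∈ S'
    · rw [if_pos h, add_zero, erase_eq_of_notMem]
      simp [h]
    · rw [if_neg h]
      have : v ∈ T \ S' := by simp [h, hv]
      exact card_erase_add_one this
  have hB : (insert l (T.erase v) \ S').card =
      ((T.erase v) \ S').card + (if l ∈ S' then 0 else 1) := by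
    by_cases h : l ∈ S'
    · rw [if_pos h, add_zero, insert_sdiff_of_mem _ h]
    · rw [if_neg h, insert_sdiff_of_notMem _ h, card_insert_of_notMem]
      simp [hl]
  omega

theorem swap_mem (V T : Finset ℕ) (k v l : ℕ) (hT : T ∈ V.powersetCard k) (hv : v ∈ T)
    (hl : l ∈ V \ T) :
    insert l (T.erase v) ∈ V.powersetCard k := by
  rw [mem_powersetCard] at hT ⊢
  rw [mem_sdiff] at hl
  refine ⟨?_, ?_⟩
  · intro x hx
    rw [mem_insert] at hx
    rcases hx with rfl | hx
    · exact hl.1
    · exact hT.1 (mem_of_mem_erase hx)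
  · rw [card_insert_of_notMem (fun h => hl.2 (mem_of_mem_erase h)), card_erase_add_one hv]
    exact hT.2

theorem swap_swap (T : Finset ℕ) (v l : ℕ) (hv : v ∈ T) (hl : l ∉ T) :
    insert v ((insert l (T.erase v)).erase l) = T := by
  rw [erase_insert (fun h => hl (mem_of_mem_erase h)), insert_erase hv]

theorem reindex {M : Type*} [AddCommMonoid M] (V : Finset ℕ) (k v : ℕ) (hv : v ∈ V)
    (F G : ℕ → Finset ℕ → M)
    (h : ∀ T ∈ V.powersetCard k, v ∈ T → ∀ l ∈ V \ T, F l (insert l (T.erase v)) = G l T) :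
    ∑ S ∈ (V.powersetCard k).filter (fun S => v ∉ S), ∑ i ∈ S, F i S =
      ∑ T ∈ (V.powersetCard k).filter (fun T => v ∈ T), ∑ l ∈ V \ T, G l T := by
  rw [Finset.sum_sigma', Finset.sum_sigma']
  refine Finset.sum_bij' (fun (x : (_ : Finset ℕ) × ℕ) _ => ⟨insert v (x.1.erase x.2), x.2⟩)
    (fun (x : (_ : Finset ℕ) × ℕ) _ => ⟨insert x.2 (x.1.erase v), x.2⟩) ?_ ?_ ?_ ?_ ?_
  · rintro ⟨S, i⟩ hx
    simp only [mem_sigma, mem_filter] at hx ⊢
    obtain ⟨⟨hS, hvS⟩, hi⟩ := hx
    have hSV := (mem_powersetCard.mp hS).1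
    have hiv : i ≠ v := fun e => hvS (e ▸ hi)
    refine ⟨⟨swap_mem V S k i v hS hi (mem_sdiff.mpr ⟨hv, hvS⟩), mem_insert_self _ _⟩, ?_⟩
    rw [mem_sdiff, mem_insert]
    refine ⟨hSV hi, ?_⟩
    rintro (h1 | h1)
    · exact hiv h1
    · exact (notMem_erase i S) h1
  · rintro ⟨T, l⟩ hx
    simp only [mem_sigma, mem_filter] at hx ⊢
    obtain ⟨⟨hT, hvT⟩, hl⟩ := hx
    have hl2 := (mem_sdiff.mp hl).2
    have hlv : v ≠ l := fun e => hl2 (e ▸ hvT)
    refine ⟨⟨swap_mem V T k v l hT hvT hl, ?_⟩, mem_insert_self _ _⟩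
    rw [mem_insert]
    rintro (h1 | h1)
    · exact hlv h1
    · exact (notMem_erase v T) h1
  · rintro ⟨S, i⟩ hx
    simp only [mem_sigma, mem_filter] at hx
    obtain ⟨⟨hS, hvS⟩, hi⟩ := hx
    simp only [Sigma.mk.injEq, heq_eq_eq, and_true]
    exact swap_swap S i v hi hvS
  · rintro ⟨T, l⟩ hx
    simp only [mem_sigma, mem_filter] at hx
    obtain ⟨⟨hT, hvT⟩, hl⟩ := hx
    simp only [Sigma.mk.injEq, heq_eq_eq, and_true]
    exact swap_swap T v l hvT (mem_sdiff.mp hl).2
  · rintro ⟨S, i⟩ hx
    simp only [mem_sigma, mem_filter] at hx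
    obtain ⟨⟨hS, hvS⟩, hi⟩ := hx
    have h1 := h (insert v (S.erase i)) (swap_mem V S k i v hS hi (mem_sdiff.mpr ⟨hv, hvS⟩))
      (mem_insert_self _ _) i ?_
    · rw [swap_swap S i v hi hvS] at h1
      exact h1
    · have hSV := (mem_powersetCard.mp hS).1
      have hiv : i ≠ v := fun e => hvS (e ▸ hi)
      rw [mem_sdiff, mem_insert]
      refine ⟨hSV hi, ?_⟩
      rintro (h1 | h1)
      · exact hiv h1
      · exact (notMem_erase i S) h1

/-- one step data: `e` is the divided difference of `t`. -/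
structure Data (V : Finset ℕ) (r : ℕ) (t : Finset ℕ → MvPolynomial ℕ ℝ)
    (e : ℕ → ℕ → Finset ℕ → MvPolynomial ℕ ℝ) : Prop where
  ha : ∀ S ∈ V.powerset, ∀ i ∈ S, ∀ j ∈ V \ S,
    (X i - X j) * e i j S = t S - t (insert j (S.erase i))
  hb : ∀ S ∈ V.powerset, ∀ j ∈ V \ S, X j * pderiv j (t S) = ∑ i ∈ S, (X i * e i j S - t S)
  hc : ∀ S ∈ V.powerset, ∀ i ∈ S, X i * pderiv i (t S) =
    C (r : ℝ) * t S - ∑ j ∈ V \ S, (X i * e i j S - t S)

theorem XX_ne {i j : ℕ} (h : i ≠ j) : (X i - X j : MvPolynomial ℕ ℝ) ≠ 0 := by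
  intro h0
  have : (X i : MvPolynomial ℕ ℝ) = X j := sub_eq_zero.mp h0
  exact h (X_injective this)

section Step

variable {V : Finset ℕ} {r : ℕ} {t : Finset ℕ → MvPolynomial ℕ ℝ}
    {e : ℕ → ℕ → Finset ℕ → MvPolynomial ℕ ℝ}

theorem Data.esymm (D : Data V r t e) {k : ℕ} {T : Finset ℕ} (hT : T ∈ V.powersetCard k)
    {v l : ℕ} (hv : v ∈ T) (hl : l ∈ V \ T) :
    e l v (insert l (T.erase v)) = e v l T := by
  have hl2 := (mem_sdiff.mp hl).2
  have hlv : l ≠ v := fun e => hl2 (e ▸ hv)
  have hTV := (mem_powersetCard.mp hT).1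
  have hS := (mem_powersetCard.mp (swap_mem V T k v l hT hv hl)).1
  have h1 := D.ha (insert l (T.erase v)) (mem_powerset.mpr hS) l (mem_insert_self _ _) v
    (by
      rw [mem_sdiff, mem_insert]
      refine ⟨hTV hv, ?_⟩
      rintro (h1 | h1)
      · exact hlv h1.symm
      · exact (notMem_erase v T) h1)
  rw [swap_swap T v l hv hl2] at h1
  have h2 := D.ha T (mem_powerset.mpr hTV) v hv l hl
  apply mul_left_cancel₀ (XX_ne hlv)
  linear_combination h1 + h2

theorem Data.qsymm (D : Data V r t e) {k : ℕ} {T : Finset ℕ} (hT : T ∈ V.powersetCard k)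
    {v l : ℕ} (hv : v ∈ T) (hl : l ∈ V \ T) :
    X l * e l v (insert l (T.erase v)) - t (insert l (T.erase v)) = X v * e v l T - t T := by
  rw [D.esymm hT hv hl]
  have hTV := (mem_powersetCard.mp hT).1
  have h2 := D.ha T (mem_powerset.mpr hTV) v hv l hl
  linear_combination -h2

/-- the sum `g` -/
noncomputable def g (V : Finset ℕ) (r : ℕ) (t : Finset ℕ → MvPolynomial ℕ ℝ)
    (S' : Finset ℕ) : MvPolynomial ℕ ℝ :=
  ∑ S ∈ V.powersetCard S'.card, C (Kc r (S \ S').card) * t S

/-- the divided difference of `g` -/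
noncomputable def d (V : Finset ℕ) (r : ℕ) (e : ℕ → ℕ → Finset ℕ → MvPolynomial ℕ ℝ)
    (i j : ℕ) (S' : Finset ℕ) : MvPolynomial ℕ ℝ :=
  ∑ S ∈ V.powersetCard S'.card, if i ∈ S ∧ j ∉ S then
    C (Kc r (S \ S').card - Kc r ((S \ S').card + 1)) * e i j S else 0

theorem general (D : Data V r t e) (S' : Finset ℕ) (v : ℕ) (hv : v ∈ V) :
    X v * pderiv v (g V r t S') =
      ∑ T ∈ (V.powersetCard S'.card).filter (fun T => v ∈ T),
        (C ((r : ℝ) * Kc r (T \ S').card) * t T +
          ∑ l ∈ V \ T, C (Kc r (insert l (T.erase v) \ S').card - Kc r (T \ S').card) *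
            (X v * e v l T - t T)) := by
  have h0 : X v * pderiv v (g V r t S') =
      ∑ S ∈ V.powersetCard S'.card, C (Kc r (S \ S').card) * (X v * pderiv v (t S)) := by
    rw [g, map_sum, Finset.mul_sum]
    refine Finset.sum_congr rfl (fun S _ => ?_)
    rw [Derivation.leibniz, pderiv_C]
    simp only [smul_eq_mul]
    ring
  rw [h0, ← Finset.sum_filter_add_sum_filter_not (V.powersetCard S'.card) (fun T => v ∈ T)]
  have h1 : ∑ S ∈ (V.powersetCard S'.card).filter (fun S => v ∉ S),
      C (Kc r (S \ S').card) * (X v * pderiv v (t S)) =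
      ∑ T ∈ (V.powersetCard S'.card).filter (fun T => v ∈ T), ∑ l ∈ V \ T,
        C (Kc r (insert l (T.erase v) \ S').card) * (X v * e v l T - t T) := by
    rw [← reindex V S'.card v hv (fun i S => C (Kc r (S \ S').card) * (X i * e i v S - t S))]
    · refine Finset.sum_congr rfl (fun S hS => ?_)
      rw [mem_filter] at hS
      have hSV := (mem_powersetCard.mp hS.1).1
      rw [D.hb S (mem_powerset.mpr hSV) v (mem_sdiff.mpr ⟨hv, hS.2⟩), Finset.mul_sum]
    · intro T hT hvT l hl
      rw [D.qsymm hT hvT hl]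
  rw [h1, ← Finset.sum_add_distrib]
  refine Finset.sum_congr rfl (fun T hT => ?_)
  rw [mem_filter] at hT
  have hTV := (mem_powersetCard.mp hT.1).1
  rw [D.hc T (mem_powerset.mpr hTV) v hT.2]
  have h2 : ∑ l ∈ V \ T, C (Kc r (insert l (T.erase v) \ S').card - Kc r (T \ S').card) *
            (X v * e v l T - t T) =
      ∑ l ∈ V \ T, C (Kc r (insert l (T.erase v) \ S').card) * (X v * e v l T - t T)
      - C (Kc r (T \ S').card) * ∑ l ∈ V \ T, (X v * e v l T - t T) := by
    rw [Finset.mul_sum, ← Finset.sum_sub_distrib]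
    refine Finset.sum_congr rfl (fun l _ => ?_)
    rw [map_sub]; ring
  rw [h2, map_mul]
  ring

theorem reindex1 (V : Finset ℕ) (k i j : ℕ) (hi : i ∈ V) (hj : j ∈ V)
    (f : Finset ℕ → MvPolynomial ℕ ℝ) :
    ∑ S ∈ (V.powersetCard k).filter (fun S => j ∉ S), (if i ∈ S then f S else 0) =
      ∑ T ∈ (V.powersetCard k).filter (fun T => j ∈ T),
        (if i ∉ T then f (insert i (T.erase j)) else 0) := by
  have h := reindex V k j hj (fun l S => if l = i then f S else 0)
    (fun l T => if l = i then f (insert i (T.erase j)) else 0) (by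
      intro T _ _ l _
      by_cases hl : l = i
      · subst hl; simp
      · simp [hl])
  have e1 : ∀ S : Finset ℕ, (∑ l ∈ S, if l = i then f S else 0) = if i ∈ S then f S else 0 := by
    intro S; rw [Finset.sum_ite_eq']
  have e2 : ∀ T : Finset ℕ, (∑ l ∈ V \ T, if l = i then f (insert i (T.erase j)) else 0) =
      if i ∉ T then f (insert i (T.erase j)) else 0 := by
    intro T; rw [Finset.sum_ite_eq']
    simp [hi]
  simp only [e1, e2] at h
  exact h

theorem card_swap2 (S' S : Finset ℕ) (i j : ℕ) (hi : i ∈ S') (hj : j ∉ S') :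
    (S \ insert j (S'.erase i)).card + (if j ∈ S then 1 else 0) =
      (S \ S').card + (if i ∈ S then 1 else 0) := by
  have hij : i ≠ j := fun e => hj (e ▸ hi)
  have h1 : S \ insert j (S'.erase i) = (S \ (S'.erase i)).erase j := by
    ext x; simp only [mem_sdiff, mem_erase, mem_insert]; tauto
  have hA : (S \ (S'.erase i)).card = (S \ S').card + (if i ∈ S then 1 else 0) := by
    by_cases h : i ∈ S
    · rw [if_pos h]
      have : S \ (S'.erase i) = insert i (S \ S') := by
        ext x; simp only [mem_sdiff, mem_erase, mem_insert]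
        by_cases hx : x = i
        · subst hx; simp [h]
        · simp [hx]
      rw [this, card_insert_of_notMem (by simp [hi])]
    · rw [if_neg h, add_zero]
      congr 1
      ext x; simp only [mem_sdiff, mem_erase]
      by_cases hx : x = i
      · subst hx; simp [h]
      · simp [hx]
  have hB : (S \ insert j (S'.erase i)).card + (if j ∈ S then 1 else 0) =
      (S \ (S'.erase i)).card := by
    rw [h1]
    by_cases h : j ∈ S
    · rw [if_pos h]
      exact card_erase_add_one (by
        rw [mem_sdiff]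
        exact ⟨h, fun h' => hj (mem_of_mem_erase h')⟩)
    · rw [if_neg h, add_zero, erase_eq_of_notMem]
      simp [h]
  omega

theorem D0 (D : Data V r t e) (S' : Finset ℕ) (hS' : S' ∈ V.powerset) (i : ℕ) (hi : i ∈ S')
    (j : ℕ) (hj : j ∈ V \ S') :
    (X i - X j) * d V r e i j S' = g V r t S' - g V r t (insert j (S'.erase i)) := by
  have hS'V := mem_powerset.mp hS'
  have hiV : i ∈ V := hS'V hi
  have hjV : j ∈ V := (mem_sdiff.mp hj).1
  have hj2 : j ∉ S' := (mem_sdiff.mp hj).2
  have hij : i ≠ j := fun e => hj2 (e ▸ hi)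
  have hcard : (insert j (S'.erase i)).card = S'.card := by
    rw [card_insert_of_notMem (fun h => hj2 (mem_of_mem_erase h)), card_erase_add_one hi]
  set T' := insert j (S'.erase i) with hT'
  have hL : (X i - X j) * d V r e i j S' =
      ∑ S ∈ (V.powersetCard S'.card).filter (fun S => j ∉ S), (if i ∈ S then
        C (Kc r (S \ S').card - Kc r ((S \ S').card + 1)) * t S else 0) -
      ∑ S ∈ (V.powersetCard S'.card).filter (fun S => j ∉ S), (if i ∈ S then
        C (Kc r (S \ S').card - Kc r ((S \ S').card + 1)) * t (insert j (S.erase i)) else 0) := by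
    rw [d, Finset.mul_sum, ← Finset.sum_sub_distrib, Finset.sum_filter]
    refine Finset.sum_congr rfl (fun S hS => ?_)
    have hSV := (mem_powersetCard.mp hS).1
    by_cases h1 : j ∉ S
    · by_cases h2 : i ∈ S
      · rw [if_pos ⟨h2, h1⟩, if_pos h1, if_pos h2, if_pos h2]
        have := D.ha S (mem_powerset.mpr hSV) i h2 j (mem_sdiff.mpr ⟨hjV, h1⟩)
        linear_combination C (Kc r (S \ S').card - Kc r ((S \ S').card + 1)) * this
      · rw [if_neg (fun h => h2 h.1), if_pos h1, if_neg h2, if_neg h2]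
        ring
    · rw [if_neg (fun h => h1 h.2), if_neg h1]
      ring
  rw [hL, reindex1 V S'.card i j hiV hjV (fun S =>
    C (Kc r (S \ S').card - Kc r ((S \ S').card + 1)) * t (insert j (S.erase i)))]
  rw [g, g, hcard, ← Finset.sum_sub_distrib,
    ← Finset.sum_filter_add_sum_filter_not (V.powersetCard S'.card) (fun T => j ∈ T),
    add_comm, sub_eq_add_neg, ← Finset.sum_neg_distrib]
  congr 1
  · refine Finset.sum_congr rfl (fun S hS => ?_)
    rw [mem_filter] at hS
    have hc := card_swap2 S' S i j hi hj2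
    rw [if_neg hS.2] at hc
    by_cases h2 : i ∈ S
    · rw [if_pos h2] at hc ⊢
      rw [show (S \ T').card = (S \ S').card + 1 by simpa using hc, map_sub]
      ring
    · rw [if_neg h2] at hc ⊢
      rw [show (S \ T').card = (S \ S').card by simpa using hc]
      ring
  · refine Finset.sum_congr rfl (fun T hT => ?_)
    rw [mem_filter] at hT
    have hc := card_swap2 S' T i j hi hj2
    rw [if_pos hT.2] at hc
    by_cases h2 : i ∈ T
    · rw [if_pos h2] at hc
      rw [if_neg (not_not.mpr h2)]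
      rw [show (T \ T').card = (T \ S').card by simpa using hc]
      ring
    · rw [if_neg h2] at hc
      rw [if_pos h2]
      have hc2 := card_swap S' T j i hT.2 h2
      rw [if_neg hj2, if_pos hi] at hc2
      have e1 : (T \ S').card = (T \ T').card + 1 := by simpa using hc.symm
      have e2 : (insert i (T.erase j) \ S').card = (T \ T').card := by omega
      have e3 : insert j ((insert i (T.erase j)).erase i) = T := swap_swap T j i hT.2 h2
      rw [e2, e3, e1, map_sub]
      ring

theorem D1 (D : Data V r t e) (S' : Finset ℕ) (hS' : S' ∈ V.powerset)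
    (j : ℕ) (hj : j ∈ V \ S') :
    pderiv j (g V r t S') = ∑ i ∈ S', d V r e i j S' := by
  have hS'V := mem_powerset.mp hS'
  have hjV : j ∈ V := (mem_sdiff.mp hj).1
  have hj2 : j ∉ S' := (mem_sdiff.mp hj).2
  apply mul_left_cancel₀ (X_ne_zero j : (X j : MvPolynomial ℕ ℝ) ≠ 0)
  rw [general D S' j hjV]
  have h1 : ∑ i ∈ S', d V r e i j S' =
      ∑ T ∈ (V.powersetCard S'.card).filter (fun T => j ∈ T), ∑ l ∈ V \ T,
        (if l ∈ S' then C (Kc r ((T \ S').card - 1) - Kc r (T \ S').card) * e j l T else 0) := by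
    rw [← reindex V S'.card j hjV (fun i S => if i ∈ S' then
      C (Kc r (S \ S').card - Kc r ((S \ S').card + 1)) * e i j S else 0)]
    · unfold d
      rw [Finset.sum_comm, Finset.sum_filter]
      refine Finset.sum_congr rfl (fun S hS => ?_)
      by_cases h1 : j ∉ S
      · rw [if_pos h1, ← Finset.sum_filter, ← Finset.sum_filter]
        refine Finset.sum_congr ?_ (fun _ _ => rfl)
        ext x; simp only [mem_filter]; tauto
      · rw [if_neg h1]
        exact Finset.sum_eq_zero (fun i _ => if_neg (fun h => h1 h.2))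
    · intro T hT hjT l hl
      by_cases h : l ∈ S'
      · rw [if_pos h, if_pos h, D.esymm hT hjT hl]
        have hc2 := card_swap S' T j l hjT (mem_sdiff.mp hl).2
        rw [if_neg hj2, if_pos h] at hc2
        have e1 : (insert l (T.erase j) \ S').card = (T \ S').card - 1 := by omega
        have e2 : (T \ S').card - 1 + 1 = (T \ S').card := by omega
        rw [e1, e2]
      · rw [if_neg h, if_neg h]
  rw [h1, Finset.mul_sum]
  refine Finset.sum_congr rfl (fun T hT => ?_)
  rw [mem_filter] at hT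
  obtain ⟨hTP, hjT⟩ := hT
  have hTV := (mem_powersetCard.mp hTP).1
  have hTc := (mem_powersetCard.mp hTP).2
  have hmem : j ∈ T \ S' := mem_sdiff.mpr ⟨hjT, hj2⟩
  have hm : 1 ≤ (T \ S').card := card_pos.mpr ⟨j, hmem⟩
  have hterm : ∀ l ∈ V \ T, C (Kc r (insert l (T.erase j) \ S').card - Kc r (T \ S').card) *
      (X j * e j l T - t T) =
      X j * (if l ∈ S' then C (Kc r ((T \ S').card - 1) - Kc r (T \ S').card) * e j l T else 0) -
      (if l ∈ S' then C (Kc r ((T \ S').card - 1) - Kc r (T \ S').card) * t T else 0) := by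
    intro l hl
    have hc2 := card_swap S' T j l hjT (mem_sdiff.mp hl).2
    rw [if_neg hj2] at hc2
    by_cases h : l ∈ S'
    · rw [if_pos h] at hc2
      rw [if_pos h, if_pos h]
      have e1 : (insert l (T.erase j) \ S').card = (T \ S').card - 1 := by omega
      rw [e1]; ring
    · rw [if_neg h] at hc2
      rw [if_neg h, if_neg h]
      have e1 : (insert l (T.erase j) \ S').card = (T \ S').card := by omega
      rw [e1, sub_self, map_zero]; ring
  rw [Finset.sum_congr rfl hterm, Finset.sum_sub_distrib, ← Finset.mul_sum]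
  have hcount : ∑ l ∈ V \ T, (if l ∈ S' then
      C (Kc r ((T \ S').card - 1) - Kc r (T \ S').card) * t T else 0) =
      C ((r : ℝ) * Kc r (T \ S').card) * t T := by
    rw [← Finset.sum_filter, Finset.sum_const]
    have e1 : ((V \ T).filter (fun l => l ∈ S')).card = (T \ S').card := by
      have : (V \ T).filter (fun l => l ∈ S') = S' \ T := by
        ext x; simp only [mem_filter, mem_sdiff]
        constructor
        · rintro ⟨⟨_, h2⟩, h3⟩; exact ⟨h3, h2⟩
        · rintro ⟨h1, h2⟩; exact ⟨⟨hS'V h1, h2⟩, h1⟩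
      rw [this]
      exact (card_sdiff_comm hTc).symm
    rw [e1, ← Kc_step r _ hm, map_mul, map_natCast, nsmul_eq_mul]
    ring
  rw [hcount]
  ring

theorem D2 (D : Data V r t e) (S' : Finset ℕ) (hS' : S' ∈ V.powerset)
    (i : ℕ) (hi : i ∈ S') :
    X i * pderiv i (g V r t S') = C (r : ℝ) * g V r t S' - ∑ j ∈ V \ S', X j * d V r e i j S' := by
  have hS'V := mem_powerset.mp hS'
  have hiV : i ∈ V := hS'V hi
  rw [general D S' i hiV]
  have h1 : ∑ j ∈ V \ S', X j * d V r e i j S' =
      ∑ T ∈ (V.powersetCard S'.card).filter (fun T => i ∈ T), ∑ l ∈ V \ T,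
        (if l ∉ S' then C (Kc r (T \ S').card - Kc r ((T \ S').card + 1)) *
          (X i * e i l T - t T + t (insert l (T.erase i))) else 0) := by
    unfold d
    simp only [Finset.mul_sum]
    rw [Finset.sum_comm, Finset.sum_filter]
    refine Finset.sum_congr rfl (fun S hS => ?_)
    have hSV := (mem_powersetCard.mp hS).1
    by_cases h1 : i ∈ S
    · rw [if_pos h1, ← Finset.sum_filter]
      have e0 : ∑ j ∈ V \ S', X j * (if i ∈ S ∧ j ∉ S then
          C (Kc r (S \ S').card - Kc r ((S \ S').card + 1)) * e i j S else 0) =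
          ∑ j ∈ V \ S', (if j ∉ S then
          X j * (C (Kc r (S \ S').card - Kc r ((S \ S').card + 1)) * e i j S) else 0) := by
        refine Finset.sum_congr rfl (fun j _ => ?_)
        by_cases h2 : j ∉ S
        · rw [if_pos ⟨h1, h2⟩, if_pos h2]
        · rw [if_neg (fun h => h2 h.2), if_neg h2, mul_zero]
      rw [e0, ← Finset.sum_filter]
      refine Finset.sum_congr ?_ (fun j hj => ?_)
      · ext x; simp only [mem_filter, mem_sdiff]; tauto
      · rw [mem_filter, mem_sdiff] at hj
        have := D.ha S (mem_powerset.mpr hSV) i h1 j (mem_sdiff.mpr hj.1)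
        linear_combination -C (Kc r (S \ S').card - Kc r ((S \ S').card + 1)) * this
    · rw [if_neg h1]
      exact Finset.sum_eq_zero (fun j _ => by rw [if_neg (fun h => h1 h.1), mul_zero])
  have h2 : C (r : ℝ) * g V r t S' =
      ∑ T ∈ (V.powersetCard S'.card).filter (fun T => i ∈ T),
        (C ((r : ℝ) * Kc r (T \ S').card) * t T + ∑ l ∈ V \ T,
          (if l ∉ S' then C (Kc r (T \ S').card - Kc r ((T \ S').card + 1)) *
            t (insert l (T.erase i)) else 0)) := by
    rw [Finset.sum_add_distrib,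
      ← reindex V S'.card i hiV (fun l S => if l ∉ S' then
        C (Kc r ((S \ S').card - 1) - Kc r (S \ S').card) * t S else 0)]
    · rw [g, Finset.mul_sum,
        ← Finset.sum_filter_add_sum_filter_not (V.powersetCard S'.card) (fun T => i ∈ T)]
      congr 1
      · refine Finset.sum_congr rfl (fun S _ => ?_)
        rw [map_mul]; ring
      · refine Finset.sum_congr rfl (fun S hS => ?_)
        rw [mem_filter] at hS
        have hSc := (mem_powersetCard.mp hS.1).2
        have hm : 1 ≤ (S \ S').card := by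
          rw [card_sdiff_comm hSc]
          exact card_pos.mpr ⟨i, mem_sdiff.mpr ⟨hi, hS.2⟩⟩
        rw [← Finset.sum_filter, Finset.sum_const]
        have e1 : (S.filter (fun l => l ∉ S')) = S \ S' := by
          ext x; simp only [mem_filter, mem_sdiff]
        rw [e1, nsmul_eq_mul]
        have := Kc_step r _ hm
        have h3 : (C ((r : ℝ) * Kc r (S \ S').card) : MvPolynomial ℕ ℝ) =
          C ((((S \ S').card : ℕ) : ℝ) * (Kc r ((S \ S').card - 1) - Kc r (S \ S').card)) := by
          rw [this]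
        have h4 : (C (((S \ S').card : ℕ) : ℝ) : MvPolynomial ℕ ℝ) =
          (((S \ S').card : ℕ) : MvPolynomial ℕ ℝ) := map_natCast C _
        rw [map_mul, map_mul, h4] at h3
        rw [← mul_assoc, ← mul_assoc, h3]
    · intro T hT hiT l hl
      by_cases h : l ∉ S'
      · rw [if_pos h, if_pos h]
        have hc2 := card_swap S' T i l hiT (mem_sdiff.mp hl).2
        rw [if_pos hi, if_neg h] at hc2
        have e1 : (insert l (T.erase i) \ S').card = (T \ S').card + 1 := by omega
        rw [e1, Nat.add_sub_cancel]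
      · rw [if_neg h, if_neg h]
  rw [h1, h2, ← Finset.sum_sub_distrib]
  refine Finset.sum_congr rfl (fun T hT => ?_)
  rw [mem_filter] at hT
  obtain ⟨hTP, hiT⟩ := hT
  rw [add_sub_assoc, ← Finset.sum_sub_distrib]
  congr 1
  refine Finset.sum_congr rfl (fun l hl => ?_)
  have hc2 := card_swap S' T i l hiT (mem_sdiff.mp hl).2
  rw [if_pos hi] at hc2
  by_cases h : l ∈ S'
  · rw [if_pos h] at hc2
    rw [if_neg (not_not.mpr h), if_neg (not_not.mpr h)]
    have e1 : (insert l (T.erase i) \ S').card = (T \ S').card := by omega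
    rw [e1, sub_self, map_zero]; ring
  · rw [if_neg h] at hc2
    rw [if_pos h, if_pos h]
    have e1 : (insert l (T.erase i) \ S').card = (T \ S').card + 1 := by omega
    rw [e1, map_sub, map_sub]; ring

/-- the step -/
theorem step (D : Data V r t e) :
    Data V (r + 1) (fun S => (∏ i ∈ S, X i) * g V r t S)
      (fun i j S => (∏ l ∈ S.erase i, X l) * (g V r t S + X j * d V r e i j S)) := by
  have hprod : ∀ (S : Finset ℕ) (i : ℕ), i ∈ S →
      (∏ l ∈ S, (X l : MvPolynomial ℕ ℝ)) = X i * ∏ l ∈ S.erase i, X l :=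
    fun S i hi => (Finset.mul_prod_erase S _ hi).symm
  have hpd0 : ∀ (S : Finset ℕ) (j : ℕ), j ∉ S →
      pderiv j (∏ l ∈ S, (X l : MvPolynomial ℕ ℝ)) = 0 := by
    intro S j hj
    apply pderiv_eq_zero_of_notMem_vars
    intro h
    have h1 : j ∈ S.biUnion (fun l => (X l : MvPolynomial ℕ ℝ).vars) := vars_prod _ h
    rw [mem_biUnion] at h1
    obtain ⟨a, ha, hb⟩ := h1
    rw [vars_X, mem_singleton] at hb
    exact hj (hb ▸ ha)
  refine ⟨?_, ?_, ?_⟩
  · intro S hS i hi j hj
    have hj2 : j ∉ S := (mem_sdiff.mp hj).2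
    have h0 := D0 D S hS i hi j hj
    have e1 : (∏ l ∈ insert j (S.erase i), (X l : MvPolynomial ℕ ℝ)) =
        X j * ∏ l ∈ S.erase i, X l :=
      Finset.prod_insert (fun h => hj2 (mem_of_mem_erase h))
    rw [e1, hprod S i hi]
    linear_combination (X j * ∏ l ∈ S.erase i, X l) * h0
  · intro S hS j hj
    have hj2 : j ∉ S := (mem_sdiff.mp hj).2
    rw [Derivation.leibniz, hpd0 S j hj2, D1 D S hS j hj]
    simp only [smul_eq_mul, mul_zero, add_zero]
    rw [← mul_assoc, Finset.mul_sum]
    refine Finset.sum_congr rfl (fun i hi => ?_)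
    rw [hprod S i hi]
    ring
  · intro S hS i hi
    have h2 := D2 D S hS i hi
    have e0 : X i * pderiv i (∏ l ∈ S, (X l : MvPolynomial ℕ ℝ)) = ∏ l ∈ S, X l := by
      rw [hprod S i hi, Derivation.leibniz, hpd0 _ _ (notMem_erase i S), pderiv_X_self]
      simp
    rw [Derivation.leibniz]
    simp only [smul_eq_mul]
    have e1 : ∑ j ∈ V \ S, (X i * ((∏ l ∈ S.erase i, X l) * (g V r t S + X j * d V r e i j S)) -
        (∏ l ∈ S, X l) * g V r t S) = (∏ l ∈ S, X l) * ∑ j ∈ V \ S, X j * d V r e i j S := by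
      rw [Finset.mul_sum]
      refine Finset.sum_congr rfl (fun j _ => ?_)
      rw [hprod S i hi]; ring
    rw [e1]
    push_cast
    rw [map_add, map_one]
    linear_combination (∏ l ∈ S, X l) * h2 + g V r t S * e0

end Step

theorem base (V : Finset ℕ) :
    Data V 1 (fun S => ∏ i ∈ S, X i) (fun i _ S => ∏ l ∈ S.erase i, X l) := by
  have hprod : ∀ (S : Finset ℕ) (i : ℕ), i ∈ S →
      (∏ l ∈ S, (X l : MvPolynomial ℕ ℝ)) = X i * ∏ l ∈ S.erase i, X l :=
    fun S i hi => (Finset.mul_prod_erase S _ hi).symm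
  have hpd0 : ∀ (S : Finset ℕ) (j : ℕ), j ∉ S →
      pderiv j (∏ l ∈ S, (X l : MvPolynomial ℕ ℝ)) = 0 := by
    intro S j hj
    apply pderiv_eq_zero_of_notMem_vars
    intro h
    have h1 : j ∈ S.biUnion (fun l => (X l : MvPolynomial ℕ ℝ).vars) := vars_prod _ h
    rw [mem_biUnion] at h1
    obtain ⟨a, ha, hb⟩ := h1
    rw [vars_X, mem_singleton] at hb
    exact hj (hb ▸ ha)
  refine ⟨?_, ?_, ?_⟩
  · intro S hS i hi j hj
    have hj2 : j ∉ S := (mem_sdiff.mp hj).2
    have e1 : (∏ l ∈ insert j (S.erase i), (X l : MvPolynomial ℕ ℝ)) =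
        X j * ∏ l ∈ S.erase i, X l :=
      Finset.prod_insert (fun h => hj2 (mem_of_mem_erase h))
    rw [e1, hprod S i hi]
    ring
  · intro S hS j hj
    rw [hpd0 S j (mem_sdiff.mp hj).2, mul_zero]
    symm
    refine Finset.sum_eq_zero (fun i hi => ?_)
    rw [hprod S i hi]; ring
  · intro S hS i hi
    have e0 : X i * pderiv i (∏ l ∈ S, (X l : MvPolynomial ℕ ℝ)) = ∏ l ∈ S, X l := by
      rw [hprod S i hi, Derivation.leibniz, hpd0 _ _ (notMem_erase i S), pderiv_X_self]
      simp
    rw [e0, ← hprod S i hi]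
    simp

theorem main (V : Finset ℕ) (n : ℕ) :
    ∃ e : ℕ → ℕ → Finset ℕ → MvPolynomial ℕ ℝ, Data V (n + 1) (tt V n) e := by
  induction n with
  | zero => exact ⟨_, base V⟩
  | succ n ih =>
    obtain ⟨e, D⟩ := ih
    exact ⟨_, step D⟩

end TC01

open TC01 in
/-- C01: first order differential equations along the chain. -/
theorem C01 : C01_first := by
  intro V n
  obtain ⟨e, D⟩ := TC01.main V n
  refine ⟨fun i j S => X i * e i j S - tt V n S, ?_, ?_, ?_⟩
  · intro S hS i hi j hj
    have := D.ha S hS i hi j hj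
    linear_combination X i * this
  · intro S hS j hj
    exact D.hb S hS j hj
  · intro S hS i hi
    have := D.hc S hS i hi
    push_cast at this
    exact this

end Pool.Agent.H576.FK
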