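import Mathlib
import Pool.Agent.H576.FK.Stmts

set_option autoImplicit false

open scoped BigOperators
open Finset

namespace Pool.Agent.H576.FK

namespace TC02

/-- exchange `i` against `j` -/
def sw (i j : ℕ) (S : Finset ℕ) : Finset ℕ := insert j (S.erase i)

theorem sw_mem {V : Finset ℕ} {k i j : ℕ} (hj : j ∈ V) {S : Finset ℕ}
    (h : S ∈ (V.powersetCard k).filter (fun S => i ∈ S ∧ j ∉ S)) :
    sw i j S ∈ (V.powersetCard k).filter (fun S => j ∈ S ∧ i ∉ S) := by
  rw [Finset.mem_filter, Finset.mem_powersetCard] at h ⊢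
  obtain ⟨⟨hV, hk⟩, hi, hjS⟩ := h
  have hij : i ≠ j := by rintro rfl; exact hjS hi
  refine ⟨⟨?_, ?_⟩, Finset.mem_insert_self _ _, ?_⟩
  · intro x hx
    rcases Finset.mem_insert.mp hx with rfl | hx
    · exact hj
    · exact hV (Finset.mem_of_mem_erase hx)
  · unfold sw
    rw [Finset.card_insert_of_notMem (fun h => hjS (Finset.mem_of_mem_erase h)), Finset.card_erase_of_mem hi, hk]
    have : 0 < S.card := Finset.card_pos.mpr ⟨i, hi⟩
    omega
  · intro h
    rcases Finset.mem_insert.mp h with h | h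
    · exact hij h
    · exact Finset.notMem_erase i S h

theorem sw_sw {i j : ℕ} {S : Finset ℕ} (hi : i ∈ S) (hj : j ∉ S) : sw j i (sw i j S) = S := by
  unfold sw
  rw [Finset.erase_insert (fun h => hj (Finset.mem_of_mem_erase h)), Finset.insert_erase hi]

theorem sum_sw {M : Type} [AddCommMonoid M] {V : Finset ℕ} {k i j : ℕ} (hi : i ∈ V) (hj : j ∈ V)
    (f g : Finset ℕ → M)
    (h : ∀ S ∈ (V.powersetCard k).filter (fun S => i ∈ S ∧ j ∉ S), f S = g (sw i j S)) :
    ∑ S ∈ (V.powersetCard k).filter (fun S => i ∈ S ∧ j ∉ S), f S =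
      ∑ S ∈ (V.powersetCard k).filter (fun S => j ∈ S ∧ i ∉ S), g S := by
  refine Finset.sum_nbij' (sw i j) (sw j i) (fun S hS => sw_mem hj hS) (fun S hS => sw_mem hi hS) ?_ ?_ h
  · intro S hS
    rw [Finset.mem_filter] at hS
    exact sw_sw hS.2.1 hS.2.2
  · intro S hS
    rw [Finset.mem_filter] at hS
    exact sw_sw hS.2.1 hS.2.2

open MvPolynomial

abbrev A := MvPolynomial ℕ ℝ

theorem X_sub_ne {i j : ℕ} (h : i ≠ j) : (X i - X j : A) ≠ 0 := by
  rw [sub_ne_zero]
  intro e
  exact h (MvPolynomial.X_injective e)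

/-- the substitution `X l = 0` -/
noncomputable abbrev rho (l : ℕ) : MvPolynomial ℕ ℝ →ₐ[ℝ] MvPolynomial ℕ ℝ :=
  aeval (fun i => if i = l then (0 : MvPolynomial ℕ ℝ) else X i)

theorem rho_X_self (l : ℕ) : rho l (X l) = 0 := by simp [rho]

theorem rho_X_ne (l i : ℕ) (h : i ≠ l) : rho l (X i) = X i := by simp [rho, h]

theorem rho_C (l : ℕ) (a : ℝ) : rho l (C a) = C a := by
  simp [rho, MvPolynomial.algebraMap_eq]

theorem sub_dvd (l : ℕ) (P : MvPolynomial ℕ ℝ) : X l ∣ P - rho l P := by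
  induction P using MvPolynomial.induction_on with
  | C a => rw [rho_C, sub_self]; exact dvd_zero _
  | add p q hp hq =>
    rw [map_add]
    have : p + q - (rho l p + rho l q) = (p - rho l p) + (q - rho l q) := by ring
    rw [this]; exact dvd_add hp hq
  | mul_X p i hp =>
    rw [map_mul]
    rcases eq_or_ne i l with rfl | h
    · rw [rho_X_self, mul_zero, sub_zero]; exact Dvd.intro_left _ rfl
    · rw [rho_X_ne l i h, ← sub_mul]; exact hp.mul_right _

theorem dvd_of_mul {l j : ℕ} (h : l ≠ j) {F G : A} (e : (X l - X j) * F = X l * G) : (X l : A) ∣ F := by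
  have h1 := congrArg (rho l) e
  rw [map_mul, map_mul, map_sub, rho_X_self, rho_X_ne l j h.symm, zero_mul, zero_sub, neg_mul, neg_eq_zero] at h1
  have h2 : rho l F = 0 := by
    rcases mul_eq_zero.mp h1 with h3 | h3
    · exact absurd h3 (MvPolynomial.X_ne_zero j)
    · exact h3
  have h3 := sub_dvd l F
  rwa [h2, sub_zero] at h3

end TC02

open TC02 MvPolynomial in
theorem C02 (h : C01_first) : C02_muirT := by
  intro V l n k hl
  obtain ⟨q, hq1, hq2, hq3⟩ := h V n
  set r : ℝ := (n : ℝ) + 1 with hr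
  set t : Finset ℕ → A := tt V n with ht
  set P := V.powersetCard k with hP
  have hPV : ∀ S ∈ P, S ∈ V.powerset := fun S hS => Finset.mem_powerset.mpr (Finset.mem_powersetCard.mp hS).1
  set T := TT V n k with hT
  have hTsum : T = ∑ S ∈ P, t S := rfl
  set Tj : ℕ → A := fun j => ∑ S ∈ P.filter (fun S => j ∈ S), t S with hTj
  -- symmetry of q
  have hqsym : ∀ i ∈ V, ∀ j ∈ V, ∀ S ∈ P.filter (fun S => i ∈ S ∧ j ∉ S), q i j S = q j i (sw i j S) := by
    intro i hi j hj S hS
    have hS' := sw_mem hj hS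
    rw [Finset.mem_filter] at hS hS'
    obtain ⟨hSP, hiS, hjS⟩ := hS
    obtain ⟨hS'P, hjS', hiS'⟩ := hS'
    have hij : i ≠ j := by rintro rfl; exact hjS hiS
    have e1 := hq1 S (hPV S hSP) i hiS j (Finset.mem_sdiff.mpr ⟨hj, hjS⟩)
    have e2 := hq1 (sw i j S) (hPV _ hS'P) j hjS' i (Finset.mem_sdiff.mpr ⟨hi, hiS'⟩)
    have e3 : insert i ((sw i j S).erase j) = S := sw_sw hiS hjS
    rw [e3] at e2
    have e4 : insert j (S.erase i) = sw i j S := rfl
    rw [e4] at e1
    apply mul_left_cancel₀ (X_sub_ne hij)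
    rw [e1]
    linear_combination e2
  -- (a)
  have ha : ∀ j ∈ V, X j * pderiv j T = C r * Tj j := by
    intro j hj
    have e1 : X j * pderiv j T = ∑ S ∈ P, X j * pderiv j (t S) := by
      rw [hTsum, map_sum, Finset.mul_sum]
    rw [e1, ← Finset.sum_filter_add_sum_filter_not P (fun S => j ∈ S)]
    have e2 : ∑ S ∈ P.filter (fun S => j ∈ S), X j * pderiv j (t S) =
        C r * Tj j - ∑ S ∈ P.filter (fun S => j ∈ S), ∑ i ∈ V \ S, q j i S := by
      rw [hTj, Finset.mul_sum, ← Finset.sum_sub_distrib]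
      refine Finset.sum_congr rfl fun S hS => ?_
      rw [Finset.mem_filter] at hS
      exact hq3 S (hPV S hS.1) j hS.2
    have e3 : ∑ S ∈ P.filter (fun S => ¬ j ∈ S), X j * pderiv j (t S) =
        ∑ S ∈ P.filter (fun S => ¬ j ∈ S), ∑ i ∈ S, q i j S := by
      refine Finset.sum_congr rfl fun S hS => ?_
      rw [Finset.mem_filter] at hS
      exact hq2 S (hPV S hS.1) j (Finset.mem_sdiff.mpr ⟨hj, hS.2⟩)
    have e4 : ∑ S ∈ P.filter (fun S => ¬ j ∈ S), ∑ i ∈ S, q i j S =
        ∑ i ∈ V.erase j, ∑ S ∈ P.filter (fun S => i ∈ S ∧ j ∉ S), q i j S := by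
      apply Finset.sum_comm'
      intro S i
      simp only [Finset.mem_filter, Finset.mem_erase]
      constructor
      · rintro ⟨⟨hSP, hjS⟩, hiS⟩
        refine ⟨⟨hSP, hiS, hjS⟩, ?_, (Finset.mem_powersetCard.mp hSP).1 hiS⟩
        rintro rfl; exact hjS hiS
      · rintro ⟨⟨hSP, hiS, hjS⟩, -⟩
        exact ⟨⟨hSP, hjS⟩, hiS⟩
    have e5 : ∑ S ∈ P.filter (fun S => j ∈ S), ∑ i ∈ V \ S, q j i S =
        ∑ i ∈ V.erase j, ∑ S ∈ P.filter (fun S => j ∈ S ∧ i ∉ S), q j i S := by
      apply Finset.sum_comm'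
      intro S i
      simp only [Finset.mem_filter, Finset.mem_erase, Finset.mem_sdiff]
      constructor
      · rintro ⟨⟨hSP, hjS⟩, hiV, hiS⟩
        refine ⟨⟨hSP, hjS, hiS⟩, ?_, hiV⟩
        rintro rfl; exact hiS hjS
      · rintro ⟨⟨hSP, hjS, hiS⟩, -, hiV⟩
        exact ⟨⟨hSP, hjS⟩, hiV, hiS⟩
    have e6 : ∑ i ∈ V.erase j, ∑ S ∈ P.filter (fun S => i ∈ S ∧ j ∉ S), q i j S =
        ∑ i ∈ V.erase j, ∑ S ∈ P.filter (fun S => j ∈ S ∧ i ∉ S), q j i S := by
      refine Finset.sum_congr rfl fun i hi => ?_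
      have hiV := Finset.mem_of_mem_erase hi
      exact sum_sw hiV hj _ _ (hqsym i hiV j hj)
    rw [e2, e3, e4, e5, e6]
    ring
  -- (b)
  set B := Tj l with hB
  set a : ℕ → A := fun j => ∑ S ∈ P.filter (fun S => l ∈ S ∧ j ∉ S), t S with hadef
  set b : ℕ → A := fun j => ∑ S ∈ P.filter (fun S => j ∈ S ∧ l ∉ S), t S with hbdef
  set Q : ℕ → A := fun j => ∑ S ∈ P.filter (fun S => l ∈ S ∧ j ∉ S), q l j S with hQdef
  have hQ : ∀ j ∈ V, (X l - X j) * Q j = X j * a j - X l * b j := by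
    intro j hj
    have e1 : X l * b j = ∑ S ∈ P.filter (fun S => l ∈ S ∧ j ∉ S), X l * t (sw l j S) := by
      rw [hbdef, Finset.mul_sum]
      exact (sum_sw hl hj (fun S => X l * t (sw l j S)) (fun S => X l * t S) (fun S _ => rfl)).symm
    rw [e1, hadef, hQdef, Finset.mul_sum, Finset.mul_sum, ← Finset.sum_sub_distrib]
    refine Finset.sum_congr rfl fun S hS => ?_
    rw [Finset.mem_filter] at hS
    exact hq1 S (hPV S hS.1) l hS.2.1 j (Finset.mem_sdiff.mpr ⟨hj, hS.2.2⟩)
  have hab : ∀ j, a j - b j = B - Tj j := by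
    intro j
    have e1 : B = a j + ∑ S ∈ P.filter (fun S => l ∈ S ∧ j ∈ S), t S := by
      rw [hB, hTj, hadef]
      simp only
      rw [← Finset.sum_filter_add_sum_filter_not (P.filter (fun S => l ∈ S)) (fun S => j ∉ S),
        Finset.filter_filter, Finset.filter_filter]
      congr 1
      refine Finset.sum_congr ?_ fun _ _ => rfl
      ext S; simp
    have e2 : Tj j = b j + ∑ S ∈ P.filter (fun S => l ∈ S ∧ j ∈ S), t S := by
      rw [hTj, hbdef]
      simp only
      rw [← Finset.sum_filter_add_sum_filter_not (P.filter (fun S => j ∈ S)) (fun S => l ∉ S),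
        Finset.filter_filter, Finset.filter_filter]
      congr 1
      refine Finset.sum_congr ?_ fun _ _ => rfl
      ext S; simp [and_comm]
    rw [e1, e2]; ring
  have hu : ∀ j ∈ V.erase l, ∃ u, Q j + a j = X l * u ∧ (X l - X j) * u = B - Tj j := by
    intro j hj
    have hjl : l ≠ j := (Finset.ne_of_mem_erase hj).symm
    have hjV := Finset.mem_of_mem_erase hj
    have e1 : (X l - X j) * (Q j + a j) = X l * (B - Tj j) := by
      rw [← hab j]
      linear_combination hQ j hjV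
    have h1 : (X l : A) ∣ Q j + a j := dvd_of_mul hjl e1
    obtain ⟨u, hu⟩ := h1
    refine ⟨u, hu, ?_⟩
    rw [hu] at e1
    apply mul_left_cancel₀ (MvPolynomial.X_ne_zero l : (X l : A) ≠ 0)
    rw [← e1]; ring
  choose! u hu1 hu2 using hu
  have hXB : X l * pderiv l B = C r * B - ∑ j ∈ V.erase l, Q j := by
    have e1 : X l * pderiv l B = ∑ S ∈ P.filter (fun S => l ∈ S), X l * pderiv l (t S) := by
      rw [hB, hTj]
      simp only
      rw [map_sum, Finset.mul_sum]
    have e2 : ∑ S ∈ P.filter (fun S => l ∈ S), X l * pderiv l (t S) =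
        C r * B - ∑ S ∈ P.filter (fun S => l ∈ S), ∑ j ∈ V \ S, q l j S := by
      rw [hB, hTj]
      simp only
      rw [Finset.mul_sum, ← Finset.sum_sub_distrib]
      refine Finset.sum_congr rfl fun S hS => ?_
      rw [Finset.mem_filter] at hS
      exact hq3 S (hPV S hS.1) l hS.2
    rw [e1, e2]
    congr 1
    apply Finset.sum_comm'
    intro S j
    simp only [Finset.mem_filter, Finset.mem_erase, Finset.mem_sdiff]
    constructor
    · rintro ⟨⟨hSP, hlS⟩, hjV, hjS⟩
      refine ⟨⟨hSP, hlS, hjS⟩, ?_, hjV⟩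
      rintro rfl; exact hjS hlS
    · rintro ⟨⟨hSP, hlS, hjS⟩, -, hjV⟩
      exact ⟨⟨hSP, hlS⟩, hjV, hjS⟩
  have hsuma : ∑ j ∈ V.erase l, a j = C ((V.card : ℝ) - k) * B := by
    have e1 : ∑ j ∈ V.erase l, a j = ∑ S ∈ P.filter (fun S => l ∈ S), ∑ _j ∈ V \ S, t S := by
      symm
      apply Finset.sum_comm'
      intro S j
      simp only [Finset.mem_filter, Finset.mem_erase, Finset.mem_sdiff]
      constructor
      · rintro ⟨⟨hSP, hlS⟩, hjV, hjS⟩
        refine ⟨⟨hSP, hlS, hjS⟩, ?_, hjV⟩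
        rintro rfl; exact hjS hlS
      · rintro ⟨⟨hSP, hlS, hjS⟩, -, hjV⟩
        exact ⟨⟨hSP, hlS⟩, hjV, hjS⟩
    rw [e1, hB, hTj]
    simp only
    rw [Finset.mul_sum]
    refine Finset.sum_congr rfl fun S hS => ?_
    rw [Finset.mem_filter] at hS
    obtain ⟨hSV, hSk⟩ := Finset.mem_powersetCard.mp hS.1
    rw [Finset.sum_const, nsmul_eq_mul, Finset.card_sdiff_of_subset hSV, hSk]
    have hle : k ≤ V.card := by rw [← hSk]; exact Finset.card_le_card hSV
    have e2 : ((V.card - k : ℕ) : A) = C ((V.card : ℝ) - k) := by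
      rw [← Nat.cast_sub hle, map_natCast]
    rw [e2]
  refine ⟨fun j => - (C r * u j), ?_, ?_⟩
  · intro j hj
    have hjV := Finset.mem_of_mem_erase hj
    show (X l - X j) * (-(C r * u j)) = X j * pderiv j T - X l * pderiv l T
    rw [ha j hjV, ha l hl]
    linear_combination (-(C r)) * hu2 j hj
  · show pderiv l T + X l * pderiv l (pderiv l T) =
      C (((n + 1 : ℕ) : ℝ) + V.card - k) * pderiv l T + ∑ j ∈ V.erase l, (-(C r * u j))
    have hrB := ha l hl
    have hsumQ : ∑ j ∈ V.erase l, Q j = X l * ∑ j ∈ V.erase l, u j - C ((V.card : ℝ) - k) * B := by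
      rw [← hsuma, Finset.mul_sum, ← Finset.sum_sub_distrib]
      refine Finset.sum_congr rfl fun j hj => ?_
      rw [← hu1 j hj]; ring
    have hder : pderiv l (X l * pderiv l T) = pderiv l T + X l * pderiv l (pderiv l T) := by
      rw [Derivation.leibniz, pderiv_X_self]
      simp only [smul_eq_mul]
      ring
    have hder2 : pderiv l (X l * pderiv l T) = C r * pderiv l B := by
      rw [hrB, Derivation.leibniz, pderiv_C, smul_zero, add_zero, smul_eq_mul]
    rw [← hder, hder2]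
    apply mul_left_cancel₀ (MvPolynomial.X_ne_zero l : (X l : A) ≠ 0)
    have e1 : (∑ j ∈ V.erase l, (-(C r * u j))) = -(C r * ∑ j ∈ V.erase l, u j) := by
      rw [Finset.sum_neg_distrib, Finset.mul_sum]
    rw [e1]
    have e2 : X l * (C r * pderiv l B) = C r * (C r * B - (X l * ∑ j ∈ V.erase l, u j - C ((V.card : ℝ) - k) * B)) := by
      rw [← hsumQ, ← hXB]; ring
    rw [e2]
    have e3 : (C (((n + 1 : ℕ) : ℝ) + V.card - k) : A) = C r + C ((V.card : ℝ) - k) := by
      rw [← map_add]; congr 1; rw [hr]; push_cast; ring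
    rw [e3]
    have hrB' : X l * pderiv l T = C r * B := hrB
    linear_combination (-(C r + C ((V.card : ℝ) - k)) : A) * hrB'

end Pool.Agent.H576.FK
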