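import Pool.Agent.H576.FK.Stmts

set_option autoImplicit false

namespace Pool.Agent.H576.FK

open Polynomial

namespace TC03

variable {A : Type} [CommRing A] {n : Type} [Fintype n] [DecidableEq n]

theorem deriv_det (M : Matrix n n A[X]) :
    derivative M.det = ∑ j, (M.updateCol j (fun i => derivative (M i j))).det := by
  simp_rw [Matrix.det_apply', derivative_sum]
  rw [Finset.sum_comm]
  refine Finset.sum_congr rfl fun σ _ => ?_
  rw [derivative_mul, derivative_intCast, zero_mul, zero_add, derivative_prod_finset,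
    Finset.mul_sum]
  refine Finset.sum_congr rfl fun j _ => ?_
  congr 1
  rw [← Finset.mul_prod_erase Finset.univ _ (Finset.mem_univ j), Matrix.updateCol_self, mul_comm]
  congr 1
  refine Finset.prod_congr rfl fun i hi => ?_
  rw [Matrix.updateCol_ne (Finset.mem_erase.mp hi).1]

/-- vanishing of a determinant with a chain of dependent columns -/
theorem chain_zero {r : ℕ} (α : ℤ → Fin r → A[X]) (d : ℕ) :
    ∀ (N : Matrix (Fin r) (Fin r) A[X]) (j j' : Fin r), (j : ℕ) + d + 1 = j' →
      (∀ i, N i j' = α ((j' : ℕ) - 1) i) → (∀ i, N i j = α (j : ℕ) i) →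
      (∀ l : Fin r, (j : ℕ) < l → (l : ℕ) < j' → ∀ i, N i l = α (l : ℕ) i + X * α ((l : ℕ) - 1) i) →
      N.det = 0 := by
  induction d with
  | zero =>
    intro N j j' hd h1 h2 _
    have hne : j ≠ j' := by
      intro h; rw [h] at hd; omega
    apply Matrix.det_zero_of_column_eq hne
    intro i
    rw [h1, h2]
    congr 1
    omega
  | succ d ih =>
    intro N j j' hd h1 h2 h3
    have hj1 : (j : ℕ) + 1 < r := by have := j'.isLt; omega
    set q : Fin r := ⟨(j : ℕ) + 1, hj1⟩ with hq
    have hqj : q ≠ j := by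
      intro h; have := congrArg Fin.val h; simp [hq] at this
    rw [← Matrix.det_updateCol_add_smul_self N hqj (-X)]
    apply ih _ q j'
    · simp only [hq]; omega
    · intro i
      rw [Matrix.updateCol_ne]
      · exact h1 i
      · intro h; have := congrArg Fin.val h; simp [hq] at this; omega
    · intro i
      rw [Matrix.updateCol_self, h2, h3 q (by simp [hq]) (by simp only [hq]; omega)]
      have e : (((q : ℕ) : ℤ) - 1) = (j : ℕ) := by simp [hq]
      rw [e, smul_eq_mul]
      ring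
    · intro l hl1 hl2 i
      rw [Matrix.updateCol_ne]
      · exact h3 l (by simp only [hq] at hl1; omega) hl2 i
      · intro h; rw [h] at hl1; exact lt_irrefl _ hl1

variable {r : ℕ} {k : ℤ} {ε : ℤ → A}

/-- the shifted columns -/
noncomputable def al (k : ℤ) (ε : ℤ → A) (r : ℕ) (p : ℤ) (i : Fin r) : A[X] :=
  C (ε (k - ((i : ℕ) : ℤ) + p))

/-- the matrix -/
noncomputable def MM (k : ℤ) (ε : ℤ → A) (r : ℕ) : Matrix (Fin r) (Fin r) A[X] :=
  Matrix.of fun i j => al k ε r ((j : ℕ) : ℤ) i + X * al k ε r (((j : ℕ) : ℤ) - 1) i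

theorem MM_apply (i j : Fin r) :
    MM k ε r i j = al k ε r ((j : ℕ) : ℤ) i + X * al k ε r (((j : ℕ) : ℤ) - 1) i := rfl

/-- one column replaced by its derivative -/
noncomputable def PP (k : ℤ) (ε : ℤ → A) (r : ℕ) (j : Fin r) : A[X] :=
  ((MM k ε r).updateCol j (al k ε r (((j : ℕ) : ℤ) - 1))).det

theorem deriv_MM (i j : Fin r) :
    derivative (MM k ε r i j) = al k ε r (((j : ℕ) : ℤ) - 1) i := by
  rw [MM_apply]
  unfold al
  simp

theorem deriv_D : derivative (MM k ε r).det = ∑ j, PP k ε r j := by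
  rw [deriv_det]
  refine Finset.sum_congr rfl fun j _ => ?_
  unfold PP
  congr 2
  funext i
  exact deriv_MM i j

theorem X_mul_two {j j' : Fin r} (h : (j : ℕ) < j') :
    X * (((MM k ε r).updateCol j' (al k ε r (((j' : ℕ) : ℤ) - 1))).updateCol j
      (al k ε r (((j : ℕ) : ℤ) - 1))).det = PP k ε r j' := by
  have hne : j ≠ j' := fun e => by rw [e] at h; exact lt_irrefl _ h
  set N := (MM k ε r).updateCol j' (al k ε r (((j' : ℕ) : ℤ) - 1)) with hN
  have h1 : N = N.updateCol j (al k ε r ((j : ℕ) : ℤ) + (X : A[X]) • al k ε r (((j : ℕ) : ℤ) - 1)) := by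
    ext i l
    by_cases hl : l = j
    · subst hl
      rw [Matrix.updateCol_self, hN, Matrix.updateCol_ne hne]
      rfl
    · rw [Matrix.updateCol_ne hl]
  have h2 : (N.updateCol j (al k ε r ((j : ℕ) : ℤ))).det = 0 := by
    apply chain_zero (al k ε r) ((j' : ℕ) - j - 1) _ j j' (by omega)
    · intro i
      rw [Matrix.updateCol_ne hne.symm, hN, Matrix.updateCol_self]
    · intro i
      rw [Matrix.updateCol_self]
    · intro l hl1 hl2 i
      have e1 : l ≠ j := fun e => by rw [e] at hl1; exact lt_irrefl _ hl1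
      have e2 : l ≠ j' := fun e => by rw [e] at hl2; exact lt_irrefl _ hl2
      rw [Matrix.updateCol_ne e1, hN, Matrix.updateCol_ne e2]
      rfl
  have h3 : PP k ε r j' = N.det := rfl
  rw [h3]
  conv_rhs => rw [h1]
  rw [Matrix.det_updateCol_add, Matrix.det_updateCol_smul, h2, zero_add]

theorem X_mul_two' {j j' : Fin r} (h : (j' : ℕ) < j) :
    X * (((MM k ε r).updateCol j' (al k ε r (((j' : ℕ) : ℤ) - 1))).updateCol j
      (al k ε r (((j : ℕ) : ℤ) - 1))).det = PP k ε r j := by
  have hne : j ≠ j' := fun e => by rw [e] at h; exact lt_irrefl _ h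
  rw [← X_mul_two h]
  congr 2
  rw [Matrix.updateCol_comm _ hne.symm]

theorem deriv_PP (j : Fin r) : X * derivative (PP k ε r j) =
    ∑ l : Fin r, ((if (l : ℕ) < j then PP k ε r j else 0) +
      (if (j : ℕ) < l then PP k ε r l else 0)) := by
  unfold PP
  rw [deriv_det, Finset.mul_sum]
  refine Finset.sum_congr rfl fun l _ => ?_
  rcases lt_trichotomy (l : ℕ) (j : ℕ) with h | h | h
  · rw [if_pos h, if_neg (by omega), add_zero]
    have hne : l ≠ j := fun e => by rw [e] at h; exact lt_irrefl _ h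
    have := X_mul_two (k := k) (ε := ε) h
    unfold PP at this
    rw [← this]
    congr 3
    funext i
    rw [Matrix.updateCol_ne hne]
    exact deriv_MM i l
  · have hlj : l = j := Fin.ext h
    subst hlj
    rw [if_neg (lt_irrefl _), add_zero]
    rw [Matrix.det_eq_zero_of_column_eq_zero l, mul_zero]
    intro i
    rw [Matrix.updateCol_self, Matrix.updateCol_self]
    unfold al
    simp
  · rw [if_neg (by omega), if_pos h, zero_add]
    have hne : l ≠ j := fun e => by rw [e] at h; exact lt_irrefl _ h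
    have := X_mul_two' (k := k) (ε := ε) h
    unfold PP at this
    rw [← this]
    congr 3
    funext i
    rw [Matrix.updateCol_ne hne]
    exact deriv_MM i l

theorem count (j : Fin r) (c : A[X]) :
    ∑ l : Fin r, (if (l : ℕ) < j then c else 0) = ((j : ℕ) : A[X]) * c := by
  rw [← Finset.sum_filter, Finset.sum_const, nsmul_eq_mul]
  congr 2
  have : (Finset.univ.filter fun l : Fin r => (l : ℕ) < j) = Finset.Iio j := by
    ext l
    simp only [Finset.mem_filter, Finset.mem_univ, true_and, Finset.mem_Iio, Fin.lt_def]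
  rw [this, Fin.card_Iio]

theorem lhs : X * derivative (derivative (MM k ε r).det) =
    ∑ j : Fin r, (2 * ((j : ℕ) : A[X])) * PP k ε r j := by
  rw [deriv_D, derivative_sum, Finset.mul_sum]
  simp_rw [deriv_PP, Finset.sum_add_distrib]
  rw [Finset.sum_comm (f := fun (j l : Fin r) => if (j : ℕ) < l then PP k ε r l else 0)]
  rw [← Finset.sum_add_distrib]
  refine Finset.sum_congr rfl fun j _ => ?_
  rw [count]
  ring

theorem col_row (M : Matrix (Fin r) (Fin r) A[X]) (b : Fin r → Fin r → A[X]) :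
    ∑ j, (M.updateCol j (fun i => ((i : ℕ) : A[X]) * b i j)).det =
      ∑ i : Fin r, ((i : ℕ) : A[X]) * (M.updateRow i (b i)).det := by
  have h1 : ∀ j, (M.updateCol j (fun i => ((i : ℕ) : A[X]) * b i j)).det =
      ∑ i, M.adjugate j i * (((i : ℕ) : A[X]) * b i j) := by
    intro j
    rw [← Matrix.cramer_apply, Matrix.cramer_eq_adjugate_mulVec]
    rfl
  have h2 : ∀ i : Fin r, (M.updateRow i (b i)).det = ∑ j, M.adjugate j i * b i j := by
    intro i
    rw [← Matrix.cramer_transpose_apply, Matrix.cramer_eq_adjugate_mulVec,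
      ← Matrix.adjugate_transpose]
    rfl
  simp_rw [h1, h2, Finset.mul_sum]
  rw [Finset.sum_comm]
  refine Finset.sum_congr rfl fun i _ => Finset.sum_congr rfl fun j _ => ?_
  ring

theorem row_rev (i : Fin r) :
    ((MM k ε r).updateRow i (fun j => al k ε r (((j : ℕ) : ℤ) - 1) i)).det =
      PP k ε r (Fin.rev i) := by
  unfold PP
  rw [← Matrix.det_transpose, ← Matrix.det_submatrix_equiv_self Fin.revPerm]
  congr 1
  refine Matrix.ext fun p q => ?_
  rw [Matrix.submatrix_apply, Matrix.transpose_apply]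
  simp only [Fin.revPerm_apply]
  have hp := p.isLt
  have hq := q.isLt
  have hi := i.isLt
  by_cases h : q = Fin.rev i
  · subst h
    rw [Fin.rev_rev, Matrix.updateRow_self, Matrix.updateCol_self]
    unfold al
    have e : k - ((i : ℕ) : ℤ) + (((Fin.rev p : Fin r) : ℕ) - 1 : ℤ) =
        k - ((p : ℕ) : ℤ) + (((Fin.rev i : Fin r) : ℕ) - 1 : ℤ) := by
      simp only [Fin.val_rev]
      omega
    rw [e]
  · have h' : Fin.rev q ≠ i := by
      intro e; apply h; rw [← e, Fin.rev_rev]
    rw [Matrix.updateRow_ne h', Matrix.updateCol_ne h, MM_apply, MM_apply]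
    unfold al
    have e : k - (((Fin.rev q : Fin r) : ℕ) : ℤ) + (((Fin.rev p : Fin r) : ℕ) : ℤ) =
        k - ((p : ℕ) : ℤ) + ((q : ℕ) : ℤ) := by
      simp only [Fin.val_rev]
      omega
    have e' : k - (((Fin.rev q : Fin r) : ℕ) : ℤ) + ((((Fin.rev p : Fin r) : ℕ) : ℤ) - 1) =
        k - ((p : ℕ) : ℤ) + (((q : ℕ) : ℤ) - 1) := by
      simp only [Fin.val_rev]
      omega
    rw [e, e']

end TC03

open TC03 in
theorem C03 : C03_det := by
  intro A _ r k ε
  have hM : (Matrix.of fun i j : Fin r =>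
    Polynomial.C (ε (k - ((i : ℕ) : ℤ) + ((j : ℕ) : ℤ))) +
      Polynomial.X * Polynomial.C (ε (k - ((i : ℕ) : ℤ) + ((j : ℕ) : ℤ) - 1))) = MM k ε r := by
    ext1 i j
    rw [Matrix.of_apply, MM_apply]
    unfold al
    rw [show k - ((i : ℕ) : ℤ) + ((j : ℕ) : ℤ) - 1 = k - ((i : ℕ) : ℤ) + (((j : ℕ) : ℤ) - 1) by ring]
  intro M
  have hM' : M = MM k ε r := hM
  clear_value M
  subst hM'
  rw [lhs, deriv_D]
  have h1 : ∀ j : Fin r, ((MM k ε r).updateCol j (fun i =>
        Polynomial.C (((k - ((i : ℕ) : ℤ) + ((j : ℕ) : ℤ) - 1 : ℤ) : A) *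
          ε (k - ((i : ℕ) : ℤ) + ((j : ℕ) : ℤ) - 1)))).det =
      ((k : A[X]) - 1 + ((j : ℕ) : A[X])) * PP k ε r j -
        ((MM k ε r).updateCol j (fun i => ((i : ℕ) : A[X]) *
          al k ε r (((j : ℕ) : ℤ) - 1) i)).det := by
    intro j
    have e : (fun i : Fin r => Polynomial.C (((k - ((i : ℕ) : ℤ) + ((j : ℕ) : ℤ) - 1 : ℤ) : A) *
          ε (k - ((i : ℕ) : ℤ) + ((j : ℕ) : ℤ) - 1))) =
        ((k : A[X]) - 1 + ((j : ℕ) : A[X])) • (al k ε r (((j : ℕ) : ℤ) - 1)) +
          (-1 : A[X]) • (fun i : Fin r => ((i : ℕ) : A[X]) * al k ε r (((j : ℕ) : ℤ) - 1) i) := by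
      funext i
      simp only [Pi.add_apply, Pi.smul_apply, smul_eq_mul]
      unfold al
      rw [show k - ((i : ℕ) : ℤ) + ((j : ℕ) : ℤ) - 1 = k - ((i : ℕ) : ℤ) + (((j : ℕ) : ℤ) - 1) by ring]
      rw [Polynomial.C_mul]
      push_cast
      simp only [map_add, map_sub, map_intCast, map_natCast, map_one]
      ring
    rw [e, Matrix.det_updateCol_add, Matrix.det_updateCol_smul, Matrix.det_updateCol_smul]
    unfold PP
    ring
  simp_rw [h1]
  rw [Finset.sum_sub_distrib]
  rcases Nat.eq_zero_or_pos r with hr | hr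
  · subst hr; simp
  rw [col_row (MM k ε r) (fun i j => al k ε r (((j : ℕ) : ℤ) - 1) i)]
  simp_rw [row_rev]
  have h2 : ∑ i : Fin r, ((i : ℕ) : A[X]) * PP k ε r (Fin.rev i) =
      ∑ j : Fin r, ((r : A[X]) - 1 - ((j : ℕ) : A[X])) * PP k ε r j := by
    rw [← Equiv.sum_comp Fin.revPerm]
    refine Finset.sum_congr rfl fun j _ => ?_
    simp only [Fin.revPerm_apply, Fin.rev_rev]
    congr 1
    rw [Fin.val_rev, Nat.cast_sub (by have := j.isLt; omega)]
    push_cast
    ring
  rw [h2, Finset.mul_sum, ← Finset.sum_sub_distrib, ← Finset.sum_add_distrib]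
  refine Finset.sum_congr rfl fun j _ => ?_
  simp only [map_sub, map_natCast, map_intCast]
  ring

end Pool.Agent.H576.FK
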