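import Mathlib
import Pool.Agent.H576.FK.Stmts

set_option autoImplicit false

open scoped BigOperators
open Finset

namespace Pool.Agent.H576.FK

namespace TC05

open MvPolynomial

abbrev A := MvPolynomial ℕ ℝ

/-- Leibniz rule for finite products -/
theorem D_prod {ι : Type} [DecidableEq ι] (D : Derivation ℝ A A) (s : Finset ι) (f : ι → A) :
    D (∏ i ∈ s, f i) = ∑ j ∈ s, (∏ i ∈ s.erase j, f i) * D (f j) := by
  induction s using Finset.induction_on with
  | empty => simp
  | insert a s ha ih =>
    rw [Finset.prod_insert ha, Derivation.leibniz, ih, Finset.sum_insert ha, Finset.erase_insert ha]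
    simp only [smul_eq_mul, Finset.mul_sum]
    rw [add_comm]
    congr 1
    refine Finset.sum_congr rfl fun j hj => ?_
    have hja : a ≠ j := by rintro rfl; exact ha hj
    rw [Finset.erase_insert_of_ne hja, Finset.prod_insert (fun h => ha (Finset.mem_of_mem_erase h))]
    ring

/-- derivative of a determinant, column by column -/
theorem D_det {r : ℕ} (D : Derivation ℝ A A) (M : Matrix (Fin r) (Fin r) A) :
    D M.det = ∑ j, Matrix.cramer M (fun i => D (M i j)) j := by
  simp only [Matrix.cramer_apply]
  rw [Matrix.det_apply', map_sum]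
  simp only [Matrix.det_apply']
  rw [Finset.sum_comm]
  refine Finset.sum_congr rfl fun σ _ => ?_
  have e : (((Equiv.Perm.sign σ : ℤˣ) : ℤ) : A) = C ((((Equiv.Perm.sign σ : ℤˣ) : ℤ)) : ℝ) := by
    rw [map_intCast]
  rw [e, Derivation.leibniz, D_prod]
  have hC : D (C ((((Equiv.Perm.sign σ : ℤˣ) : ℤ)) : ℝ)) = 0 := by
    rw [← MvPolynomial.algebraMap_eq]; exact D.map_algebraMap _
  rw [hC, smul_zero, add_zero, smul_eq_mul, Finset.mul_sum]
  refine Finset.sum_congr rfl fun j _ => ?_
  congr 1
  rw [← Finset.mul_prod_erase Finset.univ (fun i => M.updateCol j (fun i => D (M i j)) (σ i) i) (Finset.mem_univ j)]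
  rw [Matrix.updateCol_self, mul_comm]
  congr 1
  refine Finset.prod_congr rfl fun i hi => ?_
  rw [Matrix.updateCol_ne (Finset.ne_of_mem_erase hi)]

/-- constants of `∂/∂X_l` -/
noncomputable def S (l : ℕ) : Subring A where
  carrier := {a | pderiv l a = 0}
  mul_mem' := by
    intro a b ha hb
    show pderiv l (a * b) = 0
    have ha' : pderiv l a = 0 := ha
    have hb' : pderiv l b = 0 := hb
    rw [Derivation.leibniz, ha', hb', smul_zero, smul_zero, add_zero]
  one_mem' := by
    show pderiv l 1 = 0
    exact Derivation.map_one_eq_zero _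
  add_mem' := by
    intro a b ha hb
    show pderiv l (a + b) = 0
    have ha' : pderiv l a = 0 := ha
    have hb' : pderiv l b = 0 := hb
    rw [map_add, ha', hb', add_zero]
  zero_mem' := by
    show pderiv l 0 = 0
    exact map_zero _
  neg_mem' := by
    intro a ha
    show pderiv l (-a) = 0
    have ha' : pderiv l a = 0 := ha
    rw [map_neg, ha', neg_zero]

/-- evaluation of a polynomial with constant coefficients at `X l` -/
noncomputable def ev (l : ℕ) : Polynomial (S l) →+* A := Polynomial.eval₂RingHom (S l).subtype (X l)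

theorem ev_X (l : ℕ) : ev l Polynomial.X = X l := by simp [ev]
theorem ev_C (l : ℕ) (a : S l) : ev l (Polynomial.C a) = (a : A) := by simp [ev]

theorem D_ev (l : ℕ) (F : Polynomial (S l)) : pderiv l (ev l F) = ev l (Polynomial.derivative F) := by
  induction F using Polynomial.induction_on' with
  | add p q hp hq => rw [map_add, map_add, hp, hq, map_add, map_add]
  | monomial n a =>
    have ha : pderiv l (a : A) = 0 := a.2
    rw [Polynomial.derivative_monomial]
    simp only [ev, Polynomial.coe_eval₂RingHom, Polynomial.eval₂_monomial, Subring.coe_subtype]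
    rw [Derivation.leibniz, ha, smul_zero, add_zero, Derivation.leibniz_pow, pderiv_X_self]
    push_cast
    simp only [smul_eq_mul, nsmul_eq_mul, mul_one]
    ring

end TC05

open TC05 MvPolynomial in
theorem C05 (h3 : C03_det) (h4 : C04_es) : C05_muirD := by
  intro V l r k hl
  set W := V.erase l with hW
  -- the exponents
  set pp : Fin r → Fin r → ℤ := fun i j => (k : ℤ) - ((i : ℕ) : ℤ) + ((j : ℕ) : ℤ) with hpp
  set M : Matrix (Fin r) (Fin r) A := Matrix.of fun i j : Fin r => es V (pp i j) with hM
  have hDD : DD V r k = M.det := rfl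
  have he1 : ∀ p, es V p = es W p + X l * es W (p - 1) := fun p => (h4 V l hl p).1
  have he2 : ∀ p, pderiv l (es V p) = es W (p - 1) := fun p => (h4 V l hl p).2.1
  have he3 : ∀ p, pderiv l (es W p) = 0 := fun p => (h4 V l hl p).2.2.1
  have he4 : ∀ p, ∀ j ∈ W, es W (p - 1) - es (V.erase j) (p - 1) = (X j - X l) * es (W.erase j) (p - 2) :=
    fun p j hj => (h4 V l hl p).2.2.2.1 j hj
  have he5 : ∀ p : ℤ, ∑ j ∈ W, X j * es (W.erase j) (p - 2) = C ((p : ℝ) - 1) * es W (p - 1) :=
    fun p => (h4 V l hl p).2.2.2.2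
  -- the determinant identity
  let ε : ℤ → S l := fun p => ⟨es W p, he3 p⟩
  have hdet := h3 (S l) r (k : ℤ) ε
  simp only at hdet
  set F : Matrix (Fin r) (Fin r) (Polynomial (S l)) := Matrix.of fun i j =>
    Polynomial.C (ε ((k : ℤ) - ((i : ℕ) : ℤ) + ((j : ℕ) : ℤ))) +
      Polynomial.X * Polynomial.C (ε ((k : ℤ) - ((i : ℕ) : ℤ) + ((j : ℕ) : ℤ) - 1)) with hF
  have hFM : (ev l).mapMatrix F = M := by
    refine Matrix.ext fun i j => ?_
    rw [RingHom.mapMatrix_apply, Matrix.map_apply, hF, Matrix.of_apply, map_add, map_mul, ev_C, ev_C, ev_X,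
      hM, Matrix.of_apply, he1]
  have hevF : ev l F.det = M.det := by rw [RingHom.map_det, hFM]
  have hD1 : pderiv l M.det = ev l (Polynomial.derivative F.det) := by rw [← hevF, D_ev]
  have hD2 : pderiv l (pderiv l M.det) = ev l (Polynomial.derivative (Polynomial.derivative F.det)) := by
    rw [hD1, D_ev]
  set Z : A := ∑ j, Matrix.cramer M (fun i => C ((pp i j : ℝ) - 1) * es W (pp i j - 1)) j with hZ
  have hmain : X l * pderiv l (pderiv l M.det) = C ((r : ℝ) - k) * pderiv l M.det + Z := by
    have h := congrArg (ev l) hdet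
    rw [map_mul, ev_X, map_add, map_mul, map_sum] at h
    rw [hD2, hD1, h]
    congr 1
    · congr 1
      rw [ev_C]
      push_cast
      simp
    · rw [hZ]
      refine Finset.sum_congr rfl fun j _ => ?_
      rw [Matrix.cramer_apply, RingHom.map_det]
      congr 1
      refine Matrix.ext fun i j' => ?_
      rw [RingHom.mapMatrix_apply, Matrix.map_apply]
      rcases eq_or_ne j' j with rfl | hne
      · rw [Matrix.updateCol_self, Matrix.updateCol_self, ev_C]
        push_cast
        simp only [hpp, map_sub, map_one, MvPolynomial.C_apply]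
        push_cast
        simp [ε]
      · rw [Matrix.updateCol_ne hne, Matrix.updateCol_ne hne, ← hFM]
        rfl
  -- the differences
  set R : ℕ → A := fun j0 => ∑ j, Matrix.cramer M (fun i => es (W.erase j0) (pp i j - 2)) j with hR
  have hdiff : ∀ j0 ∈ W, pderiv l M.det - pderiv j0 M.det = (X j0 - X l) * R j0 := by
    intro j0 hj0
    have hj0V : j0 ∈ V := Finset.mem_of_mem_erase hj0
    rw [D_det, D_det, ← Finset.sum_sub_distrib, hR, Finset.mul_sum]
    refine Finset.sum_congr rfl fun j _ => ?_
    have e1 : (fun i => (pderiv l) (M i j)) - (fun i => (pderiv j0) (M i j)) =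
        (X j0 - X l : A) • (fun i => es (W.erase j0) (pp i j - 2)) := by
      funext i
      have a1 : pderiv l (M i j) = es W (pp i j - 1) := he2 _
      have a2 : pderiv j0 (M i j) = es (V.erase j0) (pp i j - 1) := (h4 V j0 hj0V (pp i j)).2.1
      rw [Pi.sub_apply, a1, a2, he4 _ j0 hj0, Pi.smul_apply, smul_eq_mul]
    have e2 : Matrix.cramer M (fun i => (pderiv l) (M i j)) j - Matrix.cramer M (fun i => (pderiv j0) (M i j)) j =
        Matrix.cramer M ((fun i => (pderiv l) (M i j)) - (fun i => (pderiv j0) (M i j))) j := by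
      rw [map_sub, Pi.sub_apply]
    rw [e2, e1, map_smul, Pi.smul_apply, smul_eq_mul]
  have hsum : ∑ j0 ∈ W, X j0 * R j0 = Z := by
    rw [hZ]
    simp only [hR, Finset.mul_sum]
    rw [Finset.sum_comm]
    refine Finset.sum_congr rfl fun j _ => ?_
    have e1 : (fun i => C ((pp i j : ℝ) - 1) * es W (pp i j - 1)) =
        ∑ j0 ∈ W, (X j0 : A) • (fun i => es (W.erase j0) (pp i j - 2)) := by
      funext i
      rw [← he5, Finset.sum_apply]
      rfl
    rw [e1, map_sum, Finset.sum_apply]
    refine Finset.sum_congr rfl fun j0 _ => ?_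
    rw [map_smul, Pi.smul_apply, smul_eq_mul]
  rw [hDD]
  refine ⟨fun j => X j * R j - pderiv l M.det, ?_, ?_⟩
  · intro j hj
    have := hdiff j hj
    linear_combination (X j) * this
  · have hcard : (W.card : ℝ) = (V.card : ℝ) - 1 := by
      rw [hW, Finset.card_erase_of_mem hl, Nat.cast_sub (Finset.card_pos.mpr ⟨l, hl⟩)]
      simp
    rw [hmain, Finset.sum_sub_distrib, hsum, Finset.sum_const, nsmul_eq_mul]
    have e : ((W.card : ℕ) : A) = C ((V.card : ℝ) - 1) := by
      rw [← hcard, map_natCast]
    rw [e]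
    simp only [map_sub, map_add, map_one]
    ring

end Pool.Agent.H576.FK
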