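import Pool.Agent.H576.FK.Stmts

/-!
Task C06 (helper576): uniqueness for Muirhead's equation.
-/

set_option autoImplicit false

open scoped BigOperators
open Finset

namespace Pool.Agent.H576.FK

namespace TC06

open MvPolynomial

theorem euler_pow (l m : ℕ) (Q : MvPolynomial ℕ ℝ) :
    X l * pderiv l (X l ^ m * Q) = X l ^ m * ((m : MvPolynomial ℕ ℝ) * Q + X l * pderiv l Q) := by
  rw [pderiv_mul, pderiv_pow, pderiv_X_self]
  rcases m with _ | m
  · simp
  · rw [Nat.add_sub_cancel, pow_succ]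
    ring

theorem euler_twice (l : ℕ) (P : MvPolynomial ℕ ℝ) :
    X l * pderiv l (X l * pderiv l P) =
      X l * (pderiv l P + X l * pderiv l (pderiv l P)) := by
  rw [pderiv_mul, pderiv_X_self]
  ring

end TC06

open MvPolynomial TC06 in
theorem C06 : C06_uniq := by
  intro V l r k P hl hk ⟨s, hs, hE⟩ hdeg hdvd
  by_contra hP
  have hx : Prime (X l : MvPolynomial ℕ ℝ) := X_prime
  obtain ⟨m, Q, hQ, rfl⟩ := WfDvdMonoid.max_power_factor hP hx.irreducible
  have hQ0 : Q ≠ 0 := fun h => hQ (h ▸ dvd_zero _)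
  have hm1 : 1 ≤ m := by
    by_contra h
    have h0 : m = 0 := by omega
    subst h0
    rw [pow_zero, one_mul] at hdvd
    exact hQ hdvd
  have hmr : m ≤ r := by
    rw [degreeOf_mul_eq (pow_ne_zero m hx.ne_zero) hQ0, degreeOf_pow_eq _ _ _ hx.ne_zero,
      degreeOf_X, if_pos rfl] at hdeg
    omega
  set Q1 : MvPolynomial ℕ ℝ := (m : MvPolynomial ℕ ℝ) * Q + X l * pderiv l Q with hQ1
  have e1 : X l * pderiv l (X l ^ m * Q) = X l ^ m * Q1 := euler_pow l m Q
  have e2 : X l * pderiv l (X l ^ m * Q1) =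
      X l ^ m * ((m : MvPolynomial ℕ ℝ) * Q1 + X l * pderiv l Q1) := euler_pow l m Q1
  -- the `s j` are divisible by `X l ^ m`
  have hsj : ∀ j ∈ V.erase l, (X l : MvPolynomial ℕ ℝ) ^ m ∣ s j := by
    intro j hj
    have hjl : j ≠ l := (Finset.mem_erase.1 hj).1
    apply hx.pow_dvd_of_dvd_mul_left m (a := X l - X j)
    · intro h
      have h2 : (X l : MvPolynomial ℕ ℝ) ∣ X j := by
        have := dvd_sub (dvd_refl (X l : MvPolynomial ℕ ℝ)) h
        simpa using this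
      exact hjl (X_dvd_X.1 h2).symm
    · rw [hs j hj, e1]
      have e3 : pderiv j (X l ^ m * Q) = X l ^ m * pderiv j Q := by
        rw [pderiv_mul, pderiv_pow, pderiv_X_of_ne (Ne.symm hjl)]
        ring
      rw [e3]
      exact ⟨X j * pderiv j Q - Q1, by ring⟩
  obtain ⟨W, hW⟩ : (X l : MvPolynomial ℕ ℝ) ^ m ∣ ∑ j ∈ V.erase l, s j :=
    Finset.dvd_sum hsj
  -- the equation
  obtain ⟨κ, hκ⟩ : ∃ κ : ℝ, κ = (r : ℝ) + V.card - k := ⟨_, rfl⟩
  rw [← hκ, hW] at hE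
  have e4 : X l ^ m * ((m : MvPolynomial ℕ ℝ) * Q1 + X l * pderiv l Q1) =
      X l ^ m * (C κ * Q1 + X l * W) := by
    rw [← e2, ← e1, euler_twice, hE]
    linear_combination (C κ) * e1
  have e5 := mul_left_cancel₀ (pow_ne_zero m hx.ne_zero) e4
  have hc : (C (((m : ℝ) - κ) * m) : MvPolynomial ℕ ℝ) = ((m : MvPolynomial ℕ ℝ) - C κ) *
      (m : MvPolynomial ℕ ℝ) := by
    rw [C_mul, C_sub]
    simp
  have e6 : (X l : MvPolynomial ℕ ℝ) ∣ C (((m : ℝ) - κ) * m) * Q := by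
    refine ⟨W - pderiv l Q1 - ((m : MvPolynomial ℕ ℝ) - C κ) * pderiv l Q, ?_⟩
    rw [hc]
    linear_combination e5 - ((m : MvPolynomial ℕ ℝ) - C κ) * hQ1
  have hne : ((m : ℝ) - κ) * m ≠ 0 := by
    have h1 : (m : ℝ) ≤ r := by exact_mod_cast hmr
    have h2 : (k : ℝ) < V.card := by exact_mod_cast hk
    have h3 : (1 : ℝ) ≤ m := by exact_mod_cast hm1
    apply mul_ne_zero
    · rw [hκ]; linarith
    · linarith
  apply hQ
  have h7 : (C ((((m : ℝ) - κ) * m)⁻¹) : MvPolynomial ℕ ℝ) * (C (((m : ℝ) - κ) * m) * Q) = Q := by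
    rw [← mul_assoc, ← C_mul, inv_mul_cancel₀ hne, C_1, one_mul]
  rw [← h7]
  exact Dvd.dvd.mul_left e6 _

end Pool.Agent.H576.FK
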