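import Mathlib
import Pool.Agent.H576.FK.Stmts

set_option autoImplicit false

open scoped BigOperators
open Finset

namespace Pool.Agent.H576.FK

namespace TC07

open MvPolynomial

/-- the substitution `X l = 0` -/
noncomputable abbrev rho (l : ℕ) : MvPolynomial ℕ ℝ →ₐ[ℝ] MvPolynomial ℕ ℝ :=
  aeval (fun i => if i = l then (0 : MvPolynomial ℕ ℝ) else X i)

theorem rho_X_self (l : ℕ) : rho l (X l) = 0 := by simp [rho]

theorem rho_X_ne (l i : ℕ) (h : i ≠ l) : rho l (X i) = X i := by simp [rho, h]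

theorem rho_C (l : ℕ) (a : ℝ) : rho l (C a) = C a := by
  simp [rho, MvPolynomial.algebraMap_eq]

theorem rho_prod_mem (l : ℕ) (S : Finset ℕ) (h : l ∈ S) : rho l (∏ i ∈ S, X i) = 0 := by
  rw [map_prod]
  exact Finset.prod_eq_zero h (rho_X_self l)

theorem rho_prod_not_mem (l : ℕ) (S : Finset ℕ) (h : l ∉ S) : rho l (∏ i ∈ S, X i) = ∏ i ∈ S, X i := by
  rw [map_prod]
  refine Finset.prod_congr rfl fun i hi => rho_X_ne l i ?_
  rintro rfl; exact h hi

theorem sum_restrict (V : Finset ℕ) (l k : ℕ) (f g : Finset ℕ → MvPolynomial ℕ ℝ)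
    (h0 : ∀ S, l ∈ S → f S = 0) (h1 : ∀ S, l ∉ S → f S = g S) :
    ∑ S ∈ V.powersetCard k, f S = ∑ S ∈ (V.erase l).powersetCard k, g S := by
  have hsub : (V.erase l).powersetCard k ⊆ V.powersetCard k :=
    Finset.powersetCard_mono (Finset.erase_subset l V)
  rw [← Finset.sum_subset hsub]
  · refine Finset.sum_congr rfl fun S hS => h1 S ?_
    rw [Finset.mem_powersetCard] at hS
    intro hl
    exact Finset.notMem_erase l V (hS.1 hl)
  · intro S hS hS'
    apply h0
    by_contra hl
    apply hS'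
    rw [Finset.mem_powersetCard] at hS ⊢
    refine ⟨fun i hi => Finset.mem_erase.mpr ⟨?_, hS.1 hi⟩, hS.2⟩
    rintro rfl; exact hl hi

theorem rho_tt (V : Finset ℕ) (l : ℕ) (n : ℕ) : (∀ S, l ∈ S → rho l (tt V n S) = 0) ∧
    (∀ S, l ∉ S → rho l (tt V n S) = tt (V.erase l) n S) := by
  induction n with
  | zero =>
    exact ⟨fun S hS => rho_prod_mem l S hS, fun S hS => rho_prod_not_mem l S hS⟩
  | succ n ih =>
    constructor
    · intro S hS
      show rho l ((∏ i ∈ S, X i) * _) = 0
      rw [map_mul, rho_prod_mem l S hS, zero_mul]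
    · intro S hS
      show rho l ((∏ i ∈ S, X i) * ∑ S' ∈ V.powersetCard S.card, C (Kc (n + 1) (S' \ S).card) * tt V n S') =
        (∏ i ∈ S, X i) * ∑ S' ∈ (V.erase l).powersetCard S.card, C (Kc (n + 1) (S' \ S).card) * tt (V.erase l) n S'
      rw [map_mul, rho_prod_not_mem l S hS, map_sum]
      congr 1
      apply sum_restrict V l S.card
      · intro S' hS'
        rw [map_mul, ih.1 S' hS', mul_zero]
      · intro S' hS'
        rw [map_mul, ih.2 S' hS', rho_C]

theorem rho_TT (V : Finset ℕ) (l n k : ℕ) : rho l (TT V n k) = TT (V.erase l) n k := by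
  unfold TT
  rw [map_sum]
  exact sum_restrict V l k _ _ (rho_tt V l n).1 (rho_tt V l n).2

theorem rho_es (V : Finset ℕ) (l : ℕ) (p : ℤ) : rho l (es V p) = es (V.erase l) p := by
  unfold es
  split_ifs with h
  · rw [map_sum]
    exact sum_restrict V l p.toNat _ _ (fun S hS => rho_prod_mem l S hS) (fun S hS => rho_prod_not_mem l S hS)
  · exact map_zero _

theorem rho_DD (V : Finset ℕ) (l r k : ℕ) : rho l (DD V r k) = DD (V.erase l) r k := by
  unfold DD
  rw [AlgHom.map_det]
  congr 1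
  refine Matrix.ext fun i j => ?_
  simp only [AlgHom.mapMatrix_apply, Matrix.map_apply, Matrix.of_apply]
  exact rho_es V l _

theorem deg_prod (l : ℕ) (S : Finset ℕ) : degreeOf l (∏ i ∈ S, (X i : MvPolynomial ℕ ℝ)) ≤ 1 := by
  refine (degreeOf_prod_le l S _).trans ?_
  have : ∀ i ∈ S, degreeOf l (X i : MvPolynomial ℕ ℝ) = if l = i then 1 else 0 := fun i _ => degreeOf_X l i
  rw [Finset.sum_congr rfl this, Finset.sum_ite_eq]
  split_ifs <;> simp

theorem deg_tt (V : Finset ℕ) (l n : ℕ) (S : Finset ℕ) : degreeOf l (tt V n S) ≤ n + 1 := by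
  induction n generalizing S with
  | zero => exact deg_prod l S
  | succ n ih =>
    show degreeOf l ((∏ i ∈ S, X i) * ∑ S' ∈ V.powersetCard S.card, C (Kc (n + 1) (S' \ S).card) * tt V n S') ≤ _
    refine (degreeOf_mul_le l _ _).trans ?_
    have h1 := deg_prod l S
    have h2 : degreeOf l (∑ S' ∈ V.powersetCard S.card, C (Kc (n + 1) (S' \ S).card) * tt V n S') ≤ n + 1 := by
      refine (degreeOf_sum_le l _ _).trans ?_
      apply Finset.sup_le
      intro S' _
      exact (degreeOf_C_mul_le _ _ _).trans (ih S')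
    omega

theorem deg_TT (V : Finset ℕ) (l n k : ℕ) : degreeOf l (TT V n k) ≤ n + 1 := by
  unfold TT
  refine (degreeOf_sum_le l _ _).trans ?_
  apply Finset.sup_le
  intro S' _
  exact deg_tt V l n S'

theorem deg_es (V : Finset ℕ) (l : ℕ) (p : ℤ) : degreeOf l (es V p) ≤ 1 := by
  unfold es
  split_ifs with h
  · refine (degreeOf_sum_le l _ _).trans ?_
    apply Finset.sup_le
    intro S' _
    exact deg_prod l S'
  · simp

theorem deg_DD (V : Finset ℕ) (l r k : ℕ) : degreeOf l (DD V r k) ≤ r := by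
  unfold DD
  rw [Matrix.det_apply']
  refine (degreeOf_sum_le l _ _).trans ?_
  apply Finset.sup_le
  intro σ _
  have e : (((Equiv.Perm.sign σ : ℤˣ) : ℤ) : MvPolynomial ℕ ℝ) = C ((((Equiv.Perm.sign σ : ℤˣ) : ℤ)) : ℝ) := by
    rw [map_intCast]
  rw [e]
  refine (degreeOf_C_mul_le _ _ _).trans ?_
  refine (degreeOf_prod_le l _ _).trans ?_
  calc ∑ j : Fin r, degreeOf l ((Matrix.of fun i j : Fin r => es V ((k : ℤ) - ((i : ℕ) : ℤ) + ((j : ℕ) : ℤ))) (σ j) j)
      ≤ ∑ _j : Fin r, 1 := Finset.sum_le_sum fun j _ => deg_es V l _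
    _ = r := by simp

theorem sub_dvd (l : ℕ) (P : MvPolynomial ℕ ℝ) : X l ∣ P - rho l P := by
  induction P using MvPolynomial.induction_on with
  | C a => rw [rho_C, sub_self]; exact dvd_zero _
  | add p q hp hq =>
    rw [map_add]
    have : p + q - (rho l p + rho l q) = (p - rho l p) + (q - rho l q) := by ring
    rw [this]; exact dvd_add hp hq
  | mul_X p i hp =>
    rw [map_mul]
    rcases eq_or_ne i l with rfl | h
    · rw [rho_X_self, mul_zero, sub_zero]; exact Dvd.intro_left _ rfl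
    · rw [rho_X_ne l i h, ← sub_mul]; exact hp.mul_right _

end TC07

theorem C07 : C07_restr := by
  intro V l _
  refine ⟨fun n k => TC07.rho_TT V l n k, fun r k => TC07.rho_DD V l r k, fun n k => TC07.deg_TT V l n k,
    fun r k => TC07.deg_DD V l r k, fun P hP => ?_⟩
  have := TC07.sub_dvd l P
  have e : TC07.rho l P = 0 := hP
  rwa [e, sub_zero] at this

end Pool.Agent.H576.FK
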