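import Pool.Agent.H576.FK.Stmts

/-!
# C08: the edge case `k ≥ |V|`
-/

set_option autoImplicit false

open scoped BigOperators
open Finset

namespace Pool.Agent.H576.FK

namespace TC08

theorem es_big (V : Finset ℕ) (p : ℤ) (h : (V.card : ℤ) < p) : es V p = 0 := by
  unfold es
  rw [if_pos (by omega)]
  rw [Finset.powersetCard_eq_empty.2 (by omega)]
  simp

theorem es_card (V : Finset ℕ) : es V (V.card : ℤ) = ∏ i ∈ V, MvPolynomial.X i := by
  unfold es
  rw [if_pos (by omega)]
  simp [Finset.powersetCard_self]

theorem Kc_zero (s : ℕ) : Kc s 0 = 1 := by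
  unfold Kc
  simp

theorem tt_self (V : Finset ℕ) (n : ℕ) : tt V n V = (∏ i ∈ V, MvPolynomial.X i) ^ (n + 1) := by
  induction n with
  | zero => simp [tt]
  | succ n ih =>
    rw [tt]
    simp only [Finset.powersetCard_self, Finset.sum_singleton, Finset.sdiff_self,
      Finset.card_empty, Kc_zero, ih]
    simp
    ring

end TC08

theorem C08 : C08_edge := by
  intro V n k hk
  rcases Nat.lt_or_ge V.card k with hlt | hge
  · -- `k > |V|`
    have h1 : TT V n k = 0 := by
      unfold TT
      rw [Finset.powersetCard_eq_empty.2 hlt]
      simp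
    have h2 : DD V (n + 1) k = 0 := by
      unfold DD
      rw [Matrix.det_of_lowerTriangular]
      · apply Finset.prod_eq_zero (Finset.mem_univ (0 : Fin (n + 1)))
        simp only [Matrix.of_apply]
        apply TC08.es_big
        simp
        omega
      · intro i j hij
        simp only [Matrix.of_apply]
        apply TC08.es_big
        have : (i : ℕ) < (j : ℕ) := hij
        omega
    rw [h1, h2]
  · have hkV : k = V.card := le_antisymm hge hk
    subst hkV
    have h1 : TT V n V.card = (∏ i ∈ V, MvPolynomial.X i) ^ (n + 1) := by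
      unfold TT
      rw [Finset.powersetCard_self, Finset.sum_singleton, TC08.tt_self]
    have h2 : DD V (n + 1) V.card = (∏ i ∈ V, MvPolynomial.X i) ^ (n + 1) := by
      unfold DD
      rw [Matrix.det_of_lowerTriangular]
      · simp only [Matrix.of_apply]
        have : ∀ i : Fin (n + 1), es V ((V.card : ℤ) - ((i : ℕ) : ℤ) + ((i : ℕ) : ℤ)) =
            ∏ i ∈ V, MvPolynomial.X i := by
          intro i
          rw [sub_add_cancel, TC08.es_card]
        rw [Finset.prod_congr rfl (fun i _ => this i)]
        simp
      · intro i j hij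
        simp only [Matrix.of_apply]
        apply TC08.es_big
        have : (i : ℕ) < (j : ℕ) := hij
        omega
    rw [h1, h2]

end Pool.Agent.H576.FK
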