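import Mathlib
import Pool.Agent.H576.FK.Stmts

set_option autoImplicit false

open scoped BigOperators
open Finset

namespace Pool.Agent.H576.FK

open MvPolynomial in
theorem TC09.muir_sub (V : Finset ℕ) (l r k : ℕ) (P Q : MvPolynomial ℕ ℝ)
    (hP : Muir V l r k P) (hQ : Muir V l r k Q) : Muir V l r k (P - Q) := by
  obtain ⟨s, hs1, hs2⟩ := hP
  obtain ⟨t, ht1, ht2⟩ := hQ
  refine ⟨fun j => s j - t j, ?_, ?_⟩
  · intro j hj
    have h1 := hs1 j hj
    have h2 := ht1 j hj
    simp only [map_sub]
    linear_combination h1 - h2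
  · have e1 : pderiv l (P - Q) = pderiv l P - pderiv l Q := map_sub _ _ _
    have e2 : pderiv l (pderiv l P - pderiv l Q) = pderiv l (pderiv l P) - pderiv l (pderiv l Q) :=
      map_sub _ _ _
    rw [e1, e2, Finset.sum_sub_distrib]
    linear_combination hs2 - ht2

theorem TC09.aux (h2 : C02_muirT) (h5 : C05_muirD) (h6 : C06_uniq) (h7 : C07_restr)
    (h8 : C08_edge) : ∀ d : ℕ, ∀ V : Finset ℕ, V.card = d → ∀ n k : ℕ,
      TT V n k = DD V (n + 1) k := by
  intro d
  induction d with
  | zero =>
    intro V hV n k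
    exact h8 V n k (by omega)
  | succ d ih =>
    intro V hV n k
    by_cases hk : V.card ≤ k
    · exact h8 V n k hk
    · push Not at hk
      have hne : V.Nonempty := by
        rw [← Finset.card_pos, hV]; omega
      obtain ⟨l, hl⟩ := hne
      have hm := TC09.muir_sub V l (n + 1) k _ _ (h2 V l n k hl) (h5 V l (n + 1) k hl)
      obtain ⟨r1, r2, r3, r4, r5⟩ := h7 V l hl
      have hcard : (V.erase l).card = d := by
        rw [Finset.card_erase_of_mem hl, hV]; rfl
      have hz : TT V n k - DD V (n + 1) k = 0 := by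
        apply h6 V l (n + 1) k _ hl hk hm
        · refine (MvPolynomial.degreeOf_sub_le l _ _).trans ?_
          exact max_le (r3 n k) (r4 (n + 1) k)
        · apply r5
          rw [map_sub, r1 n k, r2 (n + 1) k, ih (V.erase l) hcard n k, sub_self]
      exact sub_eq_zero.1 hz

theorem C09 (h2 : C02_muirT) (h5 : C05_muirD) (h6 : C06_uniq) (h7 : C07_restr)
    (h8 : C08_edge) : C09_eq := fun V n k => TC09.aux h2 h5 h6 h7 h8 V.card V rfl n k

end Pool.Agent.H576.FK
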