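import Pool.Agent.H576.FK.Stmts

set_option autoImplicit false

open scoped BigOperators
open Finset

namespace Pool.Agent.H576.FK

namespace TC10

theorem eval_tt (V : Finset ℕ) (θ : ℕ → ℝ) : ∀ (n : ℕ) (S : Finset ℕ),
    MvPolynomial.eval θ (tt V n S) = (∏ i ∈ S, θ i) * gg V θ n S := by
  intro n
  induction n with
  | zero =>
    intro S
    simp [tt, gg, map_prod]
  | succ n ih =>
    intro S
    simp only [tt, gg, map_mul, map_prod, map_sum, MvPolynomial.eval_X, MvPolynomial.eval_C]
    congr 1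
    refine Finset.sum_congr rfl fun S' _ => ?_
    rw [ih S']

theorem eval_es (V : Finset ℕ) (θ : ℕ → ℝ) (p : ℤ) :
    MvPolynomial.eval θ (es V p) =
      if 0 ≤ p then ∑ A ∈ V.powersetCard p.toNat, ∏ i ∈ A, θ i else 0 := by
  unfold es
  split_ifs
  · simp only [map_sum, map_prod, MvPolynomial.eval_X]
  · simp

end TC10

theorem C10 (h : C09_eq) : C10_num := by
  intro V θ n k
  have h1 := congrArg (MvPolynomial.eval θ) (h V n k)
  unfold TT DD at h1
  rw [map_sum, RingHom.map_det] at h1
  rw [show (∑ S ∈ V.powersetCard k, (∏ i ∈ S, θ i) * gg V θ n S) =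
    ∑ x ∈ powersetCard k V, (MvPolynomial.eval θ) (tt V n x) from
      Finset.sum_congr rfl fun S _ => (TC10.eval_tt V θ n S).symm, h1]
  congr 1
  ext i j
  simp only [RingHom.mapMatrix_apply, Matrix.map_apply, Matrix.of_apply, TC10.eval_es]

end Pool.Agent.H576.FK
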