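import Pool.Agent.H576.FK.Stmts

set_option autoImplicit false

open scoped BigOperators
open Finset

namespace Pool.Agent.H576.FK

namespace TD01

open Polynomial

theorem index (s : Multiset ℝ) (hs : ∀ a ∈ s, a < 0) : ∃ r : ℕ → ℝ, (∀ i, r i < 0) ∧
    s = (Finset.range s.card).val.map r := by
  obtain ⟨l, rfl⟩ := Quot.exists_rep s
  refine ⟨fun i => if h : i < l.length then l[i] else -1, fun i => ?_, ?_⟩
  · dsimp only
    split_ifs with h
    · exact hs _ (by
        show l[i] ∈ (l : Multiset ℝ)
        rw [Multiset.mem_coe]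
        exact List.getElem_mem h)
    · norm_num
  · show (l : Multiset ℝ) = (Finset.range (Multiset.card (l : Multiset ℝ))).val.map _
    rw [Multiset.coe_card, Finset.range_val, Multiset.range, Multiset.map_coe]
    congr 1
    apply List.ext_getElem
    · simp
    · intro i h1 h2
      simp [h1]

theorem prod_coeff (n m : ℕ) (θ : ℕ → ℝ) :
    (∏ i ∈ Finset.range n, (1 + C (θ i) * X) : ℝ[X]).coeff m =
      ∑ A ∈ (Finset.range n).powersetCard m, ∏ i ∈ A, θ i := by
  rw [Finset.prod_one_add, Polynomial.finsetSum_coeff, Finset.powersetCard_eq_filter,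
    Finset.sum_filter]
  refine Finset.sum_congr rfl fun A _ => ?_
  rw [Finset.prod_mul_distrib, Finset.prod_const, ← map_prod, Polynomial.coeff_C_mul,
    Polynomial.coeff_X_pow]
  split_ifs with h1 h2 h2
  · rw [mul_one]
  · exact absurd h1.symm h2
  · exact absurd h2.symm h1
  · rw [mul_zero]

end TD01

open Polynomial in
theorem D01 : D01_factor := by
  intro p hp hroots
  have hp0 : p ≠ 0 := by
    intro h
    have := hp 0 (Nat.zero_le _)
    rw [h] at this
    simp at this
  have hneg : ∀ a ∈ p.roots, a < 0 := by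
    intro a ha
    by_contra hcon
    push Not at hcon
    have h1 : p.eval a = 0 := (Polynomial.mem_roots'.1 ha).2
    rw [Polynomial.eval_eq_sum_range] at h1
    have h2 : 0 < ∑ k ∈ Finset.range (p.natDegree + 1), p.coeff k * a ^ k := by
      refine Finset.sum_pos' (fun k hk => ?_) ⟨0, by simp, ?_⟩
      · exact mul_nonneg (hp k (by simpa [Nat.lt_succ_iff] using hk)).le (pow_nonneg hcon k)
      · have := hp 0 (Nat.zero_le _)
        simpa using this
    exact h2.ne' h1
  obtain ⟨r, hr, hrs⟩ := TD01.index p.roots hneg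
  rw [hroots] at hrs
  have h1 := Polynomial.C_leadingCoeff_mul_prod_multiset_X_sub_C hroots
  rw [hrs, Multiset.map_map] at h1
  have h2 : (Multiset.map ((fun a => X - C a) ∘ r) (Finset.range p.natDegree).val).prod =
      ∏ i ∈ Finset.range p.natDegree, (X - C (r i) : ℝ[X]) := rfl
  rw [h2] at h1
  have h3 : ∀ i, (X - C (r i) : ℝ[X]) = C (-(r i)) * (1 + C ((-(r i))⁻¹) * X) := by
    intro i
    have hri : -(r i) ≠ 0 := ne_of_gt (by linarith [hr i])
    rw [mul_add, mul_one, ← mul_assoc, ← map_mul, mul_inv_cancel₀ hri, map_one, one_mul, map_neg]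
    ring
  rw [Finset.prod_congr rfl fun i _ => h3 i, Finset.prod_mul_distrib, ← mul_assoc, ← map_prod,
    ← map_mul] at h1
  refine ⟨fun i => (-(r i))⁻¹, fun i => inv_pos.2 (by linarith [hr i]), fun m => ?_⟩
  have h4 : ∀ m, p.coeff m = (p.leadingCoeff * ∏ i ∈ Finset.range p.natDegree, -(r i)) *
      ∑ A ∈ (Finset.range p.natDegree).powersetCard m, ∏ i ∈ A, (-(r i))⁻¹ := by
    intro m
    have h5 := congrArg (fun q : ℝ[X] => q.coeff m) h1
    simp only [Polynomial.coeff_C_mul] at h5
    rw [TD01.prod_coeff] at h5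
    exact h5.symm
  have h6 := h4 0
  rw [Finset.powersetCard_zero, Finset.sum_singleton, Finset.prod_empty, mul_one] at h6
  rw [h4 m, h6]

end Pool.Agent.H576.FK
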