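import Pool.Agent.H576.FK.Stmts

/-!
# D02: real roots from the absence of zeros in the upper half-plane
-/

set_option autoImplicit false

open scoped BigOperators
open Finset

namespace Pool.Agent.H576.FK

theorem D02 : D02_real := by
  intro q hq hpos h
  constructor
  · rw [← Polynomial.splits_iff_card_roots]
    apply Polynomial.Splits.of_splits_map (algebraMap ℝ ℂ) (IsAlgClosed.splits _)
    intro a ha
    have ha' : Polynomial.aeval a q = 0 := by
      rw [Polynomial.mem_roots (Polynomial.map_ne_zero hq), Polynomial.IsRoot,
        Polynomial.eval_map_algebraMap] at ha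
      exact ha
    have him : a.im = 0 := by
      by_contra hne
      rcases lt_or_gt_of_ne hne with h1 | h1
      · apply h (starRingEnd ℂ a) (by simpa using h1)
        rw [Polynomial.aeval_conj, ha', map_zero]
      · exact h a h1 ha'
    exact ⟨a.re, by apply Complex.ext <;> simp [him]⟩
  · intro x hx
    by_contra hcon
    push Not at hcon
    rw [Polynomial.mem_roots hq, Polynomial.IsRoot, Polynomial.eval_eq_sum_range] at hx
    have h1 : 0 < ∑ i ∈ Finset.range (q.natDegree + 1), q.coeff i * x ^ i := by
      apply Finset.sum_pos'
      · intro i hi
        have := hpos i (by have := Finset.mem_range.1 hi; omega)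
        positivity
      · refine ⟨0, Finset.mem_range.2 (Nat.succ_pos _), ?_⟩
        simpa using hpos 0 (Nat.zero_le _)
    linarith

end Pool.Agent.H576.FK
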