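import Mathlib
import Pool.Agent.H576.FK.Stmts

set_option autoImplicit false

open scoped BigOperators
open Finset

namespace Pool.Agent.H576.FK

theorem TD03.Kc_pos (s m : ℕ) : 0 < Kc s m := by
  rw [Kc]
  have : 0 < Nat.choose (s + m) s := Nat.choose_pos (by omega)
  positivity

theorem TD03.gg_pos (V : Finset ℕ) (θ : ℕ → ℝ) (hθ : ∀ i, 0 < θ i) (n : ℕ) :
    ∀ S ⊆ V, 0 < gg V θ n S := by
  induction n with
  | zero => intro S _; simp [gg]
  | succ n ih =>
    intro S hS
    rw [gg]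
    apply Finset.sum_pos
    · intro S' hS'
      rw [Finset.mem_powersetCard] at hS'
      exact mul_pos (TD03.Kc_pos _ _) (mul_pos (Finset.prod_pos fun i _ => hθ i) (ih S' hS'.1))
    · exact ⟨S, Finset.mem_powersetCard.2 ⟨hS, rfl⟩⟩

/-- sums over all subsets by cardinality -/
theorem TD03.MA_card (V : Finset ℕ) (f : Finset ℕ → ℂ) (z : ℕ → ℂ) (w : ℂ) :
    MA V f (fun i => w * z i) =
      ∑ k ∈ range (V.card + 1), (∑ S ∈ V.powersetCard k, f S * ∏ i ∈ S, z i) * w ^ k := by
  rw [MA, Finset.sum_powerset]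
  apply Finset.sum_congr rfl
  intro k _
  rw [Finset.sum_mul]
  apply Finset.sum_congr rfl
  intro S hS
  rw [Finset.mem_powersetCard] at hS
  rw [Finset.prod_mul_distrib, Finset.prod_const, hS.2]
  ring

theorem D03 (h9 : B09_chain) (h10 : C10_num) (hd1 : D01_factor) (hd2 : D02_real) :
    ∀ (p : Polynomial ℝ), (∀ k ≤ p.natDegree, 0 < p.coeff k) →
      p.roots.card = p.natDegree →
      ∀ r : ℕ, 1 ≤ r → ∀ q : Polynomial ℝ,
        q = ∑ k ∈ Finset.range (p.natDegree + 1),
              Polynomial.C (Matrix.det (Matrix.of (fun i j : Fin r =>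
                if 0 ≤ (k : ℤ) - ((i : ℕ) : ℤ) + ((j : ℕ) : ℤ)
                then p.coeff ((k : ℤ) - ((i : ℕ) : ℤ) + ((j : ℕ) : ℤ)).toNat
                else 0))) * Polynomial.X ^ k →
        q.roots.card = q.natDegree ∧ ∀ x ∈ q.roots, x < 0 := by
  intro p hp hroots r hr q hq
  obtain ⟨θ, hθ, hcoef⟩ := hd1 p hp hroots
  obtain ⟨m, rfl⟩ : ∃ m, r = m + 1 := ⟨r - 1, by omega⟩
  set V := range p.natDegree with hV
  have hVc : V.card = p.natDegree := by rw [hV, Finset.card_range]
  have ha0 : 0 < p.coeff 0 := hp 0 (Nat.zero_le _)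
  -- the coefficients
  let t : ℕ → ℝ := fun k => ∑ S ∈ V.powersetCard k, (∏ i ∈ S, θ i) * gg V θ m S
  have htpos : ∀ k ≤ V.card, 0 < t k := by
    intro k hk
    apply Finset.sum_pos
    · intro S hS
      rw [Finset.mem_powersetCard] at hS
      exact mul_pos (Finset.prod_pos fun i _ => hθ i) (TD03.gg_pos V θ hθ m S hS.1)
    · exact Finset.powersetCard_nonempty.2 hk
  have hdet : ∀ k : ℕ, Matrix.det (Matrix.of (fun i j : Fin (m + 1) =>
                if 0 ≤ (k : ℤ) - ((i : ℕ) : ℤ) + ((j : ℕ) : ℤ)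
                then p.coeff ((k : ℤ) - ((i : ℕ) : ℤ) + ((j : ℕ) : ℤ)).toNat
                else 0)) = p.coeff 0 ^ (m + 1) * t k := by
    intro k
    have h1 : (Matrix.of (fun i j : Fin (m + 1) =>
                if 0 ≤ (k : ℤ) - ((i : ℕ) : ℤ) + ((j : ℕ) : ℤ)
                then p.coeff ((k : ℤ) - ((i : ℕ) : ℤ) + ((j : ℕ) : ℤ)).toNat
                else 0)) = p.coeff 0 • (Matrix.of fun i j : Fin (m + 1) =>
      if 0 ≤ (k : ℤ) - ((i : ℕ) : ℤ) + ((j : ℕ) : ℤ) then
        ∑ A ∈ V.powersetCard ((k : ℤ) - ((i : ℕ) : ℤ) + ((j : ℕ) : ℤ)).toNat, ∏ i ∈ A, θ i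
      else 0) := by
      ext i j
      simp only [Matrix.of_apply, Matrix.smul_apply, smul_eq_mul]
      split_ifs with h
      · exact hcoef _
      · simp
    rw [h1, Matrix.det_smul, Fintype.card_fin, ← h10 V θ m k]
  have hq' : q = ∑ k ∈ Finset.range (p.natDegree + 1),
      Polynomial.C (p.coeff 0 ^ (m + 1) * t k) * Polynomial.X ^ k := by
    rw [hq]
    apply Finset.sum_congr rfl
    intro k _
    rw [hdet k]
  have hqc : ∀ k ≤ p.natDegree, q.coeff k = p.coeff 0 ^ (m + 1) * t k := by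
    intro k hk
    rw [hq', Polynomial.finsetSum_coeff]
    simp only [Polynomial.coeff_C_mul, Polynomial.coeff_X_pow]
    rw [Finset.sum_eq_single k]
    · simp
    · intro b _ hb
      rw [if_neg (fun h => hb h.symm), mul_zero]
    · intro h
      exact absurd (Finset.mem_range.2 (by omega)) h
  have hqpos : ∀ k ≤ p.natDegree, 0 < q.coeff k := by
    intro k hk
    rw [hqc k hk]
    exact mul_pos (pow_pos ha0 _) (htpos k (by rw [hVc]; exact hk))
  have hqdeg : q.natDegree ≤ p.natDegree := by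
    rw [hq']
    apply Polynomial.natDegree_sum_le_of_forall_le
    intro k hk
    rw [Finset.mem_range] at hk
    refine (Polynomial.natDegree_C_mul_X_pow_le _ _).trans (by omega)
  have hq0 : q ≠ 0 := by
    intro h
    have := hqpos 0 (Nat.zero_le _)
    rw [h] at this
    simp at this
  apply hd2 q hq0 (fun k hk => hqpos k (hk.trans hqdeg))
  intro z hz
  have heval : Polynomial.aeval z q = ((p.coeff 0 ^ (m + 1) : ℝ) : ℂ) *
      MA V (fun S => (gg V θ m S : ℂ)) (fun i => z * (θ i : ℂ)) := by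
    rw [TD03.MA_card V (fun S => (gg V θ m S : ℂ)) (fun i => (θ i : ℂ)) z, hq', map_sum,
      Finset.mul_sum, hVc]
    apply Finset.sum_congr rfl
    intro k _
    simp only [map_mul, Polynomial.aeval_C, map_pow, Polynomial.aeval_X, t]
    simp only [Complex.coe_algebraMap, Complex.ofReal_mul, Complex.ofReal_pow, Complex.ofReal_sum,
      Complex.ofReal_prod]
    have : ∀ S : Finset ℕ, (∏ i ∈ S, (θ i : ℂ)) * (gg V θ m S : ℂ) =
      (gg V θ m S : ℂ) * (∏ i ∈ S, (θ i : ℂ)) := fun S => mul_comm _ _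
    simp only [this]
    ring
  rw [heval]
  refine mul_ne_zero ?_ ?_
  · exact_mod_cast (pow_pos ha0 _).ne'
  · apply h9 V θ (fun i _ => hθ i) m
    intro i _
    have : (z * (θ i : ℂ)).im = z.im * θ i := by simp
    rw [this]
    exact mul_pos hz (hθ i)

end Pool.Agent.H576.FK
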