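import Mathlib
import Pool.Agent.H576.FK.Stmts
import Pool.Agent.H576.FK.TA03
import Pool.Agent.H576.FK.TA04
import Pool.Agent.H576.FK.TA05
import Pool.Agent.H576.FK.TA06
import Pool.Agent.H576.FK.TA07
import Pool.Agent.H576.FK.TA08
import Pool.Agent.H576.FK.TA09a
import Pool.Agent.H576.FK.TA09b
import Pool.Agent.H576.FK.TA10
import Pool.Agent.H576.FK.TA11
import Pool.Agent.H576.FK.TA12
import Pool.Agent.H576.FK.TA13
import Pool.Agent.H576.FK.TA13a
import Pool.Agent.H576.FK.TA13b
import Pool.Agent.H576.FK.TA13c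
import Pool.Agent.H576.FK.TA14
import Pool.Agent.H576.FK.TA15
import Pool.Agent.H576.FK.TB00
import Pool.Agent.H576.FK.TB01
import Pool.Agent.H576.FK.TB02
import Pool.Agent.H576.FK.TB03
import Pool.Agent.H576.FK.TB04
import Pool.Agent.H576.FK.TB05
import Pool.Agent.H576.FK.TB06
import Pool.Agent.H576.FK.TB07
import Pool.Agent.H576.FK.TB08
import Pool.Agent.H576.FK.TB09
import Pool.Agent.H576.FK.TC01
import Pool.Agent.H576.FK.TC02
import Pool.Agent.H576.FK.TC03
import Pool.Agent.H576.FK.TC04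
import Pool.Agent.H576.FK.TC05
import Pool.Agent.H576.FK.TC06
import Pool.Agent.H576.FK.TC07
import Pool.Agent.H576.FK.TC08
import Pool.Agent.H576.FK.TC09
import Pool.Agent.H576.FK.TC10
import Pool.Agent.H576.FK.TD01
import Pool.Agent.H576.FK.TD02
import Pool.Agent.H576.FK.TD03

set_option autoImplicit false

namespace Pool.Agent.H576.FK

theorem slice : A15_slice :=
  have h8 := A08 A07
  have h9b := A09b A07 h8 A09a
  have h10 := A10 A03
  have h11 := A11 A04 (A05 A03) h9b h10
  have h13 := A13 (A12 h8) A13a (A13b A13a) A13c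
  A15 A06 h11 h13 (A14 A07 A13a)

theorem op : B08_op :=
  B08 B00 (B02 B01 slice) B03 (B05 B04) B06 B07

theorem chain_eq : C09_eq :=
  C09 (C02 C01) (C05 C03 C04) C06 C07 C08

theorem final :
    ∀ (p : Polynomial ℝ), (∀ k ≤ p.natDegree, 0 < p.coeff k) →
      p.roots.card = p.natDegree →
      ∀ r : ℕ, 1 ≤ r → ∀ q : Polynomial ℝ,
        q = ∑ k ∈ Finset.range (p.natDegree + 1),
              Polynomial.C (Matrix.det (Matrix.of (fun i j : Fin r =>
                if 0 ≤ (k : ℤ) - ((i : ℕ) : ℤ) + ((j : ℕ) : ℤ)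
                then p.coeff ((k : ℤ) - ((i : ℕ) : ℤ) + ((j : ℕ) : ℤ)).toNat
                else 0))) * Polynomial.X ^ k →
        q.roots.card = q.natDegree ∧ ∀ x ∈ q.roots, x < 0 :=
  D03 (B09 op) (C10 chain_eq) D01 D02

end Pool.Agent.H576.FK
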