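import Pool.Agent.H576.FK.Stmts

set_option autoImplicit false

open scoped BigOperators
open Finset

namespace Pool.Agent.H576.FK

namespace TA13c

lemma norms_pos {U : Finset ℕ} {x y : ℕ → ℂ} (h : Cone U x y) {i : ℕ} (hi : i ∈ U) :
    0 < ‖x i‖ ^ 2 ∧ 0 < ‖y i‖ ^ 2 := by
  have h1 := h i hi
  have hx : x i ≠ 0 := by
    intro h0
    rw [h0] at h1
    simp at h1
  have hy : y i ≠ 0 := by
    intro h0
    rw [h0] at h1
    simp at h1
  exact ⟨by positivity, by positivity⟩

end TA13c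

open TA13c in
theorem A13c : A13c_norm := by
  intro U hU x y hC
  set a : ℕ → ℝ := fun i => ‖x i‖ ^ 2 with ha
  set b : ℕ → ℝ := fun i => ‖y i‖ ^ 2 with hb
  have hapos : ∀ i ∈ U, 0 < a i := fun i hi => (norms_pos hC hi).1
  have hbpos : ∀ i ∈ U, 0 < b i := fun i hi => (norms_pos hC hi).2
  set F : ℝ → ℝ := fun u => ∑ i ∈ U, u * a i / (u * a i + b i) with hF
  set u1 : ℝ := ∑ i ∈ U, b i / a i with hu1
  have hu1nn : 0 ≤ u1 := Finset.sum_nonneg (fun i hi => (div_pos (hbpos i hi) (hapos i hi)).le)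
  have hcont : ContinuousOn F (Set.Icc 0 u1) := by
    apply continuousOn_finset_sum
    intro i hi
    apply ContinuousOn.div
    · fun_prop
    · fun_prop
    · intro u hu
      have h1 := mul_nonneg hu.1 (hapos i hi).le
      have h2 := hbpos i hi
      linarith
  have hF0 : F 0 = 0 := by
    simp [hF]
  have hcard : (0 : ℝ) < U.card := by exact_mod_cast hU.card_pos
  have hF1 : (U.card : ℝ) / 2 ≤ F u1 := by
    have : ∑ i ∈ U, (1 / 2 : ℝ) ≤ F u1 := by
      apply Finset.sum_le_sum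
      intro i hi
      have h1 : b i / a i ≤ u1 :=
        Finset.single_le_sum (f := fun i => b i / a i)
          (fun j hj => (div_pos (hbpos j hj) (hapos j hj)).le) hi
      have h2 : b i ≤ u1 * a i := by
        rwa [div_le_iff₀ (hapos i hi)] at h1
      have h3 := hbpos i hi
      rw [div_le_div_iff₀ (by norm_num) (by linarith)]
      linarith
    have h2 : ∑ i ∈ U, (1 / 2 : ℝ) = (U.card : ℝ) / 2 := by
      rw [Finset.sum_const, nsmul_eq_mul]; ring
    linarith
  have hmem : (U.card : ℝ) / 2 ∈ Set.Icc (F 0) (F u1) := by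
    rw [hF0]
    exact ⟨by positivity, hF1⟩
  obtain ⟨u, hu, hFu⟩ := intermediate_value_Icc hu1nn hcont hmem
  have hupos : 0 < u := by
    rcases hu.1.lt_or_eq with h | h
    · exact h
    · exfalso
      rw [← h, hF0] at hFu
      linarith
  refine ⟨Real.sqrt (Real.sqrt u), Real.sqrt_pos.2 (Real.sqrt_pos.2 hupos), ?_⟩
  rw [← hFu]
  apply Finset.sum_congr rfl
  intro i hi
  set s : ℝ := Real.sqrt u with hs
  have hspos : 0 < s := Real.sqrt_pos.2 hupos
  have hss : s ^ 2 = u := Real.sq_sqrt hupos.le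
  set t : ℝ := Real.sqrt s with ht
  have htpos : 0 < t := Real.sqrt_pos.2 hspos
  have htt : t ^ 2 = s := Real.sq_sqrt hspos.le
  have e1 : ‖(t : ℂ) * x i‖ ^ 2 = s * a i := by
    rw [norm_mul, mul_pow, Complex.norm_real, Real.norm_eq_abs, sq_abs, htt]
  have e2 : ‖(t : ℂ)⁻¹ * y i‖ ^ 2 = s⁻¹ * b i := by
    rw [norm_mul, mul_pow, norm_inv, Complex.norm_real, Real.norm_eq_abs, inv_pow, sq_abs, htt]
  rw [e1, e2, ← hss]
  have h1 := hapos i hi
  have h2 := hbpos i hi
  have h3 : s * a i + s⁻¹ * b i ≠ 0 := by positivity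
  have h4 : s ^ 2 * a i + b i ≠ 0 := by positivity
  rw [div_eq_div_iff h3 h4]
  field_simp

end Pool.Agent.H576.FK
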