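import Pool.Agent.H576.FK.Stmts

/-!
# C04: facts on elementary symmetric polynomials
-/

set_option autoImplicit false

open scoped BigOperators
open Finset

namespace Pool.Agent.H576.FK

namespace TC04

theorem es_insert (W : Finset ℕ) (a : ℕ) (ha : a ∉ W) (m : ℤ) :
    es (insert a W) m = es W m + MvPolynomial.X a * es W (m - 1) := by
  unfold es
  rcases lt_trichotomy m 0 with h | h | h
  · rw [if_neg (by omega), if_neg (by omega), if_neg (by omega)]; simp
  · subst h
    simp
  · obtain ⟨n, rfl⟩ : ∃ n : ℕ, m = (n : ℤ) + 1 := ⟨(m - 1).toNat, by omega⟩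
    rw [if_pos (by omega), if_pos (by omega), if_pos (by omega)]
    have e1 : ((n : ℤ) + 1).toNat = n + 1 := by omega
    have e2 : ((n : ℤ) + 1 - 1).toNat = n := by omega
    rw [e1, e2, Finset.powersetCard_succ_insert ha, Finset.sum_union]
    · congr 1
      rw [Finset.sum_image, Finset.mul_sum]
      · apply Finset.sum_congr rfl
        intro A hA
        have : a ∉ A := fun h => ha ((Finset.mem_powersetCard.1 hA).1 h)
        rw [Finset.prod_insert this]
      · intro A hA B hB hAB
        have h1 : a ∉ A := fun h => ha ((Finset.mem_powersetCard.1 hA).1 h)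
        have h2 : a ∉ B := fun h => ha ((Finset.mem_powersetCard.1 hB).1 h)
        have h3 : (insert a A).erase a = (insert a B).erase a := by
          rw [hAB]
        rwa [Finset.erase_insert h1, Finset.erase_insert h2] at h3
    · rw [Finset.disjoint_left]
      intro A hA hB
      obtain ⟨B, hB, rfl⟩ := Finset.mem_image.1 hB
      exact ha ((Finset.mem_powersetCard.1 hA).1 (Finset.mem_insert_self a B))

theorem es_erase (V : Finset ℕ) (l : ℕ) (hl : l ∈ V) (m : ℤ) :
    es V m = es (V.erase l) m + MvPolynomial.X l * es (V.erase l) (m - 1) := by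
  conv_lhs => rw [← Finset.insert_erase hl]
  exact es_insert _ _ (Finset.notMem_erase l V) m

theorem pderiv_prod (l : ℕ) (A : Finset ℕ) (hA : l ∉ A) :
    MvPolynomial.pderiv l (∏ i ∈ A, (MvPolynomial.X i : MvPolynomial ℕ ℝ)) = 0 := by
  induction A using Finset.induction_on with
  | empty => simp
  | insert a A ha ih =>
    have h1 : l ≠ a := fun h => hA (h ▸ Finset.mem_insert_self a A)
    have h2 : l ∉ A := fun h => hA (Finset.mem_insert_of_mem h)
    rw [Finset.prod_insert ha, MvPolynomial.pderiv_mul, ih h2,
      MvPolynomial.pderiv_X_of_ne (Ne.symm h1)]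
    simp

theorem pderiv_es (V : Finset ℕ) (l : ℕ) (hl : l ∉ V) (m : ℤ) :
    MvPolynomial.pderiv l (es V m) = 0 := by
  unfold es
  split_ifs
  · rw [map_sum]
    apply Finset.sum_eq_zero
    intro A hA
    exact pderiv_prod l A (fun h => hl ((Finset.mem_powersetCard.1 hA).1 h))
  · simp

theorem es_empty (m : ℤ) : MvPolynomial.C (m : ℝ) * es ∅ m = 0 := by
  unfold es
  rcases lt_trichotomy m 0 with h | h | h
  · rw [if_neg (by omega)]; simp
  · subst h; simp
  · rw [if_pos (by omega), Finset.powersetCard_eq_empty.2 (by simp; omega)]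
    simp

theorem euler (W : Finset ℕ) : ∀ m : ℤ,
    ∑ j ∈ W, MvPolynomial.X j * es (W.erase j) (m - 1) = MvPolynomial.C (m : ℝ) * es W m := by
  induction W using Finset.induction_on with
  | empty => intro m; rw [es_empty]; simp
  | insert a W ha ih =>
    intro m
    rw [Finset.sum_insert ha, Finset.erase_insert ha, es_insert W a ha m]
    have h1 : ∀ j ∈ W, MvPolynomial.X j * es ((insert a W).erase j) (m - 1) =
        MvPolynomial.X j * es (W.erase j) (m - 1) +
          MvPolynomial.X a * (MvPolynomial.X j * es (W.erase j) (m - 1 - 1)) := by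
      intro j hj
      have hja : j ≠ a := fun h => ha (h ▸ hj)
      rw [Finset.erase_insert_of_ne (Ne.symm hja), es_insert _ a
        (fun h => ha (Finset.mem_of_mem_erase h))]
      ring
    rw [Finset.sum_congr rfl h1, Finset.sum_add_distrib, ← Finset.mul_sum, ih m, ih (m - 1)]
    push_cast
    rw [map_sub]
    simp only [map_one]
    ring

end TC04

theorem C04 : C04_es := by
  intro V l hl p
  refine ⟨TC04.es_erase V l hl p, ?_, TC04.pderiv_es _ l (Finset.notMem_erase l V) p, ?_, ?_⟩
  · rw [TC04.es_erase V l hl p, map_add, MvPolynomial.pderiv_mul,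
      TC04.pderiv_es _ l (Finset.notMem_erase l V), TC04.pderiv_es _ l (Finset.notMem_erase l V),
      MvPolynomial.pderiv_X_self]
    ring
  · intro j hj
    have hjl : j ≠ l := Finset.ne_of_mem_erase hj
    have hjV : j ∈ V := Finset.mem_of_mem_erase hj
    have hl' : l ∈ V.erase j := Finset.mem_erase.2 ⟨Ne.symm hjl, hl⟩
    rw [TC04.es_erase (V.erase l) j hj, TC04.es_erase (V.erase j) l hl',
      Finset.erase_right_comm (a := j) (b := l)]
    have e : p - 1 - 1 = p - 2 := by ring
    rw [e]
    ring
  · have h := TC04.euler (V.erase l) (p - 1)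
    have e : p - 1 - 1 = p - 2 := by ring
    rw [e] at h
    rw [h]
    push_cast
    rfl

end Pool.Agent.H576.FK
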